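import Mathlib

/-!
Estimates for products of factorials.
-/

set_option autoImplicit false

namespace Pool.Agent.Lib.MP_93b520_nt

open Finset Real

/-- The product `0! 1! ... (n-1)!`. -/
noncomputable def sf (n : ℕ) : ℝ := ∏ k ∈ range n, (k.factorial : ℝ)

theorem sf_pos (n : ℕ) : 0 < sf n := prod_pos fun k _ => by positivity

theorem sf_succ (n : ℕ) : sf (n + 1) = sf n * n.factorial := prod_range_succ _ _

theorem log_succ_sub_le (n : ℝ) (hn : 0 < n) :
    log (n + 1) - log n ≤ (2 * n + 1) / (2 * n * (n + 1)) := by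
  have h1 : 0 ≤ log (n + 1) - log n := sub_nonneg.mpr (log_le_log hn (by linarith))
  have h2 := Real.self_le_sinh_iff.mpr h1
  rw [← log_div (by linarith) hn.ne', Real.sinh_log (by positivity)] at h2
  rw [← log_div (by linarith) hn.ne']
  refine h2.trans (le_of_eq ?_)
  field_simp
  ring

theorem le_log_succ_sub (n : ℝ) (hn : 0 < n) : 1 / (n + 1) ≤ log (n + 1) - log n := by
  have h := Real.log_le_sub_one_of_pos (show 0 < n / (n + 1) by positivity)
  rw [log_div hn.ne' (by linarith)] at h
  have : n / (n + 1) - 1 = -(1 / (n + 1)) := by field_simp; ring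
  linarith

theorem sum_mul_log_ge (n : ℕ) :
    (n : ℝ) * (n - 1) / 2 * log n - (n : ℝ) ^ 2 / 4 ≤ ∑ k ∈ range n, (k : ℝ) * log k := by
  induction n with
  | zero => simp
  | succ n ih =>
    rw [sum_range_succ]
    rcases Nat.eq_zero_or_pos n with h | h
    · subst h; simp
    · have hn : (0 : ℝ) < n := by exact_mod_cast h
      have h1 := log_succ_sub_le n hn
      rw [le_div_iff₀ (by positivity)] at h1
      push_cast
      nlinarith

theorem log_factorial_ge (n : ℕ) : (n : ℝ) * log n - n ≤ log (n.factorial : ℝ) := by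
  rcases Nat.eq_zero_or_pos n with h | h
  · subst h; simp
  · have hn : (0 : ℝ) < n := by exact_mod_cast h
    have h1 := Real.pow_div_factorial_le_exp (n : ℝ) hn.le n
    have h2 := log_le_log (by positivity) h1
    rw [log_div (by positivity) (by positivity), log_pow, log_exp] at h2
    linarith

theorem log_sf_eq (n : ℕ) : log (sf n) = ∑ k ∈ range n, log (k.factorial : ℝ) := by
  rw [sf, log_prod]
  intro k _
  positivity

theorem sum_range_cast (n : ℕ) : ∑ k ∈ range n, (k : ℝ) = (n : ℝ) * (n - 1) / 2 := by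
  induction n with
  | zero => simp
  | succ n ih => rw [sum_range_succ, ih]; push_cast; ring

theorem log_sf_ge (n : ℕ) :
    (n : ℝ) * (n - 1) / 2 * log n - 3 * (n : ℝ) ^ 2 / 4 + n / 2 ≤ log (sf n) := by
  rw [log_sf_eq]
  have h1 := sum_mul_log_ge n
  have h2 : ∑ k ∈ range n, ((k : ℝ) * log k - k) ≤ ∑ k ∈ range n, log (k.factorial : ℝ) :=
    sum_le_sum fun k _ => log_factorial_ge k
  rw [sum_sub_distrib, sum_range_cast] at h2
  nlinarith

theorem log_factorial_le (n : ℕ) :
    log (n.factorial : ℝ) ≤ ((n : ℝ) + 1) * log (n + 1) - n := by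
  induction n with
  | zero => simp
  | succ n ih =>
    rw [Nat.factorial_succ]
    push_cast
    rw [log_mul (by positivity) (by positivity)]
    have h1 := le_log_succ_sub ((n : ℝ) + 1) (by positivity)
    rw [div_le_iff₀ (by positivity)] at h1
    nlinarith

theorem log_sf_add (n : ℕ) :
    log (sf (n + 1)) + ∑ k ∈ range (n + 1), (k : ℝ) * log k =
      ((n : ℝ) + 1) * log (n.factorial : ℝ) := by
  induction n with
  | zero => simp [sf]
  | succ n ih =>
    rw [sf_succ, log_mul (sf_pos _).ne' (by positivity), sum_range_succ, Nat.factorial_succ]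
    push_cast
    rw [log_mul (by positivity) (by positivity)]
    linarith

theorem log_sf_le (n : ℕ) :
    log (sf n) ≤ ((n : ℝ) ^ 2 + n) / 2 * log n - 3 * (n : ℝ) ^ 2 / 4 + n := by
  rcases n with _ | n
  · simp [sf]
  · have h1 := log_sf_add n
    have h2 := sum_mul_log_ge (n + 1)
    have h3 := log_factorial_le n
    have h4 := mul_le_mul_of_nonneg_left h3 (show (0 : ℝ) ≤ n + 1 by positivity)
    push_cast at *
    nlinarith

/-- The tangent-line form of the bound for `sf e ^ 2 / sf (2 e)`. -/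
theorem log_sf_ratio_le (e K : ℕ) (he : e ≤ K) (hK : 1 ≤ K) (s : ℝ) (hs : 0 < s) :
    2 * log (sf e) - log (sf (2 * e)) ≤
      (e : ℝ) ^ 2 * (3 / 2 - log 4 - log s - 1) + s * e + K * (2 * log K + 2) := by
  have hK' : (1 : ℝ) ≤ K := by exact_mod_cast hK
  have hlK : 0 ≤ log (K : ℝ) := log_nonneg hK'
  rcases Nat.eq_zero_or_pos e with h | h
  · subst h
    simp [sf]
    positivity
  · have he0 : (1 : ℝ) ≤ e := by exact_mod_cast h
    have heK : (e : ℝ) ≤ K := by exact_mod_cast he
    have h1 := log_sf_le e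
    have h2 := log_sf_ge (2 * e)
    push_cast at h2
    rw [log_mul (by norm_num) (by positivity)] at h2
    have h4 : log 4 = 2 * log 2 := by
      rw [show (4 : ℝ) = 2 ^ 2 by norm_num, log_pow]; norm_num
    have h5 : log s - log e ≤ s / e - 1 := by
      rw [← log_div hs.ne' (by positivity)]
      exact Real.log_le_sub_one_of_pos (by positivity)
    have h6 : (e : ℝ) ^ 2 * (log s - log e) ≤ s * e - (e : ℝ) ^ 2 := by
      calc (e : ℝ) ^ 2 * (log s - log e) ≤ (e : ℝ) ^ 2 * (s / e - 1) := by gcongr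
        _ = s * e - (e : ℝ) ^ 2 := by field_simp
    have h7 : (e : ℝ) * log e ≤ K * log K :=
      mul_le_mul heK (log_le_log (by positivity) heK) (log_nonneg he0) (by positivity)
    have h8 : log 2 < 1 := by have := Real.log_two_lt_d9; linarith
    have h9 : (e : ℝ) * log 2 ≤ K := by nlinarith [log_pos (show (1 : ℝ) < 2 by norm_num)]
    rw [h4]
    nlinarith

/-- Bound for the product of the sup-norms of the normalised Chebyshev polynomials. -/
theorem log_cheb_prod_le (K : ℕ) (hK : 1 ≤ K) (U : ℝ) (hU : 2 * (K : ℝ) ≤ U) :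
    (K : ℝ) * (K - 1) / 2 * log (U / 2) - log (sf K) ≤
      (K : ℝ) ^ 2 / 2 * (log (U / (2 * K)) + 3 / 2) := by
  have hK' : (1 : ℝ) ≤ K := by exact_mod_cast hK
  have h1 := log_sf_ge K
  have h2 : log (U / (2 * K)) = log (U / 2) - log K := by
    rw [← log_div (by linarith) (by linarith), div_div]
  have h3 : 0 ≤ log (U / (2 * K)) := log_nonneg (by rw [le_div_iff₀ (by positivity)]; linarith)
  have h4 : log (U / 2) = log (U / (2 * K)) + log K := by linarith
  rw [h4]
  nlinarith

theorem log_factorial_le_mul (n : ℕ) : log (n.factorial : ℝ) ≤ (n : ℝ) * log n := by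
  rw [← log_pow]
  refine log_le_log (by positivity) ?_
  exact_mod_cast Nat.factorial_le_pow n

/-- Sum of absolute deviations along an arithmetic progression. -/
theorem sum_abs_le (θ : ℝ) (h0 : 0 ≤ θ) (h1 : θ ≤ 1) (S : ℕ) :
    ∑ j ∈ range S, |(j : ℝ) + θ - S / 2| ≤ ((S : ℝ) ^ 2 + 1) / 4 := by
  induction S using Nat.twoStepInduction with
  | zero => simp
  | one =>
    simp only [range_one, sum_singleton, Nat.cast_zero, Nat.cast_one]
    rw [abs_le]; constructor <;> linarith
  | more S ih _ =>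
    rw [sum_range_succ, sum_range_succ']
    have h2 : ∑ j ∈ range S, |((j + 1 : ℕ) : ℝ) + θ - ((S + 2 : ℕ) : ℝ) / 2| =
        ∑ j ∈ range S, |(j : ℝ) + θ - S / 2| := by
      refine sum_congr rfl fun j _ => ?_
      congr 1
      push_cast
      ring
    rw [h2]
    have hS : (0 : ℝ) ≤ S := by positivity
    push_cast
    rw [abs_of_nonpos (by linarith), abs_of_nonneg (by linarith)]
    nlinarith

/-- Sum of squared deviations along an arithmetic progression. -/
theorem sum_sq_le (θ : ℝ) (h0 : 0 ≤ θ) (h1 : θ ≤ 1) (S : ℕ) :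
    ∑ j ∈ range S, ((j : ℝ) + θ - S / 2) ^ 2 ≤ S * ((S : ℝ) ^ 2 + 2) / 12 := by
  have h2 : ∀ (c : ℝ) (n : ℕ), ∑ j ∈ range n, ((j : ℝ) + c) ^ 2 =
      (n : ℝ) * (n - 1) * (2 * n - 1) / 6 + c * n * (n - 1) + n * c ^ 2 := by
    intro c n
    induction n with
    | zero => simp
    | succ n ih => rw [sum_range_succ, ih]; push_cast; ring
  have h3 := h2 (θ - S / 2) S
  simp only [← add_sub_assoc] at h3
  rw [h3]
  have hS : (0 : ℝ) ≤ S := by positivity
  have h4 : θ * (θ - 1) ≤ 0 := mul_nonpos_of_nonneg_of_nonpos h0 (by linarith)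
  nlinarith [mul_nonneg hS (neg_nonneg.mpr h4)]

end Pool.Agent.Lib.MP_93b520_nt
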