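import Mathlib
import Pool.Agent.Lib.MP_93b520_nt.Fact

/-!
Chebyshev polynomials, Newton interpolation and row operations on interpolation determinants.
-/

set_option autoImplicit false

namespace Pool.Agent.Lib.MP_93b520_nt

open Finset Polynomial

/-- Bound for a determinant whose entries are bounded by a product of a row and a column factor. -/
theorem abs_det_le_rc {ι : Type} [Fintype ι] [DecidableEq ι] (M : Matrix ι ι ℝ) (α β : ι → ℝ)
    (h : ∀ i j, |M i j| ≤ α i * β j) :
    |M.det| ≤ (Fintype.card ι).factorial * ((∏ i, α i) * ∏ j, β j) := by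
  rw [Matrix.det_apply']
  refine (abs_sum_le_sum_abs _ _).trans ?_
  have : ∀ σ : Equiv.Perm ι,
      |((Equiv.Perm.sign σ : ℤ) : ℝ) * ∏ i, M (σ i) i| ≤ (∏ i, α i) * ∏ j, β j := by
    intro σ
    rw [abs_mul, Finset.abs_prod]
    have h1 : |((Equiv.Perm.sign σ : ℤ) : ℝ)| = 1 := by
      rcases Int.units_eq_one_or (Equiv.Perm.sign σ) with h | h <;> simp [h]
    rw [h1, one_mul, ← Equiv.prod_comp σ α, ← prod_mul_distrib]
    exact prod_le_prod (fun i _ => abs_nonneg _) (fun i _ => h _ _)
  refine (sum_le_sum fun σ _ => this σ).trans ?_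
  rw [sum_const, card_univ, Fintype.card_perm, nsmul_eq_mul]

/-- Twice the normalised Chebyshev polynomials. -/
noncomputable def chb (U : ℝ) : ℕ → ℝ[X]
  | 0 => C 2
  | 1 => X
  | n + 2 => X * chb U (n + 1) - C (U ^ 2 / 4) * chb U n

theorem chb_eval (U θ : ℝ) (n : ℕ) :
    (chb U n).eval (U * Real.cos θ) = 2 * (U / 2) ^ n * Real.cos (n * θ) := by
  induction n using Nat.twoStepInduction with
  | zero => simp [chb]
  | one => simp only [chb, eval_X, pow_one, Nat.cast_one, one_mul]; ring
  | more n h0 h1 =>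
    simp only [chb, eval_sub, eval_mul, eval_X, eval_C, h0, h1]
    have e1 : ((n + 2 : ℕ) : ℝ) * θ = ((n + 1 : ℕ) : ℝ) * θ + θ := by push_cast; ring
    have e2 : (n : ℝ) * θ = ((n + 1 : ℕ) : ℝ) * θ - θ := by push_cast; ring
    rw [e1, e2, Real.cos_add, Real.cos_sub]
    ring

theorem chb_deg (U : ℝ) (n : ℕ) :
    (chb U n).natDegree ≤ n ∧ (n ≠ 0 → (chb U n).coeff n = 1) := by
  induction n using Nat.twoStepInduction with
  | zero => simp [chb]
  | one => simp [chb]
  | more n h0 h1 =>
    have a1 : (X * chb U (n + 1)).natDegree ≤ n + 2 := by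
      refine natDegree_mul_le.trans ?_
      rw [natDegree_X]
      omega
    have a2 : (C (U ^ 2 / 4) * chb U n).natDegree ≤ n := (natDegree_C_mul_le _ _).trans h0.1
    refine ⟨?_, fun _ => ?_⟩
    · simp only [chb]
      exact (natDegree_sub_le _ _).trans (max_le a1 (by omega))
    · simp only [chb, coeff_sub, coeff_X_mul, h1.2 (by omega)]
      rw [coeff_eq_zero_of_natDegree_lt (by omega)]
      simp

theorem exists_cheb (U : ℝ) (hU : 0 < U) : ∃ p : ℕ → ℝ[X],
    (∀ n, (p n).natDegree ≤ n ∧ (p n).coeff n = 1) ∧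
    ∀ n x, |x| ≤ U → |(p n).eval x| ≤ 2 * (U / 2) ^ n := by
  refine ⟨fun n => if n = 0 then 1 else chb U n, fun n => ?_, fun n x hx => ?_⟩
  · by_cases h : n = 0
    · simp [h]
    · simp only [h, if_false]
      exact ⟨(chb_deg U n).1, (chb_deg U n).2 h⟩
  · by_cases h : n = 0
    · simp [h]
    · simp only [h, if_false]
      have h1 : x = U * Real.cos (Real.arccos (x / U)) := by
        rw [abs_le] at hx
        rw [Real.cos_arccos]
        · field_simp
        · rw [le_div_iff₀ hU]; linarith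
        · rw [div_le_iff₀ hU]; linarith
      rw [h1, chb_eval, abs_mul, abs_of_nonneg (by positivity)]
      exact mul_le_of_le_one_right (by positivity) (Real.abs_cos_le_one _)

theorem monic_of_coeff {p : ℝ[X]} {n : ℕ} (h1 : p.natDegree ≤ n) (h2 : p.coeff n = 1) :
    p.natDegree = n ∧ p.Monic := by
  have h3 : p.natDegree = n := le_antisymm h1 (le_natDegree_of_ne_zero (by rw [h2]; simp))
  exact ⟨h3, by rw [Monic, leadingCoeff, h3, h2]⟩

/-- Fekete-type bound for a Vandermonde determinant. -/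
theorem abs_vandermonde_le {n : ℕ} (u : Fin n → ℝ) (U : ℝ) (hU : 0 < U) (hu : ∀ i, |u i| ≤ U) :
    |(Matrix.vandermonde u).det| ≤ n.factorial * (2 ^ n * (U / 2) ^ (∑ k ∈ range n, k)) := by
  obtain ⟨p, hp, hb⟩ := exists_cheb U hU
  rw [Matrix.det_eval_matrixOfPolynomials_eq_det_vandermonde u (fun i => p i)
    (fun i => (monic_of_coeff (hp i).1 (hp i).2).1) (fun i => (monic_of_coeff (hp i).1 (hp i).2).2)]
  refine (abs_det_le_rc _ (fun _ => 1) (fun j : Fin n => 2 * (U / 2) ^ (j : ℕ)) fun i j => ?_).trans ?_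
  · rw [one_mul]
    exact hb _ _ (hu i)
  · rw [Fintype.card_fin, prod_const_one, one_mul, prod_mul_distrib, prod_const, card_univ,
      Fintype.card_fin, prod_pow_eq_pow_sum, Fin.sum_univ_eq_sum_range (fun k => k) n]

/-- Row operations: only the leading coefficients of the polynomials matter. -/
theorem det_rows {Λ : Type} [Fintype Λ] [DecidableEq Λ] {K : ℕ} (P : Fin K → ℝ[X])
    (hP : ∀ k, (P k).natDegree ≤ k) (u : Fin K × Λ → ℝ) (g : Λ → Fin K × Λ → ℝ) :
    (Matrix.of fun r p : Fin K × Λ => (P r.1).eval (u p) * g r.2 p).det =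
      (∏ k : Fin K, (P k).coeff k) ^ Fintype.card Λ *
        (Matrix.of fun r p : Fin K × Λ => u p ^ (r.1 : ℕ) * g r.2 p).det := by
  let T : Matrix (Fin K) (Fin K) ℝ := Matrix.of fun k k' => (P k).coeff k'
  have hT : T.det = ∏ k : Fin K, (P k).coeff k := by
    rw [Matrix.det_of_isLowerTriangular]
    · rfl
    · intro i j hij
      exact coeff_eq_zero_of_natDegree_lt ((hP i).trans_lt hij)
  have hM : (Matrix.of fun r p : Fin K × Λ => (P r.1).eval (u p) * g r.2 p) =
      Matrix.blockDiagonal (fun _ : Λ => T) *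
        Matrix.of fun r p : Fin K × Λ => u p ^ (r.1 : ℕ) * g r.2 p := by
    ext ⟨k, l⟩ p
    rw [Matrix.mul_apply, Fintype.sum_prod_type]
    simp only [Matrix.of_apply, Matrix.blockDiagonal_apply', ite_mul, zero_mul, sum_ite_eq,
      mem_univ, if_true, T]
    rw [eval_eq_sum_range' (n := K) ((hP k).trans_lt k.2), sum_mul,
      ← Fin.sum_univ_eq_sum_range (fun i => (P k).coeff i * u p ^ i * g l p)]
    exact sum_congr rfl fun i _ => by ring
  rw [hM, Matrix.det_mul, Matrix.det_blockDiagonal, prod_const, card_univ, hT]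

theorem det_rows_eq {Λ : Type} [Fintype Λ] [DecidableEq Λ] {K : ℕ} (P Q : Fin K → ℝ[X])
    (hP : ∀ k, (P k).natDegree ≤ k) (hQ : ∀ k, (Q k).natDegree ≤ k)
    (hPQ : ∀ k : Fin K, (P k).coeff k = (Q k).coeff k) (u : Fin K × Λ → ℝ)
    (g : Λ → Fin K × Λ → ℝ) :
    (Matrix.of fun r p : Fin K × Λ => (P r.1).eval (u p) * g r.2 p).det =
      (Matrix.of fun r p : Fin K × Λ => (Q r.1).eval (u p) * g r.2 p).det := by
  rw [det_rows P hP, det_rows Q hQ, prod_congr rfl fun k _ => hPQ k]

/-- The binomial polynomial. -/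
noncomputable def binP (k : ℕ) : ℝ[X] := C (1 / (k.factorial : ℝ)) * descPochhammer ℝ k

theorem binP_deg (k : ℕ) : (binP k).natDegree ≤ k :=
  (natDegree_C_mul_le _ _).trans (descPochhammer_natDegree ℝ k).le

theorem binP_coeff (k : ℕ) : (binP k).coeff k = 1 / (k.factorial : ℝ) := by
  have h := monic_descPochhammer ℝ k
  rw [Monic, leadingCoeff, descPochhammer_natDegree] at h
  rw [binP, coeff_C_mul, h, mul_one]

theorem binP_eval (n k : ℕ) : (binP k).eval (n : ℝ) = (n.choose k : ℝ) := by
  rw [binP, eval_mul, eval_C, descPochhammer_eval_eq_descFactorial,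
    Nat.descFactorial_eq_factorial_mul_choose]
  push_cast
  field_simp

/-- Coefficients of the monomials in the Newton basis. -/
noncomputable def nc (u : ℕ → ℝ) : ℕ → ℕ → ℝ
  | 0, 0 => 1
  | 0, _ + 1 => 0
  | n + 1, 0 => u 0 * nc u n 0
  | n + 1, j + 1 => nc u n j + u (j + 1) * nc u n (j + 1)

theorem abs_nc_le (u : ℕ → ℝ) (U : ℝ) (hu : ∀ i, |u i| ≤ U) (n j : ℕ) :
    |nc u n j| ≤ (n.choose j : ℝ) * U ^ (n - j) := by
  have hU : 0 ≤ U := (abs_nonneg _).trans (hu 0)
  induction n generalizing j with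
  | zero => rcases j with _ | j <;> simp [nc]
  | succ n ih =>
    rcases j with _ | j
    · have := ih 0
      simp only [nc, Nat.choose_zero_right, Nat.cast_one, one_mul, Nat.sub_zero] at this ⊢
      rw [abs_mul, pow_succ']
      exact mul_le_mul (hu 0) this (abs_nonneg _) hU
    · simp only [nc, Nat.choose_succ_succ, Nat.add_sub_add_right]
      refine (abs_add_le _ _).trans ?_
      push_cast
      rw [add_mul, abs_mul]
      refine add_le_add (ih j) ?_
      by_cases h : j + 1 ≤ n
      · have h2 : n - j = (n - (j + 1)) + 1 := by omega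
        rw [h2, pow_succ']
        calc |u (j + 1)| * |nc u n (j + 1)| ≤ U * ((n.choose (j + 1) : ℝ) * U ^ (n - (j + 1))) :=
              mul_le_mul (hu _) (ih _) (abs_nonneg _) hU
          _ = _ := by ring
      · have h3 := ih (j + 1)
        rw [Nat.choose_eq_zero_of_lt (by omega)] at h3 ⊢
        simp only [Nat.cast_zero, zero_mul] at h3 ⊢
        have : |nc u n (j + 1)| = 0 := le_antisymm h3 (abs_nonneg _)
        rw [this, mul_zero]

theorem nc_eq_zero (u : ℕ → ℝ) (n j : ℕ) (h : n < j) : nc u n j = 0 := by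
  induction n generalizing j with
  | zero => rcases j with _ | j <;> simp_all [nc]
  | succ n ih =>
    rcases j with _ | j
    · omega
    · simp [nc, ih j (by omega), ih (j + 1) (by omega)]

theorem pow_eq_sum_nc (u : ℕ → ℝ) (x : ℝ) (n : ℕ) :
    x ^ n = ∑ j ∈ range (n + 1), nc u n j * ∏ i ∈ range j, (x - u i) := by
  induction n with
  | zero => simp [nc]
  | succ n ih =>
    rw [pow_succ, ih, sum_mul, sum_range_succ' _ (n + 1)]
    simp only [nc, add_mul, sum_add_distrib]
    have h1 : ∑ j ∈ range (n + 1), u (j + 1) * nc u n (j + 1) * ∏ i ∈ range (j + 1), (x - u i) +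
        u 0 * nc u n 0 * ∏ i ∈ range 0, (x - u i) =
        ∑ j ∈ range (n + 1), u j * nc u n j * ∏ i ∈ range j, (x - u i) := by
      rw [← sum_range_succ' (fun j => u j * nc u n j * ∏ i ∈ range j, (x - u i)) (n + 1),
        sum_range_succ, nc_eq_zero u n (n + 1) (by omega)]
      simp
    rw [add_assoc, h1, ← sum_add_distrib]
    refine sum_congr rfl fun j _ => ?_
    rw [prod_range_succ]
    ring

/-- Newton factorisation of the monomials at finitely many nodes. -/
theorem exists_newton {m : ℕ} (u : Fin m → ℝ) (U : ℝ) (hU : 0 < U) (hu : ∀ i, |u i| ≤ U) :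
    ∃ (c : ℕ → ℕ → ℝ) (Q : Matrix (Fin m) (Fin m) ℝ),
      |Q.det| ≤ m.factorial * (2 ^ m * (U / 2) ^ (∑ k ∈ range m, k)) ∧
      (∀ n p, u p ^ n = ∑ j : Fin m, c n j * Q j p) ∧
      ∀ n j, |c n j| ≤ (n.choose j : ℝ) * U ^ (n - j) := by
  let v : ℕ → ℝ := fun i => if h : i < m then u ⟨i, h⟩ else 0
  have hv : ∀ i, |v i| ≤ U := by
    intro i
    by_cases h : i < m
    · simp only [v, h, dif_pos]; exact hu _
    · simp only [v, h, dif_neg, not_false_eq_true, abs_zero]; exact hU.le
  refine ⟨nc v, Matrix.of fun j p => ∏ i ∈ range j, (u p - v i), ?_, fun n p => ?_,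
    abs_nc_le v U hv⟩
  · have h1 := Matrix.det_eval_matrixOfPolynomials_eq_det_vandermonde u
      (fun j : Fin m => ∏ i ∈ range j, (X - C (v i))) (fun j => by
        rw [natDegree_prod_of_monic _ _ fun i _ => monic_X_sub_C _]
        simp) (fun j => monic_prod_of_monic _ _ fun i _ => monic_X_sub_C _)
    have h2 := abs_vandermonde_le u U hU hu
    rw [h1, ← Matrix.det_transpose] at h2
    refine le_of_eq_of_le ?_ h2
    congr 2
    ext j p
    simp [eval_prod]
  · have hz : ∀ j, m ≤ j → ∏ i ∈ range j, (u p - v i) = 0 := by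
      intro j hj
      refine prod_eq_zero (i := p) (mem_range.mpr (by have := p.2; omega)) ?_
      simp [v]
    simp only [Matrix.of_apply]
    rw [Fin.sum_univ_eq_sum_range (fun j => nc v n j * ∏ i ∈ range j, (u p - v i)) m,
      pow_eq_sum_nc v]
    rw [sum_subset (s₂ := range (n + 1 + m)) (range_subset_range.mpr (by omega)),
      sum_subset (s₁ := range m) (s₂ := range (n + 1 + m)) (range_subset_range.mpr (by omega))]
    · intro j _ hj
      rw [hz j (by simpa using hj), mul_zero]
    · intro j _ hj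
      rw [nc_eq_zero v n j (by simp at hj; omega), zero_mul]

end Pool.Agent.Lib.MP_93b520_nt
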