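import Mathlib
import Pool.Agent.Lib.MP_93b520_nt.Poly

/-!
Vandermonde determinants of shifted integer nodes.
-/

set_option autoImplicit false

namespace Pool.Agent.Lib.MP_93b520_nt

open Finset Polynomial

theorem sf_eq_prod (n : ℕ) : sf n = ∏ k : Fin n, ((k : ℕ).factorial : ℝ) := by
  rw [sf, Fin.prod_univ_eq_prod_range (fun k => (k.factorial : ℝ)) n]

theorem vand_eq {n : ℕ} (x : Fin n → ℕ) :
    (Matrix.vandermonde fun i => (x i : ℝ)).det =
      sf n * (Matrix.of fun k c : Fin n => ((x c).choose k : ℝ)).det := by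
  rw [Matrix.det_eval_matrixOfPolynomials_eq_det_vandermonde _ (fun j => descPochhammer ℝ j)
    (fun j => descPochhammer_natDegree ℝ j) (fun j => monic_descPochhammer ℝ j), sf_eq_prod,
    ← Matrix.det_transpose (Matrix.of fun k c : Fin n => ((x c).choose k : ℝ)),
    ← Matrix.det_mul_row]
  congr 1
  ext i j
  simp [descPochhammer_eval_eq_descFactorial, Nat.descFactorial_eq_factorial_mul_choose]

theorem choose_mul_pow_le (x k : ℕ) (ρ : ℝ) (hρ : 0 ≤ ρ) :
    (x.choose k : ℝ) * ρ ^ k ≤ (1 + ρ) ^ x := by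
  by_cases h : k ≤ x
  · rw [add_comm, add_pow]
    have := single_le_sum (f := fun m => ρ ^ m * 1 ^ (x - m) * (x.choose m : ℝ))
      (s := range (x + 1)) (fun m _ => by positivity) (mem_range.mpr (Nat.lt_succ_of_le h))
    simpa [mul_comm] using this
  · rw [Nat.choose_eq_zero_of_lt (by omega)]
    simp only [Nat.cast_zero, zero_mul]
    positivity

theorem abs_vand_nat_le {n : ℕ} (a : Fin n → ℕ) (ρ : ℝ) (hρ : 0 < ρ) :
    |(Matrix.vandermonde fun i : Fin n => (((i : ℕ) + a i : ℕ) : ℝ)).det| ≤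
      sf n * n.factorial * ((1 + ρ) / ρ) ^ (∑ k ∈ range n, k) * ∏ i, (1 + ρ) ^ a i := by
  rw [vand_eq, abs_mul, abs_of_pos (sf_pos n), mul_assoc, mul_assoc]
  refine mul_le_mul_of_nonneg_left ?_ (sf_pos n).le
  refine (abs_det_le_rc _ (fun k : Fin n => (1 / ρ) ^ (k : ℕ))
    (fun c : Fin n => (1 + ρ) ^ ((c : ℕ) + a c)) fun k c => ?_).trans (le_of_eq ?_)
  · rw [Matrix.of_apply, abs_of_nonneg (by positivity), one_div, inv_pow, ← div_eq_inv_mul,
      le_div_iff₀ (by positivity)]
    exact choose_mul_pow_le _ _ _ hρ.le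
  · rw [Fintype.card_fin]
    simp only [pow_add, prod_mul_distrib, prod_pow_eq_pow_sum]
    rw [Fin.sum_univ_eq_sum_range (fun k => k) n, div_pow, div_pow, one_pow]
    field_simp

theorem vand_add {e d : ℕ} (x : Fin (e + d) → ℝ) :
    (Matrix.vandermonde x).det = (Matrix.vandermonde fun i => x (Fin.castAdd d i)).det *
      (Matrix.vandermonde fun j => x (Fin.natAdd e j)).det *
      ∏ i, ∏ j, (x (Fin.natAdd e j) - x (Fin.castAdd d i)) := by
  have h : ∀ (n : ℕ) (y : Fin n → ℝ), (Matrix.vandermonde y).det =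
      ∏ i, ∏ j, if i < j then y j - y i else 1 := by
    intro n y
    rw [Matrix.det_vandermonde]
    refine prod_congr rfl fun i _ => ?_
    rw [← prod_filter]
    congr 1
    ext j
    simp
  rw [h, h, h, Fin.prod_univ_add]
  simp only [Fin.prod_univ_add]
  have h1 : ∀ (i : Fin e) (j : Fin d), Fin.castAdd d i < Fin.natAdd e j := by
    intro i j
    rw [Fin.lt_def]
    have := i.2
    simp only [Fin.val_castAdd, Fin.val_natAdd]
    omega
  have h2 : ∀ (i : Fin e) (j : Fin d), ¬Fin.natAdd e j < Fin.castAdd d i :=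
    fun i j => not_lt.mpr (h1 i j).le
  have h3 : ∀ i j : Fin e, Fin.castAdd d i < Fin.castAdd d j ↔ i < j := by
    intro i j
    simp only [Fin.lt_def, Fin.val_castAdd]
  have h4 : ∀ i j : Fin d, Fin.natAdd e i < Fin.natAdd e j ↔ i < j := by
    intro i j
    simp only [Fin.lt_def, Fin.val_natAdd, Nat.add_lt_add_iff_left]
  simp only [h1, h2, h3, h4, if_true, if_false, prod_const_one, one_mul, prod_mul_distrib]
  ring

theorem abs_sub_le_bern (D : ℝ) (hD : 0 < D) (a b : ℕ) :
    |(b : ℝ) - (D + a)| ≤ D * ((1 + 1 / D) ^ a * (1 + 1 / D) ^ b) := by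
  have h1 := one_add_mul_le_pow (show (-2 : ℝ) ≤ 1 / D by
    have : 0 < 1 / D := by positivity
    linarith) (a + b)
  rw [← pow_add]
  have h2 : D * (1 + ((a + b : ℕ) : ℝ) * (1 / D)) = D + a + b := by
    push_cast
    field_simp
    ring
  have h3 := mul_le_mul_of_nonneg_left h1 hD.le
  rw [h2] at h3
  refine le_trans ?_ h3
  have ha : (0 : ℝ) ≤ a := by positivity
  have hb : (0 : ℝ) ≤ b := by positivity
  rw [abs_le]
  constructor <;> linarith

theorem prod_tel_down (N : ℝ) (d : ℕ) (h : (d : ℝ) ≤ N) :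
    ∏ j ∈ range d, (1 + 1 / (N - j)) = (N + 1) / (N + 1 - d) := by
  induction d with
  | zero =>
    have : N + 1 ≠ 0 := by simp at h; linarith
    simp [this]
  | succ d ih =>
    push_cast at h ⊢
    rw [prod_range_succ, ih (by linarith)]
    have h1 : N - d ≠ 0 := by linarith
    have h2 : N + 1 - d ≠ 0 := by linarith
    have h3 : N + 1 - (d + 1) = N - d := by ring
    rw [h3]
    field_simp
    ring

theorem prod_tel_up (M : ℝ) (hM : 0 < M) (e : ℕ) :
    ∏ i ∈ range e, (1 + 1 / (M + i)) = (M + e) / M := by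
  induction e with
  | zero => simp [hM.ne']
  | succ e ih =>
    rw [prod_range_succ, ih]
    push_cast
    field_simp
    ring

theorem prod_sub_eq (f d : ℕ) :
    ∏ j ∈ range d, (((f + d : ℕ) : ℝ) - j) = ((f + d).factorial : ℝ) / f.factorial := by
  induction d with
  | zero =>
    have : (f.factorial : ℝ) ≠ 0 := by positivity
    simp [this]
  | succ d ih =>
    rw [prod_range_succ', ← add_assoc, Nat.factorial_succ]
    have : ∏ j ∈ range d, (((f + d + 1 : ℕ) : ℝ) - ((j + 1 : ℕ) : ℝ)) =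
        ∏ j ∈ range d, (((f + d : ℕ) : ℝ) - j) := by
      refine prod_congr rfl fun j _ => ?_
      push_cast
      ring
    rw [this, ih]
    push_cast
    ring

/-- The base nodes `K, ..., K + e - 1, 0, ..., d - 1`. -/
def nn (e d : ℕ) (c : Fin (e + d)) : ℕ := if (c : ℕ) < e then e + d + c else c - e

/-- The growth factors attached to the nodes. -/
noncomputable def th (e d : ℕ) (c : Fin (e + d)) : ℝ :=
  if (c : ℕ) < e then ((e : ℝ) + d + 1) / (e + 1) else 2

theorem nn_castAdd (e d : ℕ) (i : Fin e) : nn e d (Fin.castAdd d i) = e + d + i := by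
  simp [nn]

theorem nn_natAdd (e d : ℕ) (j : Fin d) : nn e d (Fin.natAdd e j) = j := by
  simp [nn]

theorem th_castAdd (e d : ℕ) (i : Fin e) :
    th e d (Fin.castAdd d i) = ((e : ℝ) + d + 1) / (e + 1) := by
  simp [th]

theorem th_natAdd (e d : ℕ) (j : Fin d) : th e d (Fin.natAdd e j) = 2 := by
  simp [th]

theorem cross_le (e d : ℕ) (a : Fin e → ℕ) (b : Fin d → ℕ) :
    ∏ i : Fin e, ∏ j : Fin d, |(((j : ℕ) + b j : ℕ) : ℝ) - ((e + d + i + a i : ℕ) : ℝ)| ≤
      (∏ i : Fin e, ((e + d + i).factorial : ℝ) / (e + i).factorial) *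
        ((∏ i : Fin e, (((e : ℝ) + d + 1) / (e + 1)) ^ a i) * ∏ j : Fin d, (2 : ℝ) ^ b j) := by
  let D : Fin e → Fin d → ℝ := fun i j => (e : ℝ) + d + i - j
  have hD : ∀ i j, 0 < D i j := by
    intro i j
    have h1 : ((j : ℕ) : ℝ) < d := by exact_mod_cast j.2
    have h2 : (0 : ℝ) ≤ (i : ℕ) := by positivity
    have h3 : (0 : ℝ) ≤ e := by positivity
    simp only [D]
    linarith
  have h1 : ∏ i : Fin e, ∏ j : Fin d,
      |(((j : ℕ) + b j : ℕ) : ℝ) - ((e + d + i + a i : ℕ) : ℝ)| ≤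
      ∏ i, ∏ j, D i j * ((1 + 1 / D i j) ^ a i * (1 + 1 / D i j) ^ b j) := by
    refine prod_le_prod (fun i _ => prod_nonneg fun j _ => abs_nonneg _) fun i _ => ?_
    refine prod_le_prod (fun j _ => abs_nonneg _) fun j _ => ?_
    refine le_of_eq_of_le ?_ (abs_sub_le_bern (D i j) (hD i j) (a i) (b j))
    congr 1
    simp only [D]
    push_cast
    ring
  refine h1.trans ?_
  simp only [prod_mul_distrib]
  have h2 : ∏ i, ∏ j, D i j = ∏ i : Fin e, ((e + d + i).factorial : ℝ) / (e + i).factorial := by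
    refine prod_congr rfl fun i _ => ?_
    have := prod_sub_eq (e + i) d
    rw [show e + i + d = e + d + i by ring] at this
    rw [← this, ← Fin.prod_univ_eq_prod_range (fun j => ((e + d + i : ℕ) : ℝ) - j) d]
    refine prod_congr rfl fun j _ => ?_
    simp [D]
  have hpos : ∀ i j, 0 ≤ 1 + 1 / D i j := fun i j => by have := hD i j; positivity
  rw [h2]
  refine mul_le_mul_of_nonneg_left (mul_le_mul ?_ ?_ ?_ ?_) ?_
  · refine prod_le_prod (fun i _ => prod_nonneg fun j _ => pow_nonneg (hpos i j) _) fun i _ => ?_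
    rw [prod_pow]
    refine pow_le_pow_left₀ (prod_nonneg fun j _ => hpos i j) ?_ _
    have hi : (0 : ℝ) ≤ (i : ℕ) := by positivity
    have he : (0 : ℝ) ≤ e := by positivity
    have hd : (0 : ℝ) ≤ d := by positivity
    have := prod_tel_down ((e : ℝ) + d + i) d (by linarith)
    rw [← Fin.prod_univ_eq_prod_range (fun j => 1 + 1 / ((e : ℝ) + d + i - j)) d] at this
    simp only [D]
    rw [this, div_le_div_iff₀ (by linarith) (by linarith)]
    nlinarith [mul_nonneg hi hd]
  · rw [prod_comm]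
    refine prod_le_prod (fun j _ => prod_nonneg fun i _ => pow_nonneg (hpos i j) _) fun j _ => ?_
    rw [prod_pow]
    refine pow_le_pow_left₀ (prod_nonneg fun i _ => hpos i j) ?_ _
    have hj : ((j : ℕ) : ℝ) < d := by exact_mod_cast j.2
    have he : (0 : ℝ) ≤ e := by positivity
    have := prod_tel_up ((e : ℝ) + d - j) (by linarith) e
    rw [← Fin.prod_univ_eq_prod_range (fun i => 1 + 1 / ((e : ℝ) + d - j + i)) e] at this
    have h3 : ∏ i : Fin e, (1 + 1 / D i j) = ∏ i : Fin e, (1 + 1 / ((e : ℝ) + d - j + i)) := by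
      refine prod_congr rfl fun i _ => ?_
      simp only [D]
      ring_nf
    rw [h3, this, div_le_iff₀ (by linarith)]
    linarith
  · exact prod_nonneg fun i _ => prod_nonneg fun j _ => pow_nonneg (hpos i j) _
  · positivity
  · positivity

/-- The constant in the bound for the shifted determinant. -/
noncomputable def cst (e d : ℕ) (ρ : ℝ) : ℝ :=
  (sf e * e.factorial * ((1 + ρ) / ρ) ^ (∑ k ∈ range e, k)) *
    (sf d * d.factorial * ((1 + ρ) / ρ) ^ (∑ k ∈ range d, k)) *
    (∏ i : Fin e, ((e + d + i).factorial : ℝ) / (e + i).factorial) / sf (e + d)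

theorem shifted_le (e d : ℕ) (ρ : ℝ) (hρ : 0 < ρ) (a : Fin (e + d) → ℕ) :
    |(Matrix.of fun k c : Fin (e + d) => ((nn e d c + a c).choose k : ℝ)).det| ≤
      cst e d ρ * ∏ c, ((1 + ρ) * th e d c) ^ a c := by
  have h0 := vand_eq (fun c => nn e d c + a c)
  have hs := sf_pos (e + d)
  rw [cst, div_mul_eq_mul_div, le_div_iff₀ hs, mul_comm, ← abs_of_pos hs, ← abs_mul, ← h0,
    vand_add, abs_mul, abs_mul, Finset.abs_prod]
  simp only [Finset.abs_prod, nn_castAdd, nn_natAdd]
  have h1 : (Matrix.vandermonde fun i : Fin e =>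
      ((e + d + i + a (Fin.castAdd d i) : ℕ) : ℝ)).det =
      (Matrix.vandermonde fun i : Fin e => (((i : ℕ) + a (Fin.castAdd d i) : ℕ) : ℝ)).det := by
    rw [← Matrix.det_vandermonde_add
      (fun i : Fin e => (((i : ℕ) + a (Fin.castAdd d i) : ℕ) : ℝ)) ((e : ℝ) + d)]
    congr 2
    funext i
    push_cast
    ring
  rw [h1]
  have h2 := abs_vand_nat_le (fun i => a (Fin.castAdd d i)) ρ hρ
  have h3 := abs_vand_nat_le (fun j => a (Fin.natAdd e j)) ρ hρ
  have h4 := cross_le e d (fun i => a (Fin.castAdd d i)) (fun j => a (Fin.natAdd e j))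
  have := sf_pos e
  have := sf_pos d
  refine (mul_le_mul (mul_le_mul h2 h3 (abs_nonneg _) (by positivity)) h4
    (prod_nonneg fun i _ => prod_nonneg fun j _ => abs_nonneg _) (by positivity)).trans
    (le_of_eq ?_)
  rw [Fin.prod_univ_add]
  simp only [th_castAdd, th_natAdd, mul_pow, prod_mul_distrib]
  ring

theorem sum_th_le (e d : ℕ) : ∑ c, th e d c ≤ (e : ℝ) + d + 1 + 2 * d := by
  rw [Fin.sum_univ_add]
  simp only [th_castAdd, th_natAdd, sum_const, card_univ, Fintype.card_fin, nsmul_eq_mul]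
  have h : (e : ℝ) * (((e : ℝ) + d + 1) / (e + 1)) ≤ e + d + 1 := by
    rw [← mul_div_assoc, div_le_iff₀ (by positivity)]
    have : (0 : ℝ) ≤ (e : ℝ) + d + 1 := by positivity
    nlinarith
  linarith

theorem th_nonneg (e d : ℕ) (c : Fin (e + d)) : 0 ≤ th e d c := by
  unfold th
  split_ifs <;> positivity

end Pool.Agent.Lib.MP_93b520_nt
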