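import Mathlib
import Pool.Agent.Lib.MP_93b520_nt.Shift

/-!
The analytic estimate for one term of the perturbation expansion.
-/

set_option autoImplicit false

namespace Pool.Agent.Lib.MP_93b520_nt

open Finset

theorem sum_shift_le_exp (x : ℝ) (hx : 0 ≤ x) (a M : ℕ) :
    ∑ n ∈ range M, (if a ≤ n then x ^ (n - a) / (n - a).factorial else 0) ≤ Real.exp x := by
  refine le_trans ?_ (Real.sum_le_exp_of_nonneg hx M)
  calc ∑ n ∈ range M, (if a ≤ n then x ^ (n - a) / (n - a).factorial else 0)
      ≤ ∑ n ∈ range (a + M), (if a ≤ n then x ^ (n - a) / (n - a).factorial else 0) := by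
        refine sum_le_sum_of_subset_of_nonneg (range_subset_range.mpr (by omega)) fun n _ _ => ?_
        split_ifs <;> positivity
    _ = ∑ i ∈ range M, x ^ i / i.factorial := by
        rw [sum_range_add, sum_eq_zero, zero_add]
        · refine sum_congr rfl fun i _ => ?_
          simp
        · intro n hn
          rw [if_neg (by simpa using hn)]

theorem cst_nonneg (e d : ℕ) (ρ : ℝ) (hρ : 0 < ρ) : 0 ≤ cst e d ρ := by
  have := sf_pos e
  have := sf_pos d
  have := sf_pos (e + d)
  unfold cst
  positivity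

theorem multi_le (e d : ℕ) (ρ : ℝ) (hρ : 0 < ρ) (ω : ℝ) (hω : 0 ≤ ω) (M : ℕ)
    (w : Fin (e + d) → ℕ → ℝ) (W : Fin (e + d) → ℝ) (hW : ∀ c, 0 ≤ W c)
    (hw : ∀ c n, |w c n| ≤ W c *
      (if nn e d c ≤ n then ω ^ (n - nn e d c) / (n - nn e d c).factorial else 0)) :
    |(Matrix.of fun k c : Fin (e + d) => ∑ n ∈ range M, w c n * (n.choose k : ℝ)).det| ≤
      cst e d ρ * (∏ c, W c) * Real.exp (ω * (1 + ρ) * ((e : ℝ) + d + 1 + 2 * d)) := by
  let g : Fin (e + d) → ℕ → Fin (e + d) → ℝ := fun c n =>
    w c n • fun k : Fin (e + d) => (n.choose k : ℝ)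
  have hM : (Matrix.of fun k c : Fin (e + d) =>
      ∑ n ∈ range M, w c n * (n.choose k : ℝ)).transpose =
      Matrix.of fun c => ∑ n ∈ range M, g c n := by
    ext c k
    simp [g]
  have hdet : (Matrix.of fun c => ∑ n ∈ range M, g c n).det =
      ∑ r ∈ Fintype.piFinset fun _ : Fin (e + d) => range M,
        (Matrix.of fun c => g c (r c)).det :=
    (Matrix.detRowAlternating (n := Fin (e + d)) (R := ℝ)).toMultilinearMap.map_sum_finset g
      (fun _ => range M)
  rw [← Matrix.det_transpose, hM, hdet]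
  refine (abs_sum_le_sum_abs _ _).trans ?_
  let h : Fin (e + d) → ℕ → ℝ := fun c n => W c * (if nn e d c ≤ n then
    (ω * ((1 + ρ) * th e d c)) ^ (n - nn e d c) / (n - nn e d c).factorial else 0)
  have hc := cst_nonneg e d ρ hρ
  have hth : ∀ c, 0 ≤ (1 + ρ) * th e d c := fun c => mul_nonneg (by positivity) (th_nonneg e d c)
  have hh : ∀ c n, 0 ≤ h c n := by
    intro c n
    have := hth c
    have := hW c
    simp only [h]
    split_ifs <;> positivity
  have key : ∀ r : Fin (e + d) → ℕ,
      |(Matrix.of fun c => g c (r c)).det| ≤ cst e d ρ * ∏ c, h c (r c) := by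
    intro r
    have h2 : (Matrix.of fun c => g c (r c)).det = (∏ c, w c (r c)) •
        (Matrix.of fun (c k : Fin (e + d)) => ((r c).choose k : ℝ)).det :=
      (Matrix.detRowAlternating (n := Fin (e + d)) (R := ℝ)).toMultilinearMap.map_smul_univ
        (fun c => w c (r c)) (fun (c k : Fin (e + d)) => ((r c).choose k : ℝ))
    rw [h2, smul_eq_mul, abs_mul, Finset.abs_prod]
    by_cases hr : ∀ c, nn e d c ≤ r c
    · have h3 := shifted_le e d ρ hρ (fun c => r c - nn e d c)
      have h4 : (Matrix.of fun (c k : Fin (e + d)) => ((r c).choose k : ℝ)) =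
          (Matrix.of fun k c : Fin (e + d) =>
            ((nn e d c + (r c - nn e d c)).choose k : ℝ)).transpose := by
        ext c k
        simp [Nat.add_sub_cancel' (hr c)]
      rw [h4, Matrix.det_transpose]
      refine (mul_le_mul (prod_le_prod (fun c _ => abs_nonneg _) fun c _ => hw c (r c)) h3
        (abs_nonneg _) (prod_nonneg fun c _ => (abs_nonneg _).trans (hw c (r c)))).trans
        (le_of_eq ?_)
      rw [mul_left_comm, ← prod_mul_distrib]
      congr 1
      refine prod_congr rfl fun c _ => ?_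
      simp only [h, hr c, if_true, mul_pow]
      ring
    · obtain ⟨c, hcr⟩ := not_forall.mp hr
      have h3 := hw c (r c)
      rw [if_neg hcr, mul_zero] at h3
      rw [prod_eq_zero (mem_univ c) (le_antisymm h3 (abs_nonneg _)), zero_mul]
      exact mul_nonneg hc (prod_nonneg fun c _ => hh c _)
  refine (sum_le_sum fun r _ => key r).trans ?_
  rw [← mul_sum, ← prod_univ_sum, mul_assoc]
  refine mul_le_mul_of_nonneg_left ?_ hc
  calc ∏ c, ∑ n ∈ range M, h c n ≤ ∏ c, W c * Real.exp (ω * ((1 + ρ) * th e d c)) := by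
        refine prod_le_prod (fun c _ => sum_nonneg fun n _ => hh c n) fun c _ => ?_
        simp only [h]
        rw [← mul_sum]
        exact mul_le_mul_of_nonneg_left (sum_shift_le_exp _ (mul_nonneg hω (hth c)) _ _) (hW c)
    _ = (∏ c, W c) * Real.exp (ω * (1 + ρ) * ∑ c, th e d c) := by
        rw [prod_mul_distrib, ← Real.exp_sum, mul_sum]
        congr 2
        exact sum_congr rfl fun c _ => by ring
    _ ≤ _ := by
        refine mul_le_mul_of_nonneg_left (Real.exp_le_exp.mpr ?_) (prod_nonneg fun c _ => hW c)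
        exact mul_le_mul_of_nonneg_left (sum_th_le e d) (by positivity)

/-- The truncated series of `τ ^ k * x ^ k * exp (τ x) / k!`. -/
noncomputable def trunc (τ : ℝ) (M k : ℕ) (x : ℝ) : ℝ :=
  ∑ n ∈ range M, τ ^ n / n.factorial * (n.choose k : ℝ) * x ^ n

/-- The structured bijection between the rows and the two groups of columns. -/
def phi (e d : ℕ) : Fin (e + d) ⊕ Fin (e + d) ≃ Fin (e + d + e) ⊕ Fin d :=
  (Equiv.sumCongr (Equiv.refl _) finSumFinEquiv.symm).trans
    ((Equiv.sumAssoc _ _ _).symm.trans (Equiv.sumCongr finSumFinEquiv (Equiv.refl _)))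

theorem phi_inl (e d : ℕ) (k : Fin (e + d)) :
    phi e d (Sum.inl k) = Sum.inl (Fin.castAdd e k) := by
  simp [phi]

theorem phi_castAdd (e d : ℕ) (i : Fin e) :
    phi e d (Sum.inr (Fin.castAdd d i)) = Sum.inl (Fin.natAdd (e + d) i) := by
  simp [phi]

theorem phi_natAdd (e d : ℕ) (j : Fin d) :
    phi e d (Sum.inr (Fin.natAdd e j)) = Sum.inr j := by
  simp [phi]

/-- The matrix of one term of the perturbation expansion. -/
noncomputable def pieceM (e d : ℕ) (τ : ℝ) (M : ℕ) (u : Fin (e + d + e) ⊕ Fin d → ℝ) :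
    Matrix (Fin (e + d) ⊕ Fin (e + d)) (Fin (e + d + e) ⊕ Fin d) ℝ :=
  Matrix.of fun r p => Sum.elim (fun k : Fin (e + d) =>
    Sum.elim (fun p' => u (Sum.inl p') ^ (k : ℕ)) (fun _ => 0) p)
    (fun k : Fin (e + d) => trunc τ M k (u p)) r

theorem piece_le (e d : ℕ) (ρ : ℝ) (hρ : 0 < ρ) (τ U : ℝ) (hU : 0 < U) (M : ℕ)
    (u : Fin (e + d + e) ⊕ Fin d → ℝ) (hu : ∀ p, |u p| ≤ U) :
    |((pieceM e d τ M u).submatrix id (phi e d)).det| ≤
      (cst e d ρ * (∏ c, |τ| ^ nn e d c / (nn e d c).factorial) *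
        Real.exp (|τ| * U * (1 + ρ) * ((e : ℝ) + d + 1 + 2 * d))) *
      (((e + d + e).factorial * (2 ^ (e + d + e) * (U / 2) ^ (∑ k ∈ range (e + d + e), k))) *
        (d.factorial * (2 ^ d * (U / 2) ^ (∑ k ∈ range d, k)))) := by
  obtain ⟨cI, QI, hQI, hI, hcI⟩ := exists_newton (fun p => u (Sum.inl p)) U hU fun p => hu _
  obtain ⟨cJ, QJ, hQJ, hJ, hcJ⟩ := exists_newton (fun p => u (Sum.inr p)) U hU fun p => hu _
  let A' : Matrix (Fin (e + d) ⊕ Fin (e + d)) (Fin (e + d + e) ⊕ Fin d) ℝ :=
    Matrix.of fun r p => Sum.elim (fun k : Fin (e + d) =>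
      Sum.elim (fun j : Fin (e + d + e) => cI k j) (fun _ => 0) p)
      (fun k : Fin (e + d) => Sum.elim
        (fun j : Fin (e + d + e) => ∑ n ∈ range M, τ ^ n / n.factorial * cI n j * (n.choose k : ℝ))
        (fun j : Fin d => ∑ n ∈ range M, τ ^ n / n.factorial * cJ n j * (n.choose k : ℝ)) p) r
  have hA : pieceM e d τ M u = A' * Matrix.fromBlocks QI 0 0 QJ := by
    ext r p
    rw [Matrix.mul_apply, Fintype.sum_sum_type]
    rcases r with k | k <;> rcases p with p | p
    · simp [pieceM, A', hI]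
    · simp [pieceM, A']
    · simp only [pieceM, A', Matrix.of_apply, Sum.elim_inr, Sum.elim_inl, trunc, hI,
        Matrix.fromBlocks_apply₁₁, Matrix.fromBlocks_apply₂₁, Matrix.zero_apply, mul_zero,
        sum_const_zero, add_zero, sum_mul, mul_sum]
      rw [sum_comm]
      exact sum_congr rfl fun j _ => sum_congr rfl fun n _ => by ring
    · simp only [pieceM, A', Matrix.of_apply, Sum.elim_inr, Sum.elim_inl, trunc, hJ,
        Matrix.fromBlocks_apply₁₂, Matrix.fromBlocks_apply₂₂, Matrix.zero_apply, mul_zero,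
        sum_const_zero, zero_add, sum_mul, mul_sum]
      rw [sum_comm]
      exact sum_congr rfl fun j _ => sum_congr rfl fun n _ => by ring
  let w : Fin (e + d) → ℕ → ℝ := fun c n =>
    τ ^ n / n.factorial * (if (c : ℕ) < e then cI else cJ) n (nn e d c)
  let L : Matrix (Fin (e + d)) (Fin (e + d)) ℝ := Matrix.of fun k j => cI k j
  have hz : ∀ n j, n < j → cI n j = 0 := by
    intro n j h
    have := hcI n j
    rw [Nat.choose_eq_zero_of_lt h, Nat.cast_zero, zero_mul] at this
    exact abs_nonpos_iff.mp this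
  have hB : A'.submatrix id (phi e d) = Matrix.fromBlocks L 0
      (Matrix.of fun k j => A' (Sum.inr k) (phi e d (Sum.inl j)))
      (Matrix.of fun k c : Fin (e + d) => ∑ n ∈ range M, w c n * (n.choose k : ℝ)) := by
    ext r p
    rcases r with k | k <;> rcases p with p | p
    · simp [A', L, phi_inl]
    · induction p using Fin.addCases with
      | left i =>
        simp only [A', Matrix.submatrix_apply, id, phi_castAdd, Matrix.of_apply, Sum.elim_inl,
          Matrix.fromBlocks_apply₁₂, Matrix.zero_apply]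
        exact hz _ _ (by have := k.2; simp only [Fin.val_natAdd]; omega)
      | right j => simp [A', phi_natAdd]
    · simp
    · induction p using Fin.addCases with
      | left i => simp [A', phi_castAdd, w, nn_castAdd]
      | right j => simp [A', phi_natAdd, w, nn_natAdd]
  have hL : |L.det| ≤ 1 := by
    rw [Matrix.det_of_isLowerTriangular, Finset.abs_prod]
    · refine prod_le_one (fun k _ => abs_nonneg _) fun k _ => ?_
      simpa [L] using hcI k k
    · intro i j hij
      exact hz _ _ hij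
  have hw : ∀ c n, |w c n| ≤ |τ| ^ nn e d c / (nn e d c).factorial * (if nn e d c ≤ n then
      (|τ| * U) ^ (n - nn e d c) / (n - nn e d c).factorial else 0) := by
    intro c n
    have h1 : |(if (c : ℕ) < e then cI else cJ) n (nn e d c)| ≤
        (n.choose (nn e d c) : ℝ) * U ^ (n - nn e d c) := by
      split_ifs
      · exact hcI _ _
      · exact hcJ _ _
    simp only [w]
    rw [abs_mul, abs_div, abs_pow, Nat.abs_cast]
    refine (mul_le_mul_of_nonneg_left h1 (by positivity)).trans (le_of_eq ?_)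
    split_ifs with h
    · obtain ⟨a, rfl⟩ := Nat.exists_eq_add_of_le h
      rw [Nat.add_sub_cancel_left, Nat.cast_choose ℝ h, Nat.add_sub_cancel_left, pow_add, mul_pow]
      field_simp
    · rw [Nat.choose_eq_zero_of_lt (by omega)]
      simp
  have hD := multi_le e d ρ hρ (|τ| * U) (by positivity) M w _ (fun c => by positivity) hw
  rw [hA, ← Matrix.submatrix_mul_equiv _ _ _ (phi e d), Matrix.det_mul, Matrix.det_submatrix_equiv_self,
    Matrix.det_fromBlocks_zero₁₂, hB, Matrix.det_fromBlocks_zero₁₂, abs_mul, abs_mul, abs_mul]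
  refine mul_le_mul ?_ (mul_le_mul hQI hQJ (abs_nonneg _) (by positivity)) (by positivity)
    ((abs_nonneg _).trans hD)
  calc _ ≤ 1 * _ := mul_le_mul hL hD (abs_nonneg _) zero_le_one
    _ = _ := one_mul _

end Pool.Agent.Lib.MP_93b520_nt
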