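import Mathlib
import Pool.Agent.Lib.MP_93b520_nt.Piece

/-!
The analytic upper bound for the interpolation determinant with two blocks of rows.
-/

set_option autoImplicit false

namespace Pool.Agent.Lib.MP_93b520_nt

open Finset Filter

theorem trunc_tendsto (τ x : ℝ) (k : ℕ) :
    Tendsto (fun M => trunc τ M k x) atTop
      (nhds (τ ^ k * (x ^ k / k.factorial * Real.exp (τ * x)))) := by
  have h0 : HasSum (fun n : ℕ => (τ * x) ^ n / n.factorial) (Real.exp (τ * x)) := by
    rw [Real.exp_eq_exp_ℝ]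
    exact NormedSpace.expSeries_div_hasSum_exp (τ * x)
  have h1 := h0.mul_left (τ ^ k * (x ^ k / k.factorial))
  refine HasSum.tendsto_sum_nat (f := fun n => τ ^ n / n.factorial * (n.choose k : ℝ) * x ^ n) ?_
  rw [← hasSum_nat_add_iff' k, sum_eq_zero, sub_zero, ← mul_assoc]
  · have h2 : (fun n : ℕ => τ ^ (n + k) / (n + k).factorial * ((n + k).choose k : ℝ) *
        x ^ (n + k)) = fun n : ℕ => τ ^ k * (x ^ k / k.factorial) * ((τ * x) ^ n / n.factorial) := by
      funext n
      rw [Nat.cast_choose ℝ (Nat.le_add_left k n), Nat.add_sub_cancel, pow_add, pow_add, mul_pow]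
      field_simp
    rw [h2]
    exact h1
  · intro i hi
    rw [Nat.choose_eq_zero_of_lt (mem_range.mp hi)]
    simp

/-- The limit matrix of one term of the perturbation expansion. -/
noncomputable def limM (e d : ℕ) (τ : ℝ) (u : Fin (e + d + e) ⊕ Fin d → ℝ) :
    Matrix (Fin (e + d) ⊕ Fin (e + d)) (Fin (e + d + e) ⊕ Fin d) ℝ :=
  Matrix.of fun r p => Sum.elim (fun k : Fin (e + d) =>
    Sum.elim (fun p' => u (Sum.inl p') ^ (k : ℕ) / (k : ℕ).factorial) (fun _ => 0) p)
    (fun k : Fin (e + d) => u p ^ (k : ℕ) / (k : ℕ).factorial * Real.exp (τ * u p)) r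

theorem lim_le (e d : ℕ) (τ : ℝ) (u : Fin (e + d + e) ⊕ Fin d → ℝ) (B : ℝ)
    (hB : ∀ M, |((pieceM e d τ M u).submatrix id (phi e d)).det| ≤ B) :
    sf (e + d) * |τ| ^ (∑ k ∈ range (e + d), k) *
      |((limM e d τ u).submatrix id (phi e d)).det| ≤ B := by
  let v : Fin (e + d) ⊕ Fin (e + d) → ℝ :=
    Sum.elim (fun k => ((k : ℕ).factorial : ℝ)) (fun k => τ ^ (k : ℕ))
  have h1 : Tendsto (fun M => (pieceM e d τ M u).submatrix id (phi e d)) atTop
      (nhds (Matrix.of fun r p => v r * (limM e d τ u).submatrix id (phi e d) r p)) := by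
    refine tendsto_pi_nhds.mpr fun r => tendsto_pi_nhds.mpr fun p => ?_
    rcases r with k | k
    · simp only [pieceM, limM, v, Matrix.submatrix_apply, id, Matrix.of_apply, Sum.elim_inl]
      refine tendsto_const_nhds.congr fun _ => ?_
      rcases phi e d p with p' | p'
      · simp only [Sum.elim_inl]
        field_simp
      · simp
    · simp only [pieceM, limM, v, Matrix.submatrix_apply, id, Matrix.of_apply, Sum.elim_inr]
      exact trunc_tendsto τ _ k
  have h2 := ((continuous_id.matrix_det.tendsto _).comp h1).abs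
  have h3 := le_of_tendsto' h2 hB
  simp only [id] at h3
  rw [Matrix.det_mul_column, abs_mul, Fintype.prod_sum_type] at h3
  simp only [v, Sum.elim_inl, Sum.elim_inr] at h3
  rw [← sf_eq_prod, prod_pow_eq_pow_sum, Fin.sum_univ_eq_sum_range (fun k => k), abs_mul,
    abs_of_pos (sf_pos _), abs_pow] at h3
  exact h3

theorem cst_mul_eq (e d : ℕ) (ρ t : ℝ) :
    cst e d ρ * ∏ c, t ^ nn e d c / (nn e d c).factorial =
      sf e ^ 2 * e.factorial * d.factorial *
        ((1 + ρ) / ρ) ^ (∑ k ∈ range e, k + ∑ k ∈ range d, k) *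
        (t ^ (∑ k ∈ range (e + d), k) * t ^ (e ^ 2)) / (sf (2 * e) * sf (e + d)) := by
  have h1 : sf (2 * e) = sf e * ∏ i : Fin e, ((e + i).factorial : ℝ) := by
    rw [two_mul, sf, prod_range_add, Fin.prod_univ_eq_prod_range (fun i => ((e + i).factorial : ℝ))]
    rfl
  have h2 : ∑ k ∈ range (e + d), k + e ^ 2 =
      ∑ i : Fin e, (e + d + (i : ℕ)) + ∑ j : Fin d, (j : ℕ) := by
    rw [Fin.sum_univ_eq_sum_range (fun i => e + d + i), Fin.sum_univ_eq_sum_range (fun i => i),
      sum_range_add, sum_add_distrib, sum_add_distrib]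
    simp only [sum_const, card_range, smul_eq_mul]
    ring
  rw [← pow_add t, h2, h1, cst, Fin.prod_univ_add]
  simp only [nn_castAdd, nn_natAdd, prod_div_distrib, prod_pow_eq_pow_sum]
  rw [← sf_eq_prod d, pow_add, pow_add]
  have := sf_pos e
  have := sf_pos d
  have := sf_pos (e + d)
  have : 0 < ∏ i : Fin e, ((e + i).factorial : ℝ) := by positivity
  have : 0 < ∏ i : Fin e, ((e + d + i).factorial : ℝ) := by positivity
  field_simp

/-- The logarithm of the bound for one term. -/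
noncomputable def FF (K e U ω s ρ : ℝ) : ℝ :=
  K ^ 2 * (Real.log (U / (2 * K)) + 3 / 2) +
    e ^ 2 * (Real.log (ω / 2) + 1 / 2 - Real.log 4 - Real.log s) + s * e +
    Real.log ((1 + ρ) / ρ) * (((K - e) ^ 2 + e ^ 2) / 2) + ω * (1 + ρ) * (3 * K + 1 - 2 * e) +
    K * (5 * Real.log K + 5)

theorem lim_le_exp (e d : ℕ) (hK : 1 ≤ e + d) (ρ : ℝ) (hρ : 0 < ρ) (τ U ω s : ℝ) (hτ : τ ≠ 0)
    (hU : 2 * ((e + d : ℕ) : ℝ) ≤ U) (hω : |τ| * U ≤ ω) (hs : 0 < s)
    (u : Fin (e + d + e) ⊕ Fin d → ℝ) (hu : ∀ p, |u p| ≤ U) :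
    |((limM e d τ u).submatrix id (phi e d)).det| ≤
      Real.exp (FF ((e + d : ℕ) : ℝ) e U ω s ρ) := by
  have hK' : (1 : ℝ) ≤ ((e + d : ℕ) : ℝ) := by exact_mod_cast hK
  have hU0 : 0 < U := by linarith
  have hτ0 : 0 < |τ| := abs_pos.mpr hτ
  have h1 := lim_le e d τ u _ fun M => piece_le e d ρ hρ τ U hU0 M u hu
  rw [cst_mul_eq] at h1
  have he := sf_pos e
  have h2e := sf_pos (2 * e)
  have hK0 := sf_pos (e + d)
  have h2 : |((limM e d τ u).submatrix id (phi e d)).det| ≤
      sf e ^ 2 * e.factorial * d.factorial *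
        ((1 + ρ) / ρ) ^ (∑ k ∈ range e, k + ∑ k ∈ range d, k) * |τ| ^ (e ^ 2) /
        (sf (2 * e) * sf (e + d) ^ 2) *
        Real.exp (|τ| * U * (1 + ρ) * ((e : ℝ) + d + 1 + 2 * d)) *
      (((e + d + e).factorial * (2 ^ (e + d + e) * (U / 2) ^ (∑ k ∈ range (e + d + e), k))) *
        (d.factorial * (2 ^ d * (U / 2) ^ (∑ k ∈ range d, k)))) := by
    refine le_of_mul_le_mul_left (h1.trans (le_of_eq ?_))
      (show 0 < sf (e + d) * |τ| ^ (∑ k ∈ range (e + d), k) by positivity)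
    field_simp
  refine h2.trans ?_
  rw [← Real.log_le_iff_le_exp (by positivity)]
  rw [Real.log_mul (by positivity) (by positivity), Real.log_mul (by positivity) (by positivity),
    Real.log_div (by positivity) (by positivity), Real.log_exp]
  repeat rw [Real.log_mul (by positivity) (by positivity)]
  simp only [Real.log_pow]
  push_cast
  simp only [sum_range_cast]
  have a1 := log_sf_ratio_le e (e + d) (by omega) hK s hs
  have a2 := log_cheb_prod_le (e + d) hK U hU
  have a3 := log_factorial_le_mul e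
  have a4 := log_factorial_le_mul d
  have a5 := log_factorial_le_mul (e + d + e)
  have he0 : (0 : ℝ) ≤ e := by positivity
  have hd0 : (0 : ℝ) ≤ d := by positivity
  unfold FF
  push_cast at *
  set K : ℝ := (e : ℝ) + d with hKdef
  have hlK : 0 ≤ Real.log K := Real.log_nonneg hK'
  have hlog : ∀ x : ℝ, 0 ≤ x → x ≤ K → x * Real.log x ≤ x * Real.log K := by
    intro x hx hxK
    rcases hx.eq_or_lt with h | h
    · rw [← h]; simp
    · exact mul_le_mul_of_nonneg_left (Real.log_le_log h hxK) hx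
  have b3 := hlog e he0 (by linarith)
  have b4 := hlog d hd0 (by linarith)
  have b5 : (K + e) * Real.log (K + e) ≤ (K + e) * (Real.log 2 + Real.log K) := by
    rw [← Real.log_mul (by norm_num) (by linarith)]
    exact mul_le_mul_of_nonneg_left (Real.log_le_log (by linarith) (by linarith)) (by linarith)
  have b6 : Real.log |τ| + Real.log (U / 2) ≤ Real.log (ω / 2) := by
    rw [← Real.log_mul hτ0.ne' (by positivity)]
    exact Real.log_le_log (by positivity) (by linarith)
  have b7 := mul_le_mul_of_nonneg_left b6 (sq_nonneg (e : ℝ))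
  have b8 : |τ| * U * (1 + ρ) * (K + 1 + 2 * d) ≤ ω * (1 + ρ) * (3 * K + 1 - 2 * e) := by
    rw [show 3 * K + 1 - 2 * e = K + 1 + 2 * d by rw [hKdef]; ring]
    gcongr
  have hlam : 0 ≤ Real.log ((1 + ρ) / ρ) :=
    Real.log_nonneg (by rw [le_div_iff₀ hρ]; linarith)
  have b9 : ((e : ℝ) * (e - 1) / 2 + d * (d - 1) / 2) * Real.log ((1 + ρ) / ρ) ≤
      Real.log ((1 + ρ) / ρ) * (((K - e) ^ 2 + e ^ 2) / 2) := by
    rw [mul_comm]
    refine mul_le_mul_of_nonneg_left ?_ hlam
    rw [hKdef]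
    nlinarith
  have hl2 := Real.log_two_lt_d9
  have b10 : (3 * K + e) * Real.log 2 ≤ 3 * K := by
    have : (3 * K + e) * Real.log 2 ≤ 4 * K * 0.7 :=
      mul_le_mul (by linarith) (by linarith) (Real.log_nonneg (by norm_num)) (by linarith)
    linarith
  rw [hKdef] at *
  linarith

/-- The rows of the two blocks. -/
def rowE (K : ℕ) : Fin K ⊕ Fin K ≃ Fin K × Fin 2 where
  toFun := Sum.elim (fun k => (k, 0)) (fun k => (k, 1))
  invFun := fun r => if r.2 = 0 then Sum.inl r.1 else Sum.inr r.1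
  left_inv := by rintro (k | k) <;> simp
  right_inv := by
    rintro ⟨k, l⟩
    fin_cases l <;> simp

theorem term_le (K : ℕ) (hK : 1 ≤ K) (ρ : ℝ) (hρ : 0 < ρ) (τ U ω s : ℝ) (hτ : τ ≠ 0)
    (hU : 2 * (K : ℝ) ≤ U) (hω : |τ| * U ≤ ω) (hs : 0 < s)
    (u : Fin K × Fin 2 → ℝ) (hu : ∀ p, |u p| ≤ U) (J : Finset (Fin K × Fin 2))
    (hJ : J.card ≤ K) :
    |(Matrix.of fun p r : Fin K × Fin 2 => if p ∈ J ∧ r.2 = 0 then 0 else
      u p ^ (r.1 : ℕ) / (r.1 : ℕ).factorial * Real.exp (τ * u p) ^ (r.2 : ℕ)).det| ≤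
      Real.exp (FF K (K - J.card) U ω s ρ) := by
  obtain ⟨e, he⟩ := Nat.exists_eq_add_of_le' hJ
  generalize hd : J.card = d at he
  subst he
  have hc1 : Fintype.card {a // a ∈ J} = d := by simp [hd]
  have hc2 : Fintype.card {a // ¬a ∈ J} = e + d + e := by
    rw [Fintype.card_subtype_compl, hc1]
    simp only [Fintype.card_prod, Fintype.card_fin]
    omega
  let Φ : Fin (e + d + e) ⊕ Fin d ≃ Fin (e + d) × Fin 2 :=
    (Equiv.sumCongr (Fintype.equivFinOfCardEq hc2).symm (Fintype.equivFinOfCardEq hc1).symm).trans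
      ((Equiv.sumComm _ _).trans (Equiv.sumCompl fun a => a ∈ J))
  have h1 : ∀ p, Φ (Sum.inl p) ∉ J := fun p => ((Fintype.equivFinOfCardEq hc2).symm p).2
  have h2 : ∀ p, Φ (Sum.inr p) ∈ J := fun p => ((Fintype.equivFinOfCardEq hc1).symm p).2
  have h3 := lim_le_exp e d hK ρ hρ τ U ω s hτ hU hω hs (fun p => u (Φ p)) fun p => hu _
  rw [show ((e + d : ℕ) : ℝ) - d = e by push_cast; ring]
  refine le_of_eq_of_le ?_ h3
  rw [← Matrix.det_transpose,
    ← Matrix.abs_det_submatrix_equiv_equiv (rowE (e + d)) ((phi e d).trans Φ)]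
  congr 2
  ext r p
  simp only [Matrix.submatrix_apply, Matrix.transpose_apply, Matrix.of_apply, Equiv.trans_apply,
    id, limM]
  rcases phi e d p with p' | p' <;> rcases r with k | k <;> simp [rowE, h1, h2]

theorem term_zero (K : ℕ) (J : Finset (Fin K × Fin 2)) (hJ : K < J.card)
    (a : Fin K × Fin 2 → Fin K × Fin 2 → ℝ) :
    (Matrix.of fun p r : Fin K × Fin 2 => if p ∈ J ∧ r.2 = 0 then 0 else a p r).det = 0 := by
  rw [← Matrix.det_transpose, Matrix.det_apply']
  refine sum_eq_zero fun σ _ => ?_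
  by_cases h : ∃ p ∈ J, (σ p).2 = 0
  · obtain ⟨p, hp, h0⟩ := h
    rw [prod_eq_zero (mem_univ p), mul_zero]
    simp [hp, h0]
  · exfalso
    have h1 : J.card ≤ (univ : Finset (Fin K)).card := by
      refine card_le_card_of_injOn (fun p => (σ p).1) (fun p _ => by simp) ?_
      intro p hp p' hp' hpp
      have h2 : ∀ p ∈ J, (σ p).2 = 1 := by
        intro p hp
        have h3 : (σ p).2 ≠ 0 := fun h0 => h ⟨p, hp, h0⟩
        generalize (σ p).2 = l at h3
        fin_cases l <;> simp_all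
      exact σ.injective (Prod.ext hpp ((h2 p hp).trans (h2 p' hp').symm))
    simp at h1
    omega

theorem arch_det_le (K : ℕ) (hK : 1 ≤ K) (ρ : ℝ) (hρ : 0 < ρ) (τ U ω s E T : ℝ) (hτ : τ ≠ 0)
    (hU : 2 * (K : ℝ) ≤ U) (hω : |τ| * U ≤ ω) (hs : 0 < s)
    (u δ : Fin K × Fin 2 → ℝ) (hu : ∀ p, |u p| ≤ U) (hδ : ∀ p, |δ p| ≤ Real.exp (-(E * K)))
    (hT : ∀ e : ℝ, 0 ≤ e → e ≤ K → FF K e U ω s ρ - E * K * (K - e) ≤ T) :
    |(Matrix.of fun r p : Fin K × Fin 2 => u p ^ (r.1 : ℕ) / (r.1 : ℕ).factorial *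
      (Real.exp (τ * u p) * (1 + δ p)) ^ (r.2 : ℕ)).det| ≤ Real.exp (T + 3 / 2 * K) := by
  let a : Fin K × Fin 2 → Fin K × Fin 2 → ℝ := fun p r =>
    u p ^ (r.1 : ℕ) / (r.1 : ℕ).factorial * Real.exp (τ * u p) ^ (r.2 : ℕ)
  let b : Fin K × Fin 2 → Fin K × Fin 2 → ℝ := fun p r => if r.2 = 0 then 0 else a p r
  let f := (Matrix.detRowAlternating (n := Fin K × Fin 2) (R := ℝ)).toMultilinearMap
  have h1 : (Matrix.of fun r p : Fin K × Fin 2 => u p ^ (r.1 : ℕ) / (r.1 : ℕ).factorial *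
      (Real.exp (τ * u p) * (1 + δ p)) ^ (r.2 : ℕ)).det = f ((fun p => δ p • b p) + a) := by
    rw [← Matrix.det_transpose]
    refine congrArg Matrix.det ?_
    ext p ⟨k, l⟩
    fin_cases l
    · simp [a, b]
    · simp [a, b]
      ring
  rw [h1, f.map_add_univ]
  refine (abs_sum_le_sum_abs _ _).trans ?_
  have key : ∀ J : Finset (Fin K × Fin 2),
      |f (J.piecewise (fun p => δ p • b p) a)| ≤ Real.exp T := by
    intro J
    have h2 : J.piecewise (fun p => δ p • b p) a =
        J.piecewise (fun p => δ p • J.piecewise b a p) (J.piecewise b a) := by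
      funext p
      by_cases hp : p ∈ J <;> simp [hp]
    have h3 : f (J.piecewise b a) = (Matrix.of fun p r : Fin K × Fin 2 =>
        if p ∈ J ∧ r.2 = 0 then 0 else a p r).det := by
      refine congrArg Matrix.det ?_
      ext p r
      by_cases hp : p ∈ J <;> simp [hp, b]
    rw [h2, f.map_piecewise_smul, h3, smul_eq_mul, abs_mul]
    by_cases hJ : J.card ≤ K
    · have h4 := term_le K hK ρ hρ τ U ω s hτ hU hω hs u hu J hJ
      have h5 : |∏ p ∈ J, δ p| ≤ Real.exp (-(E * K * J.card)) := by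
        rw [Finset.abs_prod]
        refine (prod_le_prod (fun p _ => abs_nonneg _) fun p _ => hδ p).trans (le_of_eq ?_)
        rw [prod_const, ← Real.exp_nat_mul]
        congr 1
        ring
      refine (mul_le_mul h5 h4 (abs_nonneg _) (Real.exp_pos _).le).trans ?_
      rw [← Real.exp_add, Real.exp_le_exp]
      have h6 : (J.card : ℝ) ≤ K := by exact_mod_cast hJ
      have h7 := hT (K - J.card) (by linarith) (by linarith [Nat.cast_nonneg (α := ℝ) J.card])
      linarith
    · rw [term_zero K J (by omega), abs_zero, mul_zero]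
      exact (Real.exp_pos _).le
  refine (sum_le_sum fun J _ => key J).trans ?_
  rw [sum_const, card_univ, Fintype.card_finset, nsmul_eq_mul, Real.exp_add, mul_comm]
  refine mul_le_mul_of_nonneg_left ?_ (Real.exp_pos _).le
  simp only [Fintype.card_prod, Fintype.card_fin]
  push_cast
  rw [← Real.log_le_iff_le_exp (by positivity), Real.log_pow]
  have := Real.log_two_lt_d9
  have : (0 : ℝ) ≤ K := by positivity
  push_cast
  nlinarith

end Pool.Agent.Lib.MP_93b520_nt
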