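import Mathlib
import Pool.Agent.Lib.Common.TwoLogs.Main
import Pool.Agent.Lib.MP_93b520_nt.Poly

/-!
The zero lemma, the box of lattice points and arithmetic lower bounds for determinants.
-/

set_option autoImplicit false

namespace Pool.Agent.Lib.MP_93b520_nt

open Finset Polynomial Pool.Agent.Lib.Common.TwoLogs

theorem zero_gen (K L : ℕ) (h g : ℝ) (hg : Function.Injective fun l : Fin L => g ^ (l : ℕ))
    {κ : Type} (B : Finset κ) (u χ : κ → ℝ) (hu : Set.InjOn u B) (hχ : ∀ b ∈ B, χ b ≠ 0)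
    (hK : K * L ≤ B.card) (p : Fin K × Fin L → ℝ)
    (hp : ∀ b ∈ B, ∀ j < L,
      ∑ i, p i * ((u b + j * h) ^ (i.1 : ℕ) * (χ b * g ^ j) ^ (i.2 : ℕ)) = 0) :
    p = 0 := by
  classical
  let Q : Fin L → ℝ[X] := fun l => ∑ k : Fin K, monomial k (p (k, l))
  have hQcoeff : ∀ k l, (Q l).coeff (k : Fin K) = p (k, l) := by
    intro k l
    simp only [Q, finsetSum_coeff, coeff_monomial]
    rw [sum_eq_single k]
    · simp
    · intro k' _ hk'
      rw [if_neg (fun h => hk' (Fin.ext h))]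
    · simp
  have hQeval : ∀ x y : ℝ, ∑ i : Fin K × Fin L, p i * (x ^ (i.1 : ℕ) * y ^ (i.2 : ℕ)) =
      ∑ l, (Q l).eval x * y ^ (l : ℕ) := by
    intro x y
    rw [Fintype.sum_prod_type_right]
    refine sum_congr rfl fun l _ => ?_
    simp only [Q, eval_finsetSum, eval_monomial, sum_mul]
    exact sum_congr rfl fun k _ => by ring
  by_contra hne
  obtain ⟨⟨k0, l0⟩, h0⟩ := Function.ne_iff.mp hne
  have hK0 : 0 < K := k0.pos
  have hQdeg : ∀ l, (Q l).natDegree ≤ K - 1 := by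
    intro l
    refine natDegree_sum_le_of_forall_le _ _ fun k _ => (natDegree_monomial_le _).trans ?_
    have := k.2
    omega
  let I : Finset (Fin L) := univ.filter fun l => Q l ≠ 0
  have hl0 : l0 ∈ I := by
    simp only [I, mem_filter, mem_univ, true_and]
    intro h
    apply h0
    rw [← hQcoeff, h]
    simp
  let ν := I.card
  have hνL : ν ≤ L := by simpa using card_le_univ I
  have hν0 : 0 < ν := card_pos.mpr ⟨l0, hl0⟩
  let e : Fin ν ≃ I := I.equivFin.symm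
  have ht : Function.Injective fun l : Fin ν => g ^ ((e l : Fin L) : ℕ) := by
    intro l l' h
    exact e.injective (Subtype.ext (hg h))
  obtain ⟨hD0, hDdeg⟩ := det_translates (fun l => Q (e l)) (fun l => (mem_filter.mp (e l).2).2)
    _ ht h
  apply hD0
  refine eq_zero_of_natDegree_lt_card_of_eval_eq_zero _ (f := fun b : B => u b) ?_ ?_ ?_
  · intro b b' hb
    exact Subtype.ext (hu b.2 b'.2 hb)
  · rintro ⟨b, hb⟩
    rw [← coe_evalRingHom, RingHom.map_det, ← Matrix.exists_mulVec_eq_zero_iff]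
    refine ⟨fun l => χ b ^ ((e l : Fin L) : ℕ), ?_, ?_⟩
    · intro h
      exact absurd (congrFun h ⟨0, hν0⟩) (pow_ne_zero _ (hχ b hb))
    · funext j
      have h1 := hp b hb j (by have := j.2; omega)
      rw [hQeval, ← sum_subset (subset_univ I) (fun l _ hl => by
        have : Q l = 0 := by simpa [I] using hl
        simp [this]), ← sum_coe_sort, ← Equiv.sum_comp e] at h1
      rw [Pi.zero_apply, ← h1]
      simp only [Matrix.mulVec, dotProduct, RingHom.mapMatrix_apply, Matrix.map_apply,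
        Matrix.of_apply, coe_evalRingHom, eval_mul, eval_C, taylor_eval]
      refine sum_congr rfl fun l _ => ?_
      simp only [mul_pow, ← pow_mul]
      ring
  · refine hDdeg.trans_lt ?_
    rw [Fintype.card_coe]
    calc ∑ l : Fin ν, (Q (e l)).natDegree ≤ ∑ l : Fin ν, (K - 1) := sum_le_sum fun l _ => hQdeg _
      _ = ν * (K - 1) := by simp
      _ ≤ L * (K - 1) := Nat.mul_le_mul_right _ hνL
      _ < L * K := Nat.mul_lt_mul_of_pos_left (by omega) l0.pos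
      _ ≤ B.card := by rw [mul_comm]; exact hK

theorem exists_cols (K L : ℕ) (h g : ℝ) (hg : Function.Injective fun l : Fin L => g ^ (l : ℕ))
    {κ : Type} (B : Finset κ) (u χ : κ → ℝ) (hu : Set.InjOn u B) (hχ : ∀ b ∈ B, χ b ≠ 0)
    (hK : K * L ≤ B.card)
    (hs : ∀ b ∈ B, ∀ j < L, ∃ b', u b' = u b + j * h ∧ χ b' = χ b * g ^ j) :
    ∃ c : Fin K × Fin L → κ, Function.Injective c ∧
      (Matrix.of fun r p : Fin K × Fin L =>
        (binP r.1).eval (u (c p)) * χ (c p) ^ (r.2 : ℕ)).det ≠ 0 := by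
  obtain ⟨c, hc⟩ := exists_cols_det_ne_zero
    (fun (b : κ) (r : Fin K × Fin L) => u b ^ (r.1 : ℕ) * χ b ^ (r.2 : ℕ)) (by
      intro p hp
      refine zero_gen K L h g hg B u χ hu hχ hK p fun b hb j hj => ?_
      obtain ⟨b', h1, h2⟩ := hs b hb j hj
      rw [← h1, ← h2]
      exact hp b')
  refine ⟨c, fun p p' hpp => ?_, ?_⟩
  · by_contra hne
    exact hc (Matrix.det_zero_of_column_eq hne fun r => by simp [hpp])
  · rw [det_rows (fun k : Fin K => binP k) (fun k => binP_deg k) (fun p => u (c p))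
      (fun (l : Fin L) p => χ (c p) ^ (l : ℕ))]
    refine mul_ne_zero (pow_ne_zero _ (prod_ne_zero_iff.mpr fun k _ => ?_)) hc
    rw [binP_coeff]
    positivity

theorem exists_box (q β : ℕ) (hq : 0 < q) (hβ : 0 < β) (hc : Nat.Coprime β q) :
    ∃ u0 w0 : ℕ → ℕ, (∀ x, u0 x < q) ∧ (∀ x, w0 x < β) ∧ (∀ x < q, β * u0 x = x + q * w0 x) ∧
      ∀ u x z, x < q → β * u = x + q * z → u = u0 x + q * (u / q) ∧ z = w0 x + β * (u / q) := by
  have h1 : ∀ x : ℕ, ∃ u < q, β * u ≡ x [MOD q] := by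
    intro x
    obtain ⟨u, hu⟩ := Nat.exists_mul_mod_eq_of_coprime x hc hq.ne'
    exact ⟨u, hu.1, hu.2⟩
  choose u0 hu0 hu1 using h1
  have h2 : ∀ x < q, β * u0 x = x + q * (β * u0 x / q) := by
    intro x hx
    have h3 := hu1 x
    rw [Nat.ModEq, Nat.mod_eq_of_lt hx] at h3
    have h4 := Nat.mod_add_div (β * u0 x) q
    omega
  refine ⟨u0, fun x => β * u0 x / q, hu0, fun x => ?_, h2, fun u x z hx hz => ?_⟩
  · rw [Nat.div_lt_iff_lt_mul hq]
    exact Nat.mul_lt_mul_of_pos_left (hu0 x) hβ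
  · have h3 : β * u ≡ β * u0 x [MOD q] := by
      refine Nat.ModEq.trans ?_ (hu1 x).symm
      rw [hz]
      simp [Nat.ModEq]
    have h4 : u ≡ u0 x [MOD q] := Nat.ModEq.cancel_left_of_coprime hc.symm h3
    rw [Nat.ModEq, Nat.mod_eq_of_lt (hu0 x)] at h4
    have h5 : u = u0 x + q * (u / q) := by
      have := Nat.mod_add_div u q
      omega
    refine ⟨h5, Nat.eq_of_mul_eq_mul_left hq ?_⟩
    have h6 := h2 x hx
    have h7 : β * u = β * u0 x + q * (β * (u / q)) := by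
      conv_lhs => rw [h5]
      ring
    rw [mul_add]
    beta_reduce
    omega

theorem thue (q β R1 U1 : ℕ) (hq : 0 < q) (hR : R1 < q) (h : q < (R1 + 1) * (U1 + 1)) :
    ∃ (v : ℕ) (v1 v2 : ℤ), 0 < v ∧ v ≤ U1 ∧ |v1| ≤ R1 ∧ (β : ℤ) * v = v1 + q * v2 := by
  have : NeZero q := ⟨hq.ne'⟩
  obtain ⟨a, b, hab, hf⟩ := Fintype.exists_ne_map_eq_of_card_lt
    (fun a : Fin (R1 + 1) × Fin (U1 + 1) => ((a.1 : ℕ) : ZMod q) - β * (a.2 : ℕ)) (by simpa using h)
  wlog hle : (b.2 : ℕ) ≤ a.2 generalizing a b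
  · exact this b a hab.symm hf.symm (by omega)
  have h1 : (q : ℤ) ∣ (β : ℤ) * ((a.2 : ℕ) - (b.2 : ℕ)) - ((a.1 : ℕ) - (b.1 : ℕ)) := by
    rw [← ZMod.intCast_zmod_eq_zero_iff_dvd]
    push_cast
    linear_combination -hf
  obtain ⟨v2, hv2⟩ := h1
  have ha1 := a.1.2
  have hb1 := b.1.2
  have ha2 := a.2.2
  have habs : |((a.1 : ℕ) : ℤ) - (b.1 : ℕ)| ≤ R1 := by
    rw [abs_le]; constructor <;> omega
  refine ⟨a.2 - b.2, (a.1 : ℕ) - (b.1 : ℕ), v2, ?_, by omega, habs, ?_⟩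
  · rcases hle.eq_or_lt with h2 | h2
    · exfalso
      rw [h2, sub_self, mul_zero, zero_sub] at hv2
      have h3 : (q : ℤ) ∣ ((a.1 : ℕ) : ℤ) - (b.1 : ℕ) := ⟨-v2, by linarith⟩
      have h4 := Int.eq_zero_of_abs_lt_dvd h3 (by omega)
      exact hab (Prod.ext (Fin.ext (by omega)) (Fin.ext h2.symm))
    · omega
  · rw [Nat.cast_sub hle]
    linarith

theorem exists_dvd_det {ι : Type} [Fintype ι] [DecidableEq ι] (B : ι → ι → ℤ) (l x z w : ι → ℕ)
    (a b c : ℤ) : ∃ σ1 σ2 σ3 : Equiv.Perm ι,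
      a ^ (∑ p, l (σ1 p) * x p) * b ^ (∑ p, l (σ2 p) * z p) * c ^ (∑ p, l (σ3 p) * w p) ∣
        (Matrix.of fun r p => B r p * (a ^ x p * b ^ z p * c ^ w p) ^ l r).det := by
  have h : ∀ t : ι → ℕ, ∃ σ0 : Equiv.Perm ι, ∀ σ : Equiv.Perm ι,
      ∑ p, l (σ0 p) * t p ≤ ∑ p, l (σ p) * t p := by
    intro t
    obtain ⟨σ0, -, h0⟩ := exists_min_image univ (fun σ : Equiv.Perm ι => ∑ p, l (σ p) * t p)
      univ_nonempty
    exact ⟨σ0, fun σ => h0 σ (mem_univ _)⟩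
  obtain ⟨σ1, h1⟩ := h x
  obtain ⟨σ2, h2⟩ := h z
  obtain ⟨σ3, h3⟩ := h w
  refine ⟨σ1, σ2, σ3, ?_⟩
  rw [Matrix.det_apply']
  refine dvd_sum fun σ _ => Dvd.dvd.mul_left ?_ _
  simp only [Matrix.of_apply, mul_pow, ← pow_mul, prod_mul_distrib, prod_pow_eq_pow_sum]
  refine Dvd.dvd.mul_left (mul_dvd_mul (mul_dvd_mul (pow_dvd_pow _ ?_) (pow_dvd_pow _ ?_))
    (pow_dvd_pow _ ?_)) _
  · simpa only [mul_comm] using h1 σ
  · simpa only [mul_comm] using h2 σ
  · simpa only [mul_comm] using h3 σ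

theorem spread {ι : Type} [Fintype ι] [DecidableEq ι] (l x : ι → ℝ) (l0 c g : ℝ)
    (hg : ∀ σ : Equiv.Perm ι, |∑ p, (l (σ p) - l0) * (x p - c)| ≤ g) (σ σ' : Equiv.Perm ι) :
    ∑ p, l (σ p) * x p ≤ ∑ p, l (σ' p) * x p + 2 * g := by
  have h : ∀ σ : Equiv.Perm ι, ∑ p, (l (σ p) - l0) * (x p - c) =
      ∑ p, l (σ p) * x p - c * ∑ p, l p - l0 * ∑ p, (x p - c) := by
    intro σ
    rw [← Equiv.sum_comp σ l, mul_sum, mul_sum, ← sum_sub_distrib, ← sum_sub_distrib]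
    exact sum_congr rfl fun p _ => by ring
  have h1 := (abs_le.mp (hg σ)).2
  have h2 := (abs_le.mp (hg σ')).1
  rw [h] at h1 h2
  linarith

theorem sum_inj_le {ι κ : Type} [Fintype ι] [Fintype κ] (c : ι → κ) (hc : Function.Injective c)
    (f : κ → ℝ) (hf : ∀ b, 0 ≤ f b) : ∑ p, f (c p) ≤ ∑ b, f b := by
  have := sum_map univ ⟨c, hc⟩ f
  simp only [Function.Embedding.coeFn_mk] at this
  rw [← this]
  exact sum_le_sum_of_subset_of_nonneg (subset_univ _) fun b _ _ => hf b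

theorem abs_det_le_perm {ι : Type} [Fintype ι] [DecidableEq ι] (M : Matrix ι ι ℝ) (B : ℝ)
    (h : ∀ σ : Equiv.Perm ι, ∏ p, |M (σ p) p| ≤ B) :
    |M.det| ≤ (Fintype.card ι).factorial * B := by
  rw [Matrix.det_apply']
  refine (abs_sum_le_sum_abs _ _).trans ?_
  have : ∀ σ : Equiv.Perm ι, |((Equiv.Perm.sign σ : ℤ) : ℝ) * ∏ i, M (σ i) i| ≤ B := by
    intro σ
    rw [abs_mul, Finset.abs_prod]
    have h1 : |((Equiv.Perm.sign σ : ℤ) : ℝ)| = 1 := by
      rcases Int.units_eq_one_or (Equiv.Perm.sign σ) with h | h <;> simp [h]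
    rw [h1, one_mul]
    exact h σ
  refine (sum_le_sum fun σ _ => this σ).trans ?_
  rw [sum_const, card_univ, Fintype.card_perm, nsmul_eq_mul]

end Pool.Agent.Lib.MP_93b520_nt
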