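import Mathlib
import Pool.Agent.Lib.MP_93b520_nt.ArchDet
import Pool.Agent.Lib.MP_93b520_nt.Box

/-!
The archimedean interpolation determinant on a rank two lattice.
-/

set_option autoImplicit false

namespace Pool.Agent.Lib.MP_93b520_nt

open Finset Polynomial Real

theorem box_inj (q β R S : ℕ) (hq : 0 < q) (hR : R ≤ q) (u0 w0 : ℕ → ℕ)
    (h : ∀ x < q, β * u0 x = x + q * w0 x) (hu0 : ∀ x, u0 x < q) :
    Function.Injective fun b : Fin R × Fin S => u0 b.1 + q * b.2 := by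
  rintro ⟨x, j⟩ ⟨x', j'⟩ hb
  simp only at hb
  have h1 : u0 x = u0 x' := by
    have := congrArg (· % q) hb
    simpa [Nat.mod_eq_of_lt (hu0 _)] using this
  have h2 : (j : ℕ) = j' := Nat.eq_of_mul_eq_mul_left hq (by omega)
  have hx : (x : ℕ) < q := lt_of_lt_of_le x.2 hR
  have hx' : (x' : ℕ) < q := lt_of_lt_of_le x'.2 hR
  have h3 := h x hx
  rw [h1, h x' hx'] at h3
  have h4 : (x' : ℕ) = x := by
    have := congrArg (· % q) h3
    simpa [Nat.mod_eq_of_lt hx, Nat.mod_eq_of_lt hx'] using this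
  exact Prod.ext (Fin.ext h4.symm) (Fin.ext h2)

theorem card_good (R S R1 U1 N v : ℕ) (v1 : ℤ) (hv : v ≤ U1) (hv1 : |v1| ≤ R1)
    (un : Fin R × Fin S → ℕ) (hun : Function.Injective un) (hN : ∀ b, un b < N) :
    R * S ≤ (univ.filter fun b : Fin R × Fin S =>
      (0 ≤ (b.1 : ℕ) + v1 ∧ (b.1 : ℕ) + v1 < R) ∧ un b + v < N).card + R1 * S + U1 := by
  let T1 : Finset (Fin R) := univ.filter fun x => ¬(0 ≤ (x : ℕ) + v1 ∧ (x : ℕ) + v1 < R)
  let T2 : Finset (Fin R × Fin S) := univ.filter fun b => ¬un b + v < N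
  have h1 : T1.card ≤ (range R1).card := by
    rw [abs_le] at hv1
    refine card_le_card_of_injOn (fun x => if 0 ≤ v1 then R - 1 - x else x) ?_ ?_
    · intro x hx
      have h2 := (mem_filter.mp hx).2
      have h3 := x.2
      simp only [coe_range, Set.mem_Iio]
      split_ifs <;> omega
    · intro x _ x' _ h
      have h3 := x.2
      have h4 := x'.2
      simp only at h
      exact Fin.ext (by split_ifs at h <;> omega)
  have h2 : T2.card ≤ (range U1).card := by
    refine card_le_card_of_injOn (fun b => N - 1 - un b) ?_ ?_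
    · intro b hb
      have h2 := (mem_filter.mp hb).2
      have h3 := hN b
      simp only [coe_range, Set.mem_Iio]
      omega
    · intro b _ b' _ h
      have h3 := hN b
      have h4 := hN b'
      simp only at h
      exact hun (by omega)
  rw [card_range] at h1 h2
  have h3 : (univ : Finset (Fin R × Fin S)) ⊆ (univ.filter fun b : Fin R × Fin S =>
      (0 ≤ (b.1 : ℕ) + v1 ∧ (b.1 : ℕ) + v1 < R) ∧ un b + v < N) ∪ T1 ×ˢ univ ∪ T2 := by
    intro b _
    simp only [mem_union, mem_filter, mem_univ, true_and, mem_product, and_true, T1, T2]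
    tauto
  have h4 := (card_le_card h3).trans ((card_union_le _ _).trans
    (Nat.add_le_add_right (card_union_le _ _) _))
  simp only [card_univ, Fintype.card_prod, Fintype.card_fin, card_product] at h4
  have h5 := Nat.mul_le_mul_right S h1
  omega

theorem sum_box_x (R S : ℕ) :
    ∑ b : Fin R × Fin S, |((b.1 : ℕ) : ℝ) - R / 2| ≤ S * ((R : ℝ) ^ 2 + 1) / 4 := by
  rw [Fintype.sum_prod_type_right]
  simp only [sum_const, card_univ, Fintype.card_fin, nsmul_eq_mul]
  rw [Fin.sum_univ_eq_sum_range (fun x => |(x : ℝ) - R / 2|) R, mul_div_assoc]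
  have := sum_abs_le 0 le_rfl zero_le_one R
  simp only [add_zero] at this
  exact mul_le_mul_of_nonneg_left this (by positivity)

theorem sum_box_z (R S β : ℕ) (hβ : 0 < β) (w0 : ℕ → ℕ) (hw : ∀ x, w0 x < β) :
    ∑ b : Fin R × Fin S, |((w0 b.1 + β * b.2 : ℕ) : ℝ) - β * S / 2| ≤
      R * β * ((S : ℝ) ^ 2 + 1) / 4 := by
  have hβ' : (0 : ℝ) < β := by exact_mod_cast hβ
  rw [Fintype.sum_prod_type]
  have h : ∀ x : Fin R, ∑ j : Fin S, |((w0 x + β * j : ℕ) : ℝ) - β * S / 2| ≤
      β * (((S : ℝ) ^ 2 + 1) / 4) := by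
    intro x
    have h1 := sum_abs_le ((w0 x : ℝ) / β) (by positivity)
      (by rw [div_le_one hβ']; exact_mod_cast (hw x).le) S
    refine le_of_eq_of_le ?_ (mul_le_mul_of_nonneg_left h1 hβ'.le)
    rw [mul_sum, Fin.sum_univ_eq_sum_range (fun j => |((w0 x + β * j : ℕ) : ℝ) - β * S / 2|) S]
    refine sum_congr rfl fun j _ => ?_
    rw [← abs_of_pos hβ', ← abs_mul, abs_of_pos hβ']
    congr 1
    push_cast
    field_simp
    ring
  refine (sum_le_sum fun x _ => h x).trans (le_of_eq ?_)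
  simp only [sum_const, card_univ, Fintype.card_fin, nsmul_eq_mul]
  ring

theorem sum_snd (K : ℕ) : ∑ r : Fin K × Fin 2, ((r.2 : ℕ) : ℝ) = K := by
  rw [Fintype.sum_prod_type]
  simp

theorem half_spread (K : ℕ) (t : Fin K × Fin 2 → ℝ) (c0 g : ℝ) (h : ∑ p, |t p - c0| ≤ g)
    (σ σ' : Equiv.Perm (Fin K × Fin 2)) :
    ∑ p, (((σ p).2 : ℕ) : ℝ) * t p ≤ ∑ p, (((σ' p).2 : ℕ) : ℝ) * t p + g := by
  have := spread (fun r : Fin K × Fin 2 => ((r.2 : ℕ) : ℝ)) t (1 / 2) c0 (g / 2) (fun σ => by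
    refine (abs_sum_le_sum_abs _ _).trans ?_
    have h1 : ∀ p, |((((σ p).2 : ℕ) : ℝ) - 1 / 2) * (t p - c0)| = |t p - c0| / 2 := by
      intro p
      rw [abs_mul]
      generalize (σ p).2 = l
      fin_cases l <;> norm_num <;> ring
    rw [sum_congr rfl fun p _ => h1 p, ← sum_div]
    linarith) σ σ'
  linarith

theorem arch_core (y c m q α β β0 R S K R1 U1 : ℕ) (hy : 1 ≤ y) (hc1 : 1 ≤ c) (hc2 : c ≤ 2)
    (hβ : 0 < β) (hββ : β ≤ β0) (hcop : Nat.Coprime β q) (hR : R ≤ q) (hR1 : R1 < q)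
    (hU1 : U1 < q) (hth : q < (R1 + 1) * (U1 + 1)) (hK : 1 ≤ K)
    (hcount : 2 * K + R1 * S + U1 ≤ R * S) (Λ τ ε ω ρ s E T : ℝ)
    (hΛ : Λ = q * log y - m * log 3 - log c) (hΛ0 : 0 ≤ Λ) (hτ : τ = β * log y - α * log 3)
    (hε : β0 * S * Λ ≤ ε) (hετ : ε < |τ|) (hεE : ε ≤ exp (-(E * K)))
    (hU : 2 * (K : ℝ) ≤ q * S / 2) (hω : |τ| * (q * S / 2) ≤ ω) (hρ : 0 < ρ) (hs : 0 < s)
    (hT : ∀ e : ℝ, 0 ≤ e → e ≤ K → FF K e (q * S / 2) ω s ρ - E * K * (K - e) ≤ T) :
    -(K * (ω + ε)) - S * ((R : ℝ) ^ 2 + 1) / 4 * log y -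
      R * β0 * ((S : ℝ) ^ 2 + 1) / 4 * log 2 ≤ T + 3 / 2 * K := by
  have hq : 0 < q := by omega
  have hS : 0 < S := by
    rcases Nat.eq_zero_or_pos S with h | h
    · subst h; omega
    · exact h
  have hy' : (0 : ℝ) < y := by exact_mod_cast hy
  have hc' : (0 : ℝ) < c := by exact_mod_cast hc1
  have hε0 : 0 ≤ ε := le_trans (by positivity) hε
  have hτ0 : τ ≠ 0 := by
    intro h
    rw [h, abs_zero] at hετ
    linarith
  obtain ⟨u0, w0, hu0, hw0, hbox, huniq⟩ := exists_box q β hq hβ hcop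
  let un : Fin R × Fin S → ℕ := fun b => u0 b.1 + q * b.2
  let zn : Fin R × Fin S → ℕ := fun b => w0 b.1 + β * b.2
  let wn : Fin R × Fin S → ℕ := fun b => m * zn b + α * (q * S - un b)
  have hun : Function.Injective un := box_inj q β R S hq hR u0 w0 hbox hu0
  have hrel : ∀ b, β * un b = b.1 + q * zn b := by
    intro b
    simp only [un, zn]
    rw [mul_add, hbox _ (lt_of_lt_of_le b.1.2 hR)]
    ring
  have hlt : ∀ b, un b < q * S := by
    intro b
    have h1 := hu0 b.1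
    have h2 : q * ((b.2 : ℕ) + 1) ≤ q * S := Nat.mul_le_mul_left q b.2.2
    simp only [un]
    linarith
  have hzlt : ∀ b, zn b ≤ β0 * S := by
    intro b
    have h1 := hw0 b.1
    have h2 : β * ((b.2 : ℕ) + 1) ≤ β0 * S := Nat.mul_le_mul hββ b.2.2
    simp only [zn]
    linarith
  have hzε : ∀ b, zn b * Λ ≤ ε := by
    intro b
    refine le_trans (mul_le_mul_of_nonneg_right ?_ hΛ0) hε
    exact_mod_cast hzlt b
  set U : ℝ := q * S / 2 with hUdef
  let C1 : ℝ := α * (q * S) * log 3 + τ * U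
  let lχ : Fin R × Fin S → ℝ := fun b => C1 + τ * (un b - U) - zn b * Λ
  have hlχ : ∀ b, lχ b = (b.1 : ℕ) * log y + zn b * log c + wn b * log 3 := by
    intro b
    have h1 : (β : ℝ) * un b = (b.1 : ℕ) + q * zn b := by exact_mod_cast hrel b
    simp only [lχ, wn, C1]
    push_cast [Nat.cast_sub (hlt b).le]
    rw [hΛ, hτ]
    linear_combination log y * h1
  have hχ : ∀ b : Fin R × Fin S,
      (y : ℝ) ^ (b.1 : ℕ) * (c : ℝ) ^ zn b * 3 ^ wn b = exp (lχ b) := by
    intro b
    rw [hlχ, exp_add, exp_add, exp_nat_mul, exp_nat_mul, exp_nat_mul, exp_log hy', exp_log hc',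
      exp_log (by norm_num)]
  obtain ⟨v, v1, v2, hv0, hvU, hv1, hv⟩ := thue q β R1 U1 hq hR1 hth
  have hv2 : |v2| ≤ β := by
    have h1 : (q : ℤ) * |v2| ≤ β * v + R1 := by
      rw [← abs_of_nonneg (show (0 : ℤ) ≤ q by positivity), ← abs_mul,
        show (q : ℤ) * v2 = β * v - v1 by linarith]
      refine (abs_sub _ _).trans ?_
      rw [abs_of_nonneg (by positivity)]
      linarith
    have h2 : (β : ℤ) * v ≤ β * q := by
      have : (v : ℤ) ≤ q := by omega
      gcongr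
    have h3 : (q : ℤ) * |v2| < q * (β + 1) := by
      have : (R1 : ℤ) < q := by exact_mod_cast hR1
      linarith
    have h4 := lt_of_mul_lt_mul_left h3 (by positivity)
    omega
  have hg : exp (τ * v - v2 * Λ) ≠ 1 := by
    intro h
    rw [exp_eq_one_iff, sub_eq_zero] at h
    have h1 : |τ| ≤ |τ * v| := by
      rw [abs_mul, Nat.abs_cast]
      exact le_mul_of_one_le_right (abs_nonneg _) (by exact_mod_cast hv0)
    have h2 : |(v2 : ℝ)| ≤ β0 * S := by
      have h3 : |v2| ≤ β0 * S := by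
        have : β ≤ β0 * S := hββ.trans (Nat.le_mul_of_pos_right _ hS)
        have : (β : ℤ) ≤ β0 * S := by exact_mod_cast this
        linarith
      exact_mod_cast h3
    rw [h, abs_mul, abs_of_nonneg hΛ0] at h1
    have := mul_le_mul_of_nonneg_right h2 hΛ0
    linarith
  have hcard := card_good R S R1 U1 (q * S) v v1 hvU hv1 un hun hlt
  obtain ⟨cc, hcc, hdet⟩ := exists_cols K 2 v (exp (τ * v - v2 * Λ)) (by
      intro l l' h
      fin_cases l <;> fin_cases l' <;> simp_all [eq_comm])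
    (univ.filter fun b : Fin R × Fin S =>
      (0 ≤ (b.1 : ℕ) + v1 ∧ (b.1 : ℕ) + v1 < R) ∧ un b + v < q * S)
    (fun b => un b) (fun b => exp (lχ b)) (fun b _ b' _ h => hun (Nat.cast_injective h))
    (fun b _ => (exp_pos _).ne') (by omega) (by
      intro b hb j hj
      obtain ⟨⟨h1, h2⟩, h3⟩ := (mem_filter.mp hb).2
      interval_cases j
      · exact ⟨b, by simp, by simp⟩
      · obtain ⟨x', hx'⟩ := Int.eq_ofNat_of_zero_le h1
        have hxR : x' < R := by omega
        have h4 : (β : ℤ) * (un b + v : ℕ) = x' + q * (zn b + v2) := by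
          have h5 : (β : ℤ) * un b = (b.1 : ℕ) + q * zn b := by exact_mod_cast hrel b
          push_cast
          linear_combination h5 + hv + hx'
        have h5 : 0 ≤ (zn b : ℤ) + v2 := by
          have h6 : (q : ℤ) * (-1) < q * (zn b + v2) := by
            have : (0 : ℤ) ≤ (β : ℤ) * (un b + v : ℕ) := by positivity
            omega
          have := lt_of_mul_lt_mul_left h6 (by positivity)
          omega
        obtain ⟨z', hz'⟩ := Int.eq_ofNat_of_zero_le h5
        rw [hz'] at h4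
        obtain ⟨h6, h7⟩ := huniq (un b + v) x' z' (by omega) (by exact_mod_cast h4)
        have h8 : (un b + v) / q < S := by
          rw [Nat.div_lt_iff_lt_mul hq, mul_comm]
          exact h3
        have h9 : un (⟨x', hxR⟩, ⟨_, h8⟩) = un b + v := h6.symm
        have h10 : zn (⟨x', hxR⟩, ⟨_, h8⟩) = z' := h7.symm
        have h11 : (z' : ℝ) = zn b + v2 := by exact_mod_cast hz'.symm
        refine ⟨(⟨x', hxR⟩, ⟨_, h8⟩), by simp [h9], ?_⟩
        rw [pow_one, ← exp_add]
        simp only [lχ, h9, h10, h11]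
        push_cast
        congr 1
        ring)
  obtain ⟨σ1, σ2, σ3, hdvd⟩ := exists_dvd_det
    (fun r p : Fin K × Fin 2 => ((un (cc p)).choose r.1 : ℤ)) (fun r => r.2)
    (fun p => (cc p).1) (fun p => zn (cc p)) (fun p => wn (cc p)) y c 3
  set D := (Matrix.of fun r p : Fin K × Fin 2 =>
    (binP r.1).eval (un (cc p) : ℝ) * exp (lχ (cc p)) ^ (r.2 : ℕ)).det with hD
  have hcast : (((Matrix.of fun r p : Fin K × Fin 2 => ((un (cc p)).choose r.1 : ℤ) *
      ((y : ℤ) ^ ((cc p).1 : ℕ) * (c : ℤ) ^ zn (cc p) * 3 ^ wn (cc p)) ^ (r.2 : ℕ)).det : ℤ) : ℝ) =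
      D := by
    rw [Int.cast_det, hD]
    congr 1
    ext r p
    simp [binP_eval, ← hχ]
  have hlow := Int.le_of_dvd (abs_pos.mpr (by
    intro h
    rw [h, Int.cast_zero] at hcast
    exact hdet hcast.symm)) ((dvd_abs _ _).mpr hdvd)
  have hlow2 : (y : ℝ) ^ (∑ p, ((σ1 p).2 : ℕ) * ((cc p).1 : ℕ)) *
      (c : ℝ) ^ (∑ p, ((σ2 p).2 : ℕ) * zn (cc p)) *
      3 ^ (∑ p, ((σ3 p).2 : ℕ) * wn (cc p)) ≤ |D| := by
    rw [← hcast]
    exact_mod_cast hlow
  have hup : |D| ≤ exp (K * C1) * exp (T + 3 / 2 * K) := by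
    have h1 := arch_det_le K hK ρ hρ τ U ω s E T hτ0 hU hω hs (fun p => un (cc p) - U)
      (fun p => exp (-(zn (cc p) * Λ)) - 1) (fun p => by
        have h2 : (un (cc p) : ℝ) ≤ q * S := by exact_mod_cast (hlt _).le
        have h3 : (0 : ℝ) ≤ un (cc p) := by positivity
        rw [abs_le]; constructor <;> linarith) (fun p => by
        have h2 := add_one_le_exp (-(zn (cc p) * Λ))
        have h3 : exp (-(zn (cc p) * Λ)) ≤ 1 := exp_le_one_iff.mpr (by
          have : 0 ≤ zn (cc p) * Λ := by positivity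
          linarith)
        have h4 := hzε (cc p)
        rw [abs_le]; constructor <;> linarith [exp_pos (-(E * K))]) hT
    have h2 := det_rows_eq (fun k : Fin K => binP k)
      (fun k : Fin K => C (1 / ((k : ℕ).factorial : ℝ)) * (X - C U) ^ (k : ℕ))
      (fun k => binP_deg k) (fun k => (natDegree_C_mul_le _ _).trans (by simp))
      (fun k => by
        have h3 := ((monic_X_sub_C U).pow (n := k)).coeff_natDegree
        rw [natDegree_pow, natDegree_X_sub_C, mul_one] at h3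
        rw [binP_coeff, coeff_C_mul, h3, mul_one])
      (fun p => (un (cc p) : ℝ)) (fun (l : Fin 2) p => exp (lχ (cc p)) ^ (l : ℕ))
    rw [hD, h2]
    have h3 := Matrix.det_mul_column (fun r : Fin K × Fin 2 => exp (((r.2 : ℕ) : ℝ) * C1))
      (Matrix.of fun r p : Fin K × Fin 2 => (un (cc p) - U) ^ (r.1 : ℕ) / (r.1 : ℕ).factorial *
        (exp (τ * (un (cc p) - U)) * (1 + (exp (-(zn (cc p) * Λ)) - 1))) ^ (r.2 : ℕ))
    rw [← exp_sum, ← sum_mul, sum_snd] at h3
    refine le_of_eq_of_le ?_ (mul_le_mul_of_nonneg_left h1 (exp_pos _).le)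
    rw [← abs_of_pos (exp_pos (K * C1)), ← abs_mul, ← h3]
    congr 2
    ext r p
    simp only [Matrix.of_apply, eval_mul, eval_C, eval_pow, eval_sub, eval_X, lχ, exp_nat_mul,
      sub_eq_add_neg (C1 + _), exp_add, add_sub_cancel, mul_pow]
    ring
  have h1 := log_le_log (by positivity) (hlow2.trans hup)
  rw [← exp_add, log_exp, log_mul (by positivity) (by positivity),
    log_mul (by positivity) (by positivity), log_pow, log_pow, log_pow] at h1
  push_cast at h1
  have h2 := half_spread K (fun p => ((cc p).1 : ℕ)) (R / 2) _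
    ((sum_inj_le cc hcc (fun b => |((b.1 : ℕ) : ℝ) - R / 2|) fun _ => abs_nonneg _).trans
      (sum_box_x R S)) σ3 σ1
  have h3 := half_spread K (fun p => zn (cc p)) (β * S / 2) _
    ((sum_inj_le cc hcc (fun b => |(zn b : ℝ) - β * S / 2|) fun _ => abs_nonneg _).trans
      (sum_box_z R S β hβ w0 hw0)) σ3 σ2
  have h4 : K * (C1 - ω - ε) ≤ ∑ p, (((σ3 p).2 : ℕ) : ℝ) * lχ (cc p) := by
    rw [← sum_snd K, ← Equiv.sum_comp σ3, sum_mul]
    refine sum_le_sum fun p _ => mul_le_mul_of_nonneg_left ?_ (by positivity)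
    have h5 : |τ * (un (cc p) - U)| ≤ ω := by
      rw [abs_mul]
      refine le_trans (mul_le_mul_of_nonneg_left ?_ (abs_nonneg _)) hω
      have h2 : (un (cc p) : ℝ) ≤ q * S := by exact_mod_cast (hlt _).le
      have h3 : (0 : ℝ) ≤ un (cc p) := by positivity
      rw [abs_le]; constructor <;> linarith
    have h6 := hzε (cc p)
    simp only [lχ]
    linarith [(abs_le.mp h5).1]
  simp only [hlχ, mul_add, ← mul_assoc, sum_add_distrib, ← sum_mul] at h4
  have hA : 0 ≤ log (y : ℝ) := log_nonneg (by exact_mod_cast hy)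
  have hlc : 0 ≤ log (c : ℝ) := log_nonneg (by exact_mod_cast hc1)
  have hlc2 : log (c : ℝ) ≤ log 2 := log_le_log hc' (by exact_mod_cast hc2)
  have h5 := mul_le_mul_of_nonneg_right h2 hA
  have h6 := mul_le_mul_of_nonneg_right h3 hlc
  have h7 : R * β * ((S : ℝ) ^ 2 + 1) / 4 * log c ≤ R * β0 * ((S : ℝ) ^ 2 + 1) / 4 * log 2 := by
    have : (β : ℝ) ≤ β0 := by exact_mod_cast hββ
    gcongr
  linarith

end Pool.Agent.Lib.MP_93b520_nt
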