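import Mathlib
import Pool.Agent.Lib.MP_93b520_nt.ArchCore

/-!
Choice of the parameters in the archimedean estimate.
-/

set_option autoImplicit false

namespace Pool.Agent.Lib.MP_93b520_nt

open Real Pool.Agent.Lib.Common.TwoLogs

theorem exists_params (q R S θ : ℕ) (hq : 0 < q) (hθ : 2 < θ) (hθR : θ ≤ R)
    (h : θ ^ 2 * q ≤ R ^ 2 * S) : ∃ K R1 U1 : ℕ, q < (R1 + 1) * (U1 + 1) ∧
      2 * K + R1 * S + U1 ≤ R * S ∧ R1 < R ∧ U1 < q ∧ 2 * θ * K ≤ (θ - 2) * (R * S) ∧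
      (θ - 2) * (R * S) < 2 * θ * (K + 1) := by
  have hθ0 : 0 < θ := by omega
  have hR : 0 < R := by omega
  have h1 : θ * (R / θ) ≤ R := Nat.mul_div_le R θ
  have h2 : R < θ * (R / θ + 1) := Nat.lt_mul_div_succ R hθ0
  have h3 : (R / θ + 1) * (q / (R / θ + 1)) ≤ q := Nat.mul_div_le _ _
  have h4 : 2 * θ * ((θ - 2) * (R * S) / (2 * θ)) ≤ (θ - 2) * (R * S) := Nat.mul_div_le _ _
  have h5 : 1 ≤ R / θ := (Nat.one_le_div_iff hθ0).mpr hθR
  refine ⟨(θ - 2) * (R * S) / (2 * θ), R / θ, q / (R / θ + 1),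
    Nat.lt_mul_div_succ q (by omega), ?_, Nat.div_lt_self hR (by omega),
    Nat.div_lt_self hq (by omega), h4, Nat.lt_mul_div_succ _ (by omega)⟩
  generalize (θ - 2) * (R * S) / (2 * θ) = K at *
  generalize q / (R / θ + 1) = U1 at *
  generalize R / θ = R1 at *
  have h6 : θ * U1 ≤ R * S := by
    refine Nat.le_of_mul_le_mul_left ?_ hR
    calc R * (θ * U1) ≤ θ * (R1 + 1) * (θ * U1) := Nat.mul_le_mul_right _ h2.le
      _ = θ ^ 2 * ((R1 + 1) * U1) := by ring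
      _ ≤ θ ^ 2 * q := Nat.mul_le_mul_left _ h3
      _ ≤ R * (R * S) := by rw [← mul_assoc, ← sq]; exact h
  have h7 : θ * R1 * S ≤ R * S := Nat.mul_le_mul_right _ h1
  obtain ⟨t, rfl⟩ := Nat.exists_eq_add_of_le hθ.le
  rw [Nat.add_sub_cancel_left] at h4
  refine Nat.le_of_mul_le_mul_left ?_ hθ0
  nlinarith

theorem log_le_mul (x x0 l : ℝ) (h0 : 0 < x0) (hx : x0 ≤ x) (hl : log x0 ≤ l) (h1 : 1 ≤ l) :
    log x ≤ l / x0 * x := by
  have h2 := Real.log_le_sub_one_of_pos (show 0 < x / x0 from div_pos (by linarith) h0)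
  rw [log_div (by linarith) h0.ne'] at h2
  have h3 : 1 ≤ x / x0 := by rw [le_div_iff₀ h0]; linarith
  have h4 : l / x0 * x = l * (x / x0) := by ring
  rw [h4]
  nlinarith

theorem FF_le (K S Z Z0 L0 sig w t h1 p1 mm : ℝ) (hK : 0 < K) (hS : 0 < S) (hZ0 : 0 < Z0)
    (hZ : Z0 ≤ Z) (hw : 0 < w) (ht : 0 < t) (hL0 : L0 ≤ log Z0) (hsig : S * Z ^ 2 ≤ sig * K)
    (hh1 : log (sig / 4) ≤ h1) (hp1 : log (w / (8 * t)) + 1 / 2 ≤ -p1)
    (hquad : ∀ x : ℝ, -L0 * (1 - x) ^ 2 - p1 * x ^ 2 + t * x +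
      0.2232 * (((1 - x) ^ 2 + x ^ 2) / 2) + 5 * (w / Z0) * (3 - 2 * x) - 2 * (1 - x) ≤ -mm)
    (e : ℝ) (he : e ≤ K) :
    FF K e (Z ^ 3 * S / 2) (w * K / Z) (t * K) 4 - (2 * log Z + 2) * K * (K - e) ≤
      K ^ 2 * (h1 + 3 / 2 - mm) + K * (5 * log K + 5 + 5 * (w / Z0)) := by
  have hZ' : 0 < Z := by linarith
  have hsig0 : 0 < sig := by
    have : 0 < sig * K := lt_of_lt_of_le (by positivity) hsig
    exact pos_of_mul_pos_left this hK.le
  have a1 : log (Z ^ 3 * S / 2 / (2 * K)) ≤ log Z + h1 := by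
    refine le_trans ?_ (add_le_add_right hh1 _)
    rw [← log_mul hZ'.ne' (by positivity)]
    refine log_le_log (by positivity) ?_
    rw [div_le_iff₀ (by positivity)]
    nlinarith [mul_le_mul_of_nonneg_left hsig hZ'.le]
  have a2 : log (w * K / Z / 2) - log 4 - log (t * K) = log (w / (8 * t)) - log Z := by
    rw [← log_div (by positivity) (by positivity), ← log_div (by positivity) (by positivity),
      ← log_div (by positivity) (by positivity)]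
    congr 1
    field_simp
    norm_num
  have a3 : log ((1 + 4) / 4) ≤ 0.2232 := by
    rw [show ((1 + 4) / 4 : ℝ) = 5 / 2 ^ 2 by norm_num, log_div (by norm_num) (by norm_num),
      log_pow]
    have := log_five_lt_d9
    have := log_two_gt_d9
    push_cast
    linarith
  have a4 : w * K / Z ≤ w / Z0 * K := by
    rw [div_mul_eq_mul_div]
    gcongr
  have a5 : L0 ≤ log Z := hL0.trans (log_le_log hZ0 hZ)
  have a6 := mul_le_mul_of_nonneg_left (hquad (e / K)) (sq_nonneg K)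
  have a7 : K ^ 2 * (-L0 * (1 - e / K) ^ 2 - p1 * (e / K) ^ 2 + t * (e / K) +
      0.2232 * (((1 - e / K) ^ 2 + (e / K) ^ 2) / 2) + 5 * (w / Z0) * (3 - 2 * (e / K)) -
      2 * (1 - e / K)) = -L0 * (K - e) ^ 2 - p1 * e ^ 2 + t * K * e +
      0.2232 * (((K - e) ^ 2 + e ^ 2) / 2) + 5 * (w / Z0) * K * (3 * K - 2 * e) -
      2 * K * (K - e) := by
    field_simp
  rw [a7] at a6
  have b1 := mul_le_mul_of_nonneg_left a1 (sq_nonneg K)
  have b2 := mul_le_mul_of_nonneg_left hp1 (sq_nonneg e)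
  have b3 := mul_le_mul_of_nonneg_right a3 (show 0 ≤ ((K - e) ^ 2 + e ^ 2) / 2 by positivity)
  have b4 := mul_le_mul_of_nonneg_right a4 (show 0 ≤ (1 + 4) * (3 * K + 1 - 2 * e) by linarith)
  have b5 := mul_le_mul_of_nonneg_right a5 (sq_nonneg (K - e))
  have b6 : e ^ 2 * (log (w * K / Z / 2) + 1 / 2 - log 4 - log (t * K)) =
      e ^ 2 * (log (w / (8 * t)) + 1 / 2) - e ^ 2 * log Z := by
    linear_combination e ^ 2 * a2
  unfold FF
  rw [b6]
  linarith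

theorem tau_lower (y α β : ℕ) (hy : 2 ≤ y) (hy3 : Nat.Coprime y 3) (hβ : 0 < β)
    (h : |β * log y - α * log 3| ≤ log 3) :
    exp (-(2 * β * log y + log 3)) ≤ |β * log y - α * log 3| := by
  have hy' : (0 : ℝ) < y := by positivity
  have h1 := liouville (y ^ β) (3 ^ α) (by positivity) (by positivity) (by
    intro h0
    have h2 : Nat.Coprime (y ^ β) (3 ^ α) := Nat.Coprime.pow _ _ hy3
    rw [← h0, Nat.coprime_self] at h2
    have := Nat.one_lt_pow hβ.ne' (show 1 < y by omega)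
    omega)
  push_cast at h1
  rw [log_pow, log_pow] at h1
  refine le_trans ?_ h1
  rw [← exp_log (show (0 : ℝ) < 1 / (y ^ β * 3 ^ α) by positivity), exp_le_exp, one_div, log_inv,
    log_mul (by positivity) (by positivity), log_pow, log_pow]
  linarith [(abs_le.mp h).1]

theorem exists_dirichlet (y β0 : ℕ) (hy : 2 ≤ y) (hβ0 : 0 < β0) :
    ∃ α β : ℕ, 0 < β ∧ β ≤ β0 ∧ |β * log y - α * log 3| ≤ log 3 / (β0 + 1) := by
  have h3 : 0 < log 3 := log_pos (by norm_num)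
  have hA : 0 ≤ log (y : ℝ) := log_nonneg (by exact_mod_cast (show 1 ≤ y by omega))
  obtain ⟨β, h1, h2, h4⟩ := exists_nat_abs_mul_sub_round_le (log y / log 3) hβ0
  obtain ⟨α, hα⟩ := Int.eq_ofNat_of_zero_le (show 0 ≤ round (β * (log y / log 3)) by
    rw [round_eq]
    exact Int.floor_nonneg.mpr (by positivity))
  refine ⟨α, β, h1, h2, ?_⟩
  rw [hα] at h4
  have h5 : β * log y - α * log 3 = (β * (log y / log 3) - ((α : ℤ) : ℝ)) * log 3 := by
    push_cast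
    field_simp
  rw [h5, abs_mul, abs_of_pos h3, div_eq_mul_one_div (log 3), mul_comm (log 3)]
  exact mul_le_mul_of_nonneg_right h4 h3.le

theorem arch_gen (y c m q : ℕ) (hy : 2 ≤ y) (hy3 : Nat.Coprime y 3) (hc1 : 1 ≤ c) (hc2 : c ≤ 2)
    (hq : q.Prime) (Z : ℝ) (hZ : Z ^ 3 = q) (S θ : ℕ)
    (Z0 L0 L1 Smin SA γ b0 t φ1 sig w h1 p1 K0 l0 mm f : ℝ)
    (hZ0 : Z0 ≤ Z) (h10 : 10 ≤ Z0) (hL0 : L0 ≤ log Z0) (hL1 : log Z0 ≤ L1)
    (hS1 : Smin ≤ S) (hSm : 1 ≤ Smin) (hS2 : log y ≤ γ * S) (hS3 : S ≤ SA * log y)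
    (hθ : 2 < θ) (hθ1 : θ ≤ 450) (hθ2 : (θ : ℝ) ^ 2 ≤ 4.5 ^ 2 * Z0 * Smin)
    (hb0 : 1 ≤ b0) (hb1 : b0 ≤ 3) (ht : 0 < t) (hφ0 : 0 < φ1)
    (hφ : φ1 ≤ (θ - 2) / (2 * θ) - 1 / (4.5 * Z0 ^ 2 * Smin))
    (hsig : 1 ≤ sig * (φ1 * 4.5)) (hw : 1.0987 * sig ≤ w * (2 * b0))
    (hh1 : log (sig / 4) ≤ h1) (hp1 : log (w / (8 * t)) + 1 / 2 ≤ -p1)
    (hK1 : 1 ≤ K0) (hK0 : K0 ≤ φ1 * (4.5 * Z0 ^ 2 * Smin)) (hl0 : log K0 ≤ l0) (hl1 : 1 ≤ l0)
    (hquad : ∀ x : ℝ, -L0 * (1 - x) ^ 2 - p1 * x ^ 2 + t * x +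
      0.2232 * (((1 - x) ^ 2 + x ^ 2) / 2) + 5 * (w / Z0) * (3 - 2 * x) - 2 * (1 - x) ≤ -mm)
    (hfin : h1 + 3 / 2 + w / Z0 + γ * (1 + 1 / 450 ^ 2) / (4 * φ1 ^ 2) +
      0.6932 * b0 * sig / (4 * φ1) * (1 + 1 / Smin ^ 2) +
      (5 * l0 + 7.5 + 5 * (w / Z0)) / K0 < mm)
    (hf : (2 * L1 + 2) * ((θ - 2) / (2 * θ)) * 4.51 * SA ≤ f * Z0) (hf2 : 0.61 ≤ f)
    (Λ : ℝ) (hΛ : Λ = q * log y - m * log 3 - log c) (hΛ0 : 0 ≤ Λ)
    (hsmall : q * S * Λ ≤ exp (-(f * (q * log y)))) : False := by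
  have hZ10 : 10 ≤ Z := h10.trans hZ0
  have hZp : 0 < Z := by linarith
  have hZ2 : 100 ≤ Z ^ 2 := by nlinarith
  have hZ02 : Z0 ^ 2 ≤ Z ^ 2 := by gcongr
  have hq10 : 10 * Z ^ 2 ≤ q := by rw [← hZ]; nlinarith
  have hA : 0.69 ≤ log (y : ℝ) := by
    have := log_le_log (by norm_num) (show (2 : ℝ) ≤ y by exact_mod_cast hy)
    linarith [log_two_gt_d9]
  have hl3 := log_three_lt_d9
  have hl3' := log_three_gt_d9
  have hS : (1 : ℝ) ≤ S := hSm.trans hS1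
  have hθ' : (2 : ℝ) < θ := by exact_mod_cast hθ
  have hsig0 : 0 < sig := pos_of_mul_pos_left (show 0 < sig * (φ1 * 4.5) by linarith)
    (by positivity)
  have hw0 : 0 < w := pos_of_mul_pos_left (show 0 < w * (2 * b0) by linarith) (by linarith)
  obtain ⟨R, hR1, hR2⟩ : ∃ R : ℕ, 4.5 * Z ^ 2 ≤ R ∧ (R : ℝ) ≤ 4.51 * Z ^ 2 :=
    ⟨⌈4.5 * Z ^ 2⌉₊, Nat.le_ceil _, by
      have := Nat.ceil_lt_add_one (show 0 ≤ 4.5 * Z ^ 2 by positivity)
      linarith⟩
  obtain ⟨β0, hβ1, hβ2⟩ : ∃ β0 : ℕ, β0 ≤ b0 * Z ^ 2 ∧ b0 * Z ^ 2 < β0 + 1 :=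
    ⟨⌊b0 * Z ^ 2⌋₊, Nat.floor_le (by positivity), Nat.lt_floor_add_one _⟩
  have hβ3 : (β0 : ℝ) ≤ 3 * Z ^ 2 := by nlinarith
  have hβ0 : 0 < β0 := by
    have : (0 : ℝ) < β0 := by nlinarith
    exact_mod_cast this
  have hRq : R ≤ q := by
    have : (R : ℝ) ≤ q := by linarith
    exact_mod_cast this
  obtain ⟨K, R1, U1, k1, k2, k3, k4, k5, k6⟩ := exists_params q R S θ hq.pos hθ (by
      have : (θ : ℝ) ≤ R := by
        have : (θ : ℝ) ≤ 450 := by exact_mod_cast hθ1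
        linarith
      exact_mod_cast this) (by
      have : (θ : ℝ) ^ 2 * q ≤ R ^ 2 * S := by
        calc (θ : ℝ) ^ 2 * q ≤ 4.5 ^ 2 * Z * S * Z ^ 3 := by
              rw [hZ]
              refine mul_le_mul_of_nonneg_right (hθ2.trans ?_) (by positivity)
              gcongr
          _ = (4.5 * Z ^ 2) ^ 2 * S := by ring
          _ ≤ _ := by gcongr
      exact_mod_cast this)
  have k5' : (K : ℝ) ≤ (θ - 2) / (2 * θ) * (R * S) := by
    have : 2 * (θ : ℝ) * K ≤ (θ - 2) * (R * S) := by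
      have h := (Nat.cast_le (α := ℝ)).mpr k5
      push_cast [Nat.cast_sub hθ.le] at h
      exact h
    rw [div_mul_eq_mul_div, le_div_iff₀ (by positivity)]
    linarith
  have hRS : 4.5 * Z0 ^ 2 * Smin ≤ R * S :=
    mul_le_mul (by linarith) hS1 (by linarith) (by positivity)
  have k6' : φ1 * (R * S) ≤ K := by
    have h2 : ((θ : ℝ) - 2) * (R * S) ≤ 2 * θ * (K + 1) := by
      have h := (Nat.cast_le (α := ℝ)).mpr k6.le
      push_cast [Nat.cast_sub hθ.le] at h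
      exact h
    have h3 : (θ - 2) / (2 * θ) * ((R : ℝ) * S) ≤ K + 1 := by
      rw [div_mul_eq_mul_div, div_le_iff₀ (by positivity)]
      linarith
    have h4 : 1 ≤ 1 / (4.5 * Z0 ^ 2 * Smin) * ((R : ℝ) * S) := by
      rw [div_mul_eq_mul_div, le_div_iff₀ (by positivity)]
      linarith
    have h5 := mul_le_mul_of_nonneg_right hφ (show 0 ≤ (R : ℝ) * S by positivity)
    linarith
  have hKK : K0 ≤ K := hK0.trans ((mul_le_mul_of_nonneg_left hRS hφ0.le).trans k6')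
  have hK1' : (1 : ℝ) ≤ K := hK1.trans hKK
  have hsigK : S * Z ^ 2 ≤ sig * K := by
    calc (S : ℝ) * Z ^ 2 ≤ sig * (φ1 * 4.5) * (S * Z ^ 2) :=
          le_mul_of_one_le_left (by positivity) hsig
      _ = sig * (φ1 * (4.5 * Z ^ 2 * S)) := by ring
      _ ≤ sig * (φ1 * (R * S)) := by gcongr
      _ ≤ _ := by gcongr
  obtain ⟨α, β, hβ, hββ, hτ⟩ := exists_dirichlet y β0 hy hβ0
  have hββ' : (β : ℝ) ≤ β0 := by exact_mod_cast hββ
  have hβq : β < q := by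
    have : (β : ℝ) < q := by linarith
    exact_mod_cast this
  have hτ2 := tau_lower y α β hy hy3 hβ (hτ.trans (div_le_self (by linarith) (by linarith)))
  have hqA : 0 ≤ q * log y := by positivity
  have hEK : (2 * log Z + 2) * K ≤ f * (q * log y) := by
    have e1 := log_le_mul Z Z0 (log Z0) (by linarith) hZ0 le_rfl (by
      have := log_le_log (by norm_num) (show (3 : ℝ) ≤ Z0 by linarith)
      linarith)
    have e2 : 2 * log Z + 2 ≤ (2 * L1 + 2) / Z0 * Z := by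
      have e3 : log Z0 / Z0 * Z ≤ L1 / Z0 * Z := by gcongr
      have e4 : 1 ≤ Z / Z0 := by rw [le_div_iff₀ (by linarith)]; linarith
      have e5 : (2 * L1 + 2) / Z0 * Z = 2 * (L1 / Z0 * Z) + 2 * (Z / Z0) := by ring
      linarith
    have e0 : 0 ≤ (θ - 2) / (2 * (θ : ℝ)) := div_nonneg (by linarith) (by linarith)
    have e3 : (K : ℝ) ≤ (θ - 2) / (2 * θ) * (4.51 * Z ^ 2 * (SA * log y)) := by
      refine k5'.trans (mul_le_mul_of_nonneg_left ?_ e0)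
      exact mul_le_mul hR2 hS3 (by positivity) (by positivity)
    have e4 : 0 ≤ log Z := log_nonneg (by linarith)
    calc (2 * log Z + 2) * K ≤ (2 * L1 + 2) / Z0 * Z *
          ((θ - 2) / (2 * θ) * (4.51 * Z ^ 2 * (SA * log y))) :=
          mul_le_mul e2 e3 (by positivity) (by linarith)
      _ = (2 * L1 + 2) * ((θ - 2) / (2 * θ)) * 4.51 * SA / Z0 * (Z ^ 3 * log y) := by ring
      _ ≤ _ := by
          rw [hZ]
          refine mul_le_mul_of_nonneg_right ?_ hqA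
          rw [div_le_iff₀ (by linarith)]
          exact hf
  have hε1 : exp (-(f * (q * log y))) ≤ 1 := exp_le_one_iff.mpr (by
    have : 0 ≤ f * (q * log y) := mul_nonneg (by linarith) hqA
    linarith)
  have main := arch_core y c m q α β β0 R S K R1 U1 (by omega) hc1 hc2 hβ hββ
    ((Nat.coprime_comm.mp ((Nat.Prime.coprime_iff_not_dvd hq).mpr
      (Nat.not_dvd_of_pos_of_lt hβ hβq)))) hRq (by omega) k4 k1 (by exact_mod_cast hK1') k2
    Λ _ (exp (-(f * (q * log y)))) (w * K / Z) 4 (t * K) (2 * log Z + 2) _ hΛ hΛ0 rfl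
    (le_trans (mul_le_mul_of_nonneg_right (mul_le_mul_of_nonneg_right (by linarith)
      (by positivity)) hΛ0) hsmall)
    (lt_of_lt_of_le (exp_lt_exp.mpr (by
      have e1 : 0.61 * (q * log y) ≤ f * (q * log y) := by gcongr
      have e2 : 10 * Z ^ 2 * log y ≤ q * log y := by gcongr
      have e3 : β * log y ≤ 3 * Z ^ 2 * log y := by gcongr; linarith
      have e4 : 100 * 0.69 ≤ Z ^ 2 * log y := by gcongr
      linarith)) hτ2)
    (exp_le_exp.mpr (by linarith))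
    (by
      have e1 : (θ - 2) / (2 * (θ : ℝ)) ≤ 1 / 2 := by
        rw [div_le_div_iff₀ (by linarith) (by norm_num)]; linarith
      have e2 := mul_le_mul_of_nonneg_right e1 (show 0 ≤ (R : ℝ) * S by positivity)
      have e3 : 2 * (R : ℝ) * S ≤ q * S := by gcongr; linarith
      linarith)
    (by
      refine (mul_le_mul_of_nonneg_right hτ (by positivity)).trans ?_
      have e1 : log 3 / (β0 + 1) ≤ 1.0987 / (b0 * Z ^ 2) := by
        gcongr
        linarith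
      refine (mul_le_mul_of_nonneg_right e1 (by positivity)).trans ?_
      rw [← hZ, le_div_iff₀ hZp]
      have e2 : 1.0987 / (b0 * Z ^ 2) * (Z ^ 3 * S / 2) * Z = 1.0987 * (S * Z ^ 2) / (2 * b0) := by
        field_simp
      rw [e2, div_le_iff₀ (by linarith)]
      have e3 := mul_le_mul_of_nonneg_right hw (show (0 : ℝ) ≤ K by linarith)
      linarith)
    (by norm_num) (by positivity)
    (fun e _ he => by
      rw [← hZ]
      exact FF_le K S Z Z0 L0 sig w t h1 p1 mm (by linarith) (by linarith) (by linarith) hZ0 hw0 ht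
        hL0 hsigK hh1 hp1 hquad e he)
  have hRS2 : (R : ℝ) * S ≤ K / φ1 := by rw [le_div_iff₀ hφ0]; linarith
  have hγ : 0 < γ := pos_of_mul_pos_left (show 0 < γ * S by linarith) (by linarith)
  have c1 : w * K / Z ≤ w / Z0 * K := by
    rw [div_mul_eq_mul_div]
    gcongr
  have c2 : S * ((R : ℝ) ^ 2 + 1) / 4 * log y ≤ γ * (1 + 1 / 450 ^ 2) / (4 * φ1 ^ 2) * K ^ 2 := by
    have e1 : (R : ℝ) ^ 2 + 1 ≤ R ^ 2 * (1 + 1 / 450 ^ 2) := by
      have : (450 : ℝ) ^ 2 ≤ R ^ 2 := by gcongr; linarith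
      linarith
    calc S * ((R : ℝ) ^ 2 + 1) / 4 * log y ≤ S * (R ^ 2 * (1 + 1 / 450 ^ 2)) / 4 * (γ * S) := by
          gcongr
      _ = γ * (1 + 1 / 450 ^ 2) / 4 * (R * S) ^ 2 := by ring
      _ ≤ γ * (1 + 1 / 450 ^ 2) / 4 * (K / φ1) ^ 2 := by gcongr
      _ = _ := by field_simp
  have c3 : R * β0 * ((S : ℝ) ^ 2 + 1) / 4 * log 2 ≤
      0.6932 * b0 * sig / (4 * φ1) * (1 + 1 / Smin ^ 2) * K ^ 2 := by
    have e1 : (S : ℝ) ^ 2 + 1 ≤ S ^ 2 * (1 + 1 / Smin ^ 2) := by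
      have : 1 ≤ (S : ℝ) ^ 2 * (1 / Smin ^ 2) := by
        rw [mul_one_div, le_div_iff₀ (by positivity), one_mul]
        gcongr
      linarith
    have e2 : log 2 ≤ 0.6932 := by linarith [log_two_lt_d9]
    have e3 := log_nonneg (show (1 : ℝ) ≤ 2 by norm_num)
    calc R * β0 * ((S : ℝ) ^ 2 + 1) / 4 * log 2 ≤
          R * (b0 * Z ^ 2) * (S ^ 2 * (1 + 1 / Smin ^ 2)) / 4 * 0.6932 := by gcongr
      _ = 0.6932 * b0 / 4 * (1 + 1 / Smin ^ 2) * ((R * S) * (S * Z ^ 2)) := by ring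
      _ ≤ 0.6932 * b0 / 4 * (1 + 1 / Smin ^ 2) * ((K / φ1) * (sig * K)) := by gcongr
      _ = _ := by field_simp
  have c4 : 5 * log K + 7.5 + 5 * (w / Z0) ≤ (5 * l0 + 7.5 + 5 * (w / Z0)) / K0 * K := by
    have e1 := log_le_mul K K0 l0 (by linarith) hKK hl0 hl1
    have e2 : 1 ≤ K / K0 := by rw [le_div_iff₀ (by linarith)]; linarith
    have e3 : 0 ≤ 7.5 + 5 * (w / Z0) := by positivity
    have e4 := le_mul_of_one_le_right e3 e2
    have e5 : (5 * l0 + 7.5 + 5 * (w / Z0)) / K0 * K =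
        5 * (l0 / K0 * K) + (7.5 + 5 * (w / Z0)) * (K / K0) := by ring
    linarith
  have d1 := mul_le_mul_of_nonneg_left c1 (show (0 : ℝ) ≤ K by linarith)
  have d2 := mul_le_mul_of_nonneg_left hε1 (show (0 : ℝ) ≤ K by linarith)
  have d4 := mul_le_mul_of_nonneg_left c4 (show (0 : ℝ) ≤ K by linarith)
  have d5 := mul_lt_mul_of_pos_left hfin (show (0 : ℝ) < K ^ 2 by positivity)
  linarith

end Pool.Agent.Lib.MP_93b520_nt
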