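import Mathlib

/-!
The finite check: `q`-th roots modulo `3 ^ 44` of numbers with at most two nonzero digits.
-/

set_option autoImplicit false

namespace Pool.Agent.Lib.MP_93b520_nt

/-- Evaluate `x` before passing it to `f`. -/
noncomputable def force (x : ℕ) (f : ℕ → Bool) : Bool :=
  Nat.rec (motive := fun _ => Bool) (f 0) (fun n _ => f (Nat.succ n)) x

theorem force_eq (x : ℕ) (f : ℕ → Bool) : force x f = f x := by
  cases x <;> rfl

/-- Bounded conjunction. -/
noncomputable def allB (n : ℕ) (f : ℕ → Bool) : Bool :=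
  Nat.rec (motive := fun _ => Bool) true (fun i ih => (f i).and ih) n

theorem allB_spec (n : ℕ) (f : ℕ → Bool) (h : allB n f = true) : ∀ i < n, f i = true := by
  induction n with
  | zero => intro i hi; omega
  | succ n ih =>
    have h1 : (f n).and (allB n f) = true := h
    rw [Bool.and_eq_true] at h1
    intro i hi
    rcases Nat.lt_succ_iff_lt_or_eq.mp hi with h2 | h2
    · exact ih h1.2 i h2
    · rw [h2]; exact h1.1

/-- Modular power by windows of six bits. -/
noncomputable def pm (M D : ℕ) (n : ℕ) : ℕ → ℕ :=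
  Nat.rec (motive := fun _ => ℕ → ℕ) (fun _ => 1)
    (fun _ ih e => Nat.mod (Nat.mul (Nat.pow (ih (Nat.shiftRight e 6)) 64)
      (Nat.pow D (Nat.land e 63))) M) n

theorem pm_spec (M D n e : ℕ) (he : e < 64 ^ n) : pm M D n e ≡ D ^ e [MOD M] := by
  induction n generalizing e with
  | zero =>
    obtain rfl : e = 0 := by omega
    exact Nat.ModEq.refl _
  | succ n ih =>
    have h1 : pm M D (n + 1) e = (pm M D n (e >>> 6) ^ 64 * D ^ (e &&& (2 ^ 6 - 1))) % M := rfl
    rw [h1, Nat.shiftRight_eq_div_pow, Nat.and_two_pow_sub_one_eq_mod]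
    refine (Nat.mod_modEq _ _).trans ?_
    have h2 := ih (e / 2 ^ 6) (by rw [pow_succ] at he; omega)
    refine ((h2.pow 64).mul_right _).trans ?_
    rw [← pow_mul, ← pow_add, show e / 2 ^ 6 * 64 + e % 2 ^ 6 = e by omega]

/-- The root of `D` is large. -/
noncomputable def big (e D : ℕ) : Bool :=
  force D fun D => Nat.ble 22876792454961 (pm 984770902183611232881 D 12 e)

/-- The check for one exponent. -/
noncomputable def chk (q : ℕ) : Bool :=
  force (pm 656513934789074155254 q 12 218837978263024718417) fun e =>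
    (Nat.beq (Nat.mod (Nat.mul q e) 656513934789074155254) 1).and
      ((Nat.ble e 656513934789074155254).and ((big e 2).and (allB 43 fun k =>
        force (Nat.pow 3 (Nat.succ k)) fun t => (big e (Nat.add 1 t)).and ((big e (Nat.add 2 t)).and
          ((big e (Nat.add 1 (Nat.mul 2 t))).and (big e (Nat.add 2 (Nat.mul 2 t))))))))

/-- The check for one exponent without small prime factors. -/
noncomputable def chk1 (q : ℕ) : Bool :=
  force q fun q => Bool.rec (motive := fun _ => Bool) true (chk q) (Nat.beq (Nat.gcd q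
    5766152219975951659023630035336134306565384015606066319856068810) 1)

/-- The check for a range of exponents. -/
noncomputable def chkR (a n : ℕ) : Bool :=
  allB n fun i => allB 50 fun j => chk1 (Nat.add a (Nat.add (Nat.mul 50 i) j))

theorem root_eq (y q e M D : ℕ) (hy : Nat.Coprime y M)
    (he : q * e % M.totient = 1) (h : y ^ q ≡ D [MOD M]) : y ≡ D ^ e [MOD M] := by
  have h2 := h.pow e
  rw [← pow_mul, ← Nat.div_add_mod (q * e) M.totient, he, pow_add, pow_mul, pow_one] at h2
  have h3 := ((Nat.ModEq.pow_totient hy).pow (q * e / M.totient)).mul_right y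
  rw [one_pow, one_mul] at h3
  exact h3.symm.trans h2

theorem big_spec (y q e D : ℕ) (hy : Nat.Coprime y 3) (he : q * e % 656513934789074155254 = 1)
    (he2 : e ≤ 656513934789074155254) (hb : big e D = true) (h : y ^ q ≡ D [MOD 3 ^ 44]) :
    3 ^ 28 ≤ y := by
  have ht : (3 ^ 44).totient = 656513934789074155254 := by
    rw [Nat.totient_prime_pow Nat.prime_three (by norm_num)]
    norm_num
  have h1 := root_eq y q e (3 ^ 44) D (hy.pow_right _) (by rw [ht]; exact he) h
  rw [big, force_eq, Nat.ble_eq] at hb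
  have h2 := pm_spec 984770902183611232881 D 12 e (by omega)
  have h3 : pm 984770902183611232881 D 12 e < 984770902183611232881 :=
    Nat.mod_lt _ (by norm_num)
  have h4 : y % 984770902183611232881 = pm 984770902183611232881 D 12 e := by
    rw [← Nat.mod_eq_of_lt h3]
    exact Nat.ModEq.trans h1 h2.symm
  have h5 := Nat.mod_le y 984770902183611232881
  omega

theorem chk_spec (y q : ℕ) (hy : Nat.Coprime y 3) (hc : chk q = true) :
    (y ^ q ≡ 2 [MOD 3 ^ 44] → 3 ^ 28 ≤ y) ∧ ∀ a b k, (a = 1 ∨ a = 2) → (b = 1 ∨ b = 2) →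
      0 < k → k < 44 → y ^ q ≡ a + b * 3 ^ k [MOD 3 ^ 44] → 3 ^ 28 ≤ y := by
  rw [chk, force_eq] at hc
  generalize pm 656513934789074155254 q 12 218837978263024718417 = e at hc
  simp only [Bool.and_eq_true, Nat.beq_eq, Nat.ble_eq] at hc
  obtain ⟨h1, h2, h3, h4⟩ := hc
  refine ⟨big_spec y q e 2 hy h1 h2 h3, fun a b k ha hb hk0 hk => ?_⟩
  obtain ⟨k, rfl⟩ := Nat.exists_eq_succ_of_ne_zero hk0.ne'
  have h5 := allB_spec _ _ h4 k (by omega)
  rw [force_eq] at h5
  simp only [Bool.and_eq_true] at h5
  obtain ⟨a1, a2, a3, a4⟩ := h5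
  rcases ha with rfl | rfl <;> rcases hb with rfl | rfl
  · rw [one_mul]; exact big_spec y q e _ hy h1 h2 a1
  · exact big_spec y q e _ hy h1 h2 a3
  · rw [one_mul]; exact big_spec y q e _ hy h1 h2 a2
  · exact big_spec y q e _ hy h1 h2 a4

theorem chkR_spec (a n q : ℕ) (h : chkR a n = true) (hq : q.Prime) (h0 : 164 < q) (h1 : a ≤ q)
    (h2 : q < a + 50 * n) : chk q = true := by
  have h3 := allB_spec _ _ (allB_spec _ _ h ((q - a) / 50) (by omega)) ((q - a) % 50) (by omega)
  have h4 : Nat.add a (Nat.add (Nat.mul 50 ((q - a) / 50)) ((q - a) % 50)) = q := by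
    simp only [Nat.add_eq, Nat.mul_eq]
    omega
  have h5 : Nat.gcd q 5766152219975951659023630035336134306565384015606066319856068810 = 1 := by
    refine (Nat.Prime.coprime_iff_not_dvd hq).mpr fun hd => ?_
    have h6 : 5766152219975951659023630035336134306565384015606066319856068810 ∣
        Nat.factorial 164 := Nat.dvd_of_mod_eq_zero (by decide +kernel)
    have := (hq.dvd_factorial).mp (hd.trans h6)
    omega
  rw [h4, chk1, force_eq, h5] at h3
  exact h3

/-- All primes in an interval pass the check. -/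
def Good (a b : ℕ) : Prop := ∀ q : ℕ, q.Prime → 164 < q → a ≤ q → q < b → chk q = true

theorem Good.step {a : ℕ} (b c : ℕ) (h : Good a b) (h1 : chkR b 2 = true) (h2 : c = b + 100) :
    Good a c := by
  intro q hq h0 ha hc
  by_cases hb : q < b
  · exact h q hq h0 ha hb
  · exact chkR_spec b 2 q h1 hq h0 (by omega) (by omega)

theorem Good.start (a : ℕ) : Good a a := fun q _ _ h1 h2 => by omega

end Pool.Agent.Lib.MP_93b520_nt
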