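import Pool.Agent.Lib.MP_93b520_nt.Check

/-!
The finite check, part 1.
-/

set_option autoImplicit false

namespace Pool.Agent.Lib.MP_93b520_nt

theorem chk_part0 : Good 1000 7500 := by
  have h := Good.start 1000
  replace h := h.step 1000 1100 (by decide +kernel) rfl
  replace h := h.step 1100 1200 (by decide +kernel) rfl
  replace h := h.step 1200 1300 (by decide +kernel) rfl
  replace h := h.step 1300 1400 (by decide +kernel) rfl
  replace h := h.step 1400 1500 (by decide +kernel) rfl
  replace h := h.step 1500 1600 (by decide +kernel) rfl
  replace h := h.step 1600 1700 (by decide +kernel) rfl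
  replace h := h.step 1700 1800 (by decide +kernel) rfl
  replace h := h.step 1800 1900 (by decide +kernel) rfl
  replace h := h.step 1900 2000 (by decide +kernel) rfl
  replace h := h.step 2000 2100 (by decide +kernel) rfl
  replace h := h.step 2100 2200 (by decide +kernel) rfl
  replace h := h.step 2200 2300 (by decide +kernel) rfl
  replace h := h.step 2300 2400 (by decide +kernel) rfl
  replace h := h.step 2400 2500 (by decide +kernel) rfl
  replace h := h.step 2500 2600 (by decide +kernel) rfl
  replace h := h.step 2600 2700 (by decide +kernel) rfl
  replace h := h.step 2700 2800 (by decide +kernel) rfl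
  replace h := h.step 2800 2900 (by decide +kernel) rfl
  replace h := h.step 2900 3000 (by decide +kernel) rfl
  replace h := h.step 3000 3100 (by decide +kernel) rfl
  replace h := h.step 3100 3200 (by decide +kernel) rfl
  replace h := h.step 3200 3300 (by decide +kernel) rfl
  replace h := h.step 3300 3400 (by decide +kernel) rfl
  replace h := h.step 3400 3500 (by decide +kernel) rfl
  replace h := h.step 3500 3600 (by decide +kernel) rfl
  replace h := h.step 3600 3700 (by decide +kernel) rfl
  replace h := h.step 3700 3800 (by decide +kernel) rfl
  replace h := h.step 3800 3900 (by decide +kernel) rfl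
  replace h := h.step 3900 4000 (by decide +kernel) rfl
  replace h := h.step 4000 4100 (by decide +kernel) rfl
  replace h := h.step 4100 4200 (by decide +kernel) rfl
  replace h := h.step 4200 4300 (by decide +kernel) rfl
  replace h := h.step 4300 4400 (by decide +kernel) rfl
  replace h := h.step 4400 4500 (by decide +kernel) rfl
  replace h := h.step 4500 4600 (by decide +kernel) rfl
  replace h := h.step 4600 4700 (by decide +kernel) rfl
  replace h := h.step 4700 4800 (by decide +kernel) rfl
  replace h := h.step 4800 4900 (by decide +kernel) rfl
  replace h := h.step 4900 5000 (by decide +kernel) rfl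
  replace h := h.step 5000 5100 (by decide +kernel) rfl
  replace h := h.step 5100 5200 (by decide +kernel) rfl
  replace h := h.step 5200 5300 (by decide +kernel) rfl
  replace h := h.step 5300 5400 (by decide +kernel) rfl
  replace h := h.step 5400 5500 (by decide +kernel) rfl
  replace h := h.step 5500 5600 (by decide +kernel) rfl
  replace h := h.step 5600 5700 (by decide +kernel) rfl
  replace h := h.step 5700 5800 (by decide +kernel) rfl
  replace h := h.step 5800 5900 (by decide +kernel) rfl
  replace h := h.step 5900 6000 (by decide +kernel) rfl
  replace h := h.step 6000 6100 (by decide +kernel) rfl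
  replace h := h.step 6100 6200 (by decide +kernel) rfl
  replace h := h.step 6200 6300 (by decide +kernel) rfl
  replace h := h.step 6300 6400 (by decide +kernel) rfl
  replace h := h.step 6400 6500 (by decide +kernel) rfl
  replace h := h.step 6500 6600 (by decide +kernel) rfl
  replace h := h.step 6600 6700 (by decide +kernel) rfl
  replace h := h.step 6700 6800 (by decide +kernel) rfl
  replace h := h.step 6800 6900 (by decide +kernel) rfl
  replace h := h.step 6900 7000 (by decide +kernel) rfl
  replace h := h.step 7000 7100 (by decide +kernel) rfl
  replace h := h.step 7100 7200 (by decide +kernel) rfl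
  replace h := h.step 7200 7300 (by decide +kernel) rfl
  replace h := h.step 7300 7400 (by decide +kernel) rfl
  replace h := h.step 7400 7500 (by decide +kernel) rfl
  exact h

end Pool.Agent.Lib.MP_93b520_nt
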