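import Pool.Agent.Lib.MP_93b520_nt.Check

/-!
The finite check, part 2.
-/

set_option autoImplicit false

namespace Pool.Agent.Lib.MP_93b520_nt

theorem chk_part1 : Good 7500 14000 := by
  have h := Good.start 7500
  replace h := h.step 7500 7600 (by decide +kernel) rfl
  replace h := h.step 7600 7700 (by decide +kernel) rfl
  replace h := h.step 7700 7800 (by decide +kernel) rfl
  replace h := h.step 7800 7900 (by decide +kernel) rfl
  replace h := h.step 7900 8000 (by decide +kernel) rfl
  replace h := h.step 8000 8100 (by decide +kernel) rfl
  replace h := h.step 8100 8200 (by decide +kernel) rfl
  replace h := h.step 8200 8300 (by decide +kernel) rfl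
  replace h := h.step 8300 8400 (by decide +kernel) rfl
  replace h := h.step 8400 8500 (by decide +kernel) rfl
  replace h := h.step 8500 8600 (by decide +kernel) rfl
  replace h := h.step 8600 8700 (by decide +kernel) rfl
  replace h := h.step 8700 8800 (by decide +kernel) rfl
  replace h := h.step 8800 8900 (by decide +kernel) rfl
  replace h := h.step 8900 9000 (by decide +kernel) rfl
  replace h := h.step 9000 9100 (by decide +kernel) rfl
  replace h := h.step 9100 9200 (by decide +kernel) rfl
  replace h := h.step 9200 9300 (by decide +kernel) rfl
  replace h := h.step 9300 9400 (by decide +kernel) rfl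
  replace h := h.step 9400 9500 (by decide +kernel) rfl
  replace h := h.step 9500 9600 (by decide +kernel) rfl
  replace h := h.step 9600 9700 (by decide +kernel) rfl
  replace h := h.step 9700 9800 (by decide +kernel) rfl
  replace h := h.step 9800 9900 (by decide +kernel) rfl
  replace h := h.step 9900 10000 (by decide +kernel) rfl
  replace h := h.step 10000 10100 (by decide +kernel) rfl
  replace h := h.step 10100 10200 (by decide +kernel) rfl
  replace h := h.step 10200 10300 (by decide +kernel) rfl
  replace h := h.step 10300 10400 (by decide +kernel) rfl
  replace h := h.step 10400 10500 (by decide +kernel) rfl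
  replace h := h.step 10500 10600 (by decide +kernel) rfl
  replace h := h.step 10600 10700 (by decide +kernel) rfl
  replace h := h.step 10700 10800 (by decide +kernel) rfl
  replace h := h.step 10800 10900 (by decide +kernel) rfl
  replace h := h.step 10900 11000 (by decide +kernel) rfl
  replace h := h.step 11000 11100 (by decide +kernel) rfl
  replace h := h.step 11100 11200 (by decide +kernel) rfl
  replace h := h.step 11200 11300 (by decide +kernel) rfl
  replace h := h.step 11300 11400 (by decide +kernel) rfl
  replace h := h.step 11400 11500 (by decide +kernel) rfl
  replace h := h.step 11500 11600 (by decide +kernel) rfl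
  replace h := h.step 11600 11700 (by decide +kernel) rfl
  replace h := h.step 11700 11800 (by decide +kernel) rfl
  replace h := h.step 11800 11900 (by decide +kernel) rfl
  replace h := h.step 11900 12000 (by decide +kernel) rfl
  replace h := h.step 12000 12100 (by decide +kernel) rfl
  replace h := h.step 12100 12200 (by decide +kernel) rfl
  replace h := h.step 12200 12300 (by decide +kernel) rfl
  replace h := h.step 12300 12400 (by decide +kernel) rfl
  replace h := h.step 12400 12500 (by decide +kernel) rfl
  replace h := h.step 12500 12600 (by decide +kernel) rfl
  replace h := h.step 12600 12700 (by decide +kernel) rfl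
  replace h := h.step 12700 12800 (by decide +kernel) rfl
  replace h := h.step 12800 12900 (by decide +kernel) rfl
  replace h := h.step 12900 13000 (by decide +kernel) rfl
  replace h := h.step 13000 13100 (by decide +kernel) rfl
  replace h := h.step 13100 13200 (by decide +kernel) rfl
  replace h := h.step 13200 13300 (by decide +kernel) rfl
  replace h := h.step 13300 13400 (by decide +kernel) rfl
  replace h := h.step 13400 13500 (by decide +kernel) rfl
  replace h := h.step 13500 13600 (by decide +kernel) rfl
  replace h := h.step 13600 13700 (by decide +kernel) rfl
  replace h := h.step 13700 13800 (by decide +kernel) rfl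
  replace h := h.step 13800 13900 (by decide +kernel) rfl
  replace h := h.step 13900 14000 (by decide +kernel) rfl
  exact h

end Pool.Agent.Lib.MP_93b520_nt
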