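import Pool.Agent.Lib.MP_93b520_nt.Check

/-!
The finite check, part 3.
-/

set_option autoImplicit false

namespace Pool.Agent.Lib.MP_93b520_nt

theorem chk_part2 : Good 14000 20500 := by
  have h := Good.start 14000
  replace h := h.step 14000 14100 (by decide +kernel) rfl
  replace h := h.step 14100 14200 (by decide +kernel) rfl
  replace h := h.step 14200 14300 (by decide +kernel) rfl
  replace h := h.step 14300 14400 (by decide +kernel) rfl
  replace h := h.step 14400 14500 (by decide +kernel) rfl
  replace h := h.step 14500 14600 (by decide +kernel) rfl
  replace h := h.step 14600 14700 (by decide +kernel) rfl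
  replace h := h.step 14700 14800 (by decide +kernel) rfl
  replace h := h.step 14800 14900 (by decide +kernel) rfl
  replace h := h.step 14900 15000 (by decide +kernel) rfl
  replace h := h.step 15000 15100 (by decide +kernel) rfl
  replace h := h.step 15100 15200 (by decide +kernel) rfl
  replace h := h.step 15200 15300 (by decide +kernel) rfl
  replace h := h.step 15300 15400 (by decide +kernel) rfl
  replace h := h.step 15400 15500 (by decide +kernel) rfl
  replace h := h.step 15500 15600 (by decide +kernel) rfl
  replace h := h.step 15600 15700 (by decide +kernel) rfl
  replace h := h.step 15700 15800 (by decide +kernel) rfl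
  replace h := h.step 15800 15900 (by decide +kernel) rfl
  replace h := h.step 15900 16000 (by decide +kernel) rfl
  replace h := h.step 16000 16100 (by decide +kernel) rfl
  replace h := h.step 16100 16200 (by decide +kernel) rfl
  replace h := h.step 16200 16300 (by decide +kernel) rfl
  replace h := h.step 16300 16400 (by decide +kernel) rfl
  replace h := h.step 16400 16500 (by decide +kernel) rfl
  replace h := h.step 16500 16600 (by decide +kernel) rfl
  replace h := h.step 16600 16700 (by decide +kernel) rfl
  replace h := h.step 16700 16800 (by decide +kernel) rfl
  replace h := h.step 16800 16900 (by decide +kernel) rfl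
  replace h := h.step 16900 17000 (by decide +kernel) rfl
  replace h := h.step 17000 17100 (by decide +kernel) rfl
  replace h := h.step 17100 17200 (by decide +kernel) rfl
  replace h := h.step 17200 17300 (by decide +kernel) rfl
  replace h := h.step 17300 17400 (by decide +kernel) rfl
  replace h := h.step 17400 17500 (by decide +kernel) rfl
  replace h := h.step 17500 17600 (by decide +kernel) rfl
  replace h := h.step 17600 17700 (by decide +kernel) rfl
  replace h := h.step 17700 17800 (by decide +kernel) rfl
  replace h := h.step 17800 17900 (by decide +kernel) rfl
  replace h := h.step 17900 18000 (by decide +kernel) rfl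
  replace h := h.step 18000 18100 (by decide +kernel) rfl
  replace h := h.step 18100 18200 (by decide +kernel) rfl
  replace h := h.step 18200 18300 (by decide +kernel) rfl
  replace h := h.step 18300 18400 (by decide +kernel) rfl
  replace h := h.step 18400 18500 (by decide +kernel) rfl
  replace h := h.step 18500 18600 (by decide +kernel) rfl
  replace h := h.step 18600 18700 (by decide +kernel) rfl
  replace h := h.step 18700 18800 (by decide +kernel) rfl
  replace h := h.step 18800 18900 (by decide +kernel) rfl
  replace h := h.step 18900 19000 (by decide +kernel) rfl
  replace h := h.step 19000 19100 (by decide +kernel) rfl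
  replace h := h.step 19100 19200 (by decide +kernel) rfl
  replace h := h.step 19200 19300 (by decide +kernel) rfl
  replace h := h.step 19300 19400 (by decide +kernel) rfl
  replace h := h.step 19400 19500 (by decide +kernel) rfl
  replace h := h.step 19500 19600 (by decide +kernel) rfl
  replace h := h.step 19600 19700 (by decide +kernel) rfl
  replace h := h.step 19700 19800 (by decide +kernel) rfl
  replace h := h.step 19800 19900 (by decide +kernel) rfl
  replace h := h.step 19900 20000 (by decide +kernel) rfl
  replace h := h.step 20000 20100 (by decide +kernel) rfl
  replace h := h.step 20100 20200 (by decide +kernel) rfl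
  replace h := h.step 20200 20300 (by decide +kernel) rfl
  replace h := h.step 20300 20400 (by decide +kernel) rfl
  replace h := h.step 20400 20500 (by decide +kernel) rfl
  exact h

end Pool.Agent.Lib.MP_93b520_nt
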