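import Pool.Agent.Lib.MP_93b520_nt.Check

/-!
The finite check, part 4.
-/

set_option autoImplicit false

namespace Pool.Agent.Lib.MP_93b520_nt

theorem chk_part3 : Good 20500 27000 := by
  have h := Good.start 20500
  replace h := h.step 20500 20600 (by decide +kernel) rfl
  replace h := h.step 20600 20700 (by decide +kernel) rfl
  replace h := h.step 20700 20800 (by decide +kernel) rfl
  replace h := h.step 20800 20900 (by decide +kernel) rfl
  replace h := h.step 20900 21000 (by decide +kernel) rfl
  replace h := h.step 21000 21100 (by decide +kernel) rfl
  replace h := h.step 21100 21200 (by decide +kernel) rfl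
  replace h := h.step 21200 21300 (by decide +kernel) rfl
  replace h := h.step 21300 21400 (by decide +kernel) rfl
  replace h := h.step 21400 21500 (by decide +kernel) rfl
  replace h := h.step 21500 21600 (by decide +kernel) rfl
  replace h := h.step 21600 21700 (by decide +kernel) rfl
  replace h := h.step 21700 21800 (by decide +kernel) rfl
  replace h := h.step 21800 21900 (by decide +kernel) rfl
  replace h := h.step 21900 22000 (by decide +kernel) rfl
  replace h := h.step 22000 22100 (by decide +kernel) rfl
  replace h := h.step 22100 22200 (by decide +kernel) rfl
  replace h := h.step 22200 22300 (by decide +kernel) rfl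
  replace h := h.step 22300 22400 (by decide +kernel) rfl
  replace h := h.step 22400 22500 (by decide +kernel) rfl
  replace h := h.step 22500 22600 (by decide +kernel) rfl
  replace h := h.step 22600 22700 (by decide +kernel) rfl
  replace h := h.step 22700 22800 (by decide +kernel) rfl
  replace h := h.step 22800 22900 (by decide +kernel) rfl
  replace h := h.step 22900 23000 (by decide +kernel) rfl
  replace h := h.step 23000 23100 (by decide +kernel) rfl
  replace h := h.step 23100 23200 (by decide +kernel) rfl
  replace h := h.step 23200 23300 (by decide +kernel) rfl
  replace h := h.step 23300 23400 (by decide +kernel) rfl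
  replace h := h.step 23400 23500 (by decide +kernel) rfl
  replace h := h.step 23500 23600 (by decide +kernel) rfl
  replace h := h.step 23600 23700 (by decide +kernel) rfl
  replace h := h.step 23700 23800 (by decide +kernel) rfl
  replace h := h.step 23800 23900 (by decide +kernel) rfl
  replace h := h.step 23900 24000 (by decide +kernel) rfl
  replace h := h.step 24000 24100 (by decide +kernel) rfl
  replace h := h.step 24100 24200 (by decide +kernel) rfl
  replace h := h.step 24200 24300 (by decide +kernel) rfl
  replace h := h.step 24300 24400 (by decide +kernel) rfl
  replace h := h.step 24400 24500 (by decide +kernel) rfl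
  replace h := h.step 24500 24600 (by decide +kernel) rfl
  replace h := h.step 24600 24700 (by decide +kernel) rfl
  replace h := h.step 24700 24800 (by decide +kernel) rfl
  replace h := h.step 24800 24900 (by decide +kernel) rfl
  replace h := h.step 24900 25000 (by decide +kernel) rfl
  replace h := h.step 25000 25100 (by decide +kernel) rfl
  replace h := h.step 25100 25200 (by decide +kernel) rfl
  replace h := h.step 25200 25300 (by decide +kernel) rfl
  replace h := h.step 25300 25400 (by decide +kernel) rfl
  replace h := h.step 25400 25500 (by decide +kernel) rfl
  replace h := h.step 25500 25600 (by decide +kernel) rfl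
  replace h := h.step 25600 25700 (by decide +kernel) rfl
  replace h := h.step 25700 25800 (by decide +kernel) rfl
  replace h := h.step 25800 25900 (by decide +kernel) rfl
  replace h := h.step 25900 26000 (by decide +kernel) rfl
  replace h := h.step 26000 26100 (by decide +kernel) rfl
  replace h := h.step 26100 26200 (by decide +kernel) rfl
  replace h := h.step 26200 26300 (by decide +kernel) rfl
  replace h := h.step 26300 26400 (by decide +kernel) rfl
  replace h := h.step 26400 26500 (by decide +kernel) rfl
  replace h := h.step 26500 26600 (by decide +kernel) rfl
  replace h := h.step 26600 26700 (by decide +kernel) rfl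
  replace h := h.step 26700 26800 (by decide +kernel) rfl
  replace h := h.step 26800 26900 (by decide +kernel) rfl
  replace h := h.step 26900 27000 (by decide +kernel) rfl
  exact h

end Pool.Agent.Lib.MP_93b520_nt
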