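import Mathlib
import Pool.Agent.Lib.MP_93b520_nt.ArchCore

/-!
The 3-adic interpolation determinant.
-/

set_option autoImplicit false

namespace Pool.Agent.Lib.MP_93b520_nt

open Finset Polynomial Real Pool.Agent.Lib.Common.TwoLogs

theorem padic_dvd {ι : Type} [Fintype ι] [DecidableEq ι] (k T : ℕ) (a : ι → ℕ → ℤ)
    (v : ℕ → ι → ℤ) (e : ι → ι → ℤ) (V : ℝ)
    (hV : ∀ n : ℝ, 0 ≤ n → n ≤ Fintype.card ι →
      V ≤ k * (Fintype.card ι - n) + 3 * (n * (n - 1) / 2)) :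
    (3 : ℤ) ^ ⌈V⌉₊ ∣ (Matrix.of fun p r =>
      ∑ n : Fin T, a p n * (27 ^ (n : ℕ) * v n r) + 3 ^ k * e p r).det := by
  let c : ι → Option (Fin T) → ℤ := fun p o => o.elim (3 ^ k) (fun n => a p n * 27 ^ (n : ℕ))
  let m : ι → Option (Fin T) → ι → ℤ := fun p o => o.elim (e p) (fun n => v n)
  have hM : (Matrix.of fun p r => ∑ n : Fin T, a p n * (27 ^ (n : ℕ) * v n r) + 3 ^ k * e p r) =
      Matrix.of (fun p => ∑ o, c p o • m p o) := by
    ext p r
    simp [c, m, Fintype.sum_option, add_comm, mul_assoc]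
  have hdet : (Matrix.of (fun p => ∑ o, c p o • m p o)).det =
      ∑ r : ι → Option (Fin T), (Matrix.of fun p => c p (r p) • m p (r p)).det :=
    (Matrix.detRowAlternating (n := ι) (R := ℤ)).toMultilinearMap.map_sum
      (fun p o => c p o • m p o)
  rw [hM, hdet]
  refine dvd_sum fun r _ => ?_
  have h2 : (Matrix.of fun p => c p (r p) • m p (r p)).det =
      (∏ p, c p (r p)) • (Matrix.of fun p => m p (r p)).det :=
    (Matrix.detRowAlternating (n := ι) (R := ℤ)).toMultilinearMap.map_smul_univ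
      (fun p => c p (r p)) (fun p => m p (r p))
  rw [h2, smul_eq_mul]
  by_cases hinj : ∃ p p' n, p ≠ p' ∧ r p = some n ∧ r p' = some n
  · obtain ⟨p, p', n, hne, hn, hn'⟩ := hinj
    rw [Matrix.det_zero_of_row_eq hne (by funext j; simp [m, hn, hn']), mul_zero]
    exact dvd_zero _
  · let W : ι → ℕ := fun p => (r p).elim k (fun n => 3 * n)
    have h1 : (3 : ℤ) ^ (∑ p, W p) ∣ ∏ p, c p (r p) := by
      rw [← prod_pow_eq_pow_sum]
      refine prod_dvd_prod_of_dvd _ _ fun p _ => ?_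
      rcases h : r p with _ | n
      · simp [c, W, h]
      · simp only [c, W, h, Option.elim_some, pow_mul]
        exact Dvd.intro_left (a p n) (by norm_num)
    refine Dvd.dvd.mul_right ((pow_dvd_pow _ ?_).trans h1) _
    rw [Nat.ceil_le]
    let I : Finset ι := univ.filter fun i => (r i).isSome
    let d : ι → ℕ := fun p => (r p).elim 0 (fun n => n)
    have hI : Set.InjOn d I := by
      intro i hi i' hi' hW
      by_contra hne
      obtain ⟨u, hu⟩ := Option.isSome_iff_exists.mp (mem_filter.mp hi).2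
      obtain ⟨u', hu'⟩ := Option.isSome_iff_exists.mp (mem_filter.mp hi').2
      have : u = u' := Fin.ext (by simpa [d, hu, hu'] using hW)
      exact hinj ⟨i, i', u, hne, hu, this ▸ hu'⟩
    have h2 := card_mul_le_two_mul_sum (I.image d)
    rw [card_image_of_injOn hI, sum_image hI] at h2
    have h3 : ∑ i ∈ Iᶜ, (W i : ℝ) = (Fintype.card ι - I.card) * k := by
      rw [sum_congr rfl (g := fun _ => (k : ℝ)), sum_const, card_compl, nsmul_eq_mul,
        Nat.cast_sub (card_le_univ I)]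
      intro i hi
      have : r i = none := by simpa [I] using hi
      simp [W, this]
    have h4 : ∑ i ∈ I, (W i : ℝ) = 3 * ∑ i ∈ I, (d i : ℝ) := by
      rw [mul_sum]
      refine sum_congr rfl fun i hi => ?_
      obtain ⟨u, hu⟩ := Option.isSome_iff_exists.mp (mem_filter.mp hi).2
      simp [W, d, hu]
    have h5 := hV I.card (by positivity) (by exact_mod_cast card_le_univ I)
    push_cast
    rw [← sum_add_sum_compl I, h3, h4]
    linarith

theorem choose_mul_pow_eq (u κ T : ℕ) (hT : u < T) (H : ℤ) :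
    27 ^ κ * (u.choose κ : ℤ) * (27 * H + 1) ^ u = ∑ n : Fin T, (u.choose n : ℤ) *
      (27 ^ (n : ℕ) * ((27 * H + 1) ^ κ * ((n : ℕ).choose κ : ℤ) * H ^ ((n : ℕ) - κ))) := by
  rw [Fin.sum_univ_eq_sum_range (fun n => (u.choose n : ℤ) *
    (27 ^ n * ((27 * H + 1) ^ κ * (n.choose κ : ℤ) * H ^ (n - κ)))) T]
  by_cases h : κ ≤ u
  · obtain ⟨a, rfl⟩ := Nat.exists_eq_add_of_le h
    rw [← sum_subset (s₁ := range (κ + (a + 1))) (range_subset_range.mpr (by omega)),
      sum_range_add, sum_eq_zero, zero_add, pow_add, add_pow (27 * H) 1 a, mul_sum, mul_sum]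
    · refine sum_congr rfl fun i _ => ?_
      have h1 := Nat.choose_mul (n := κ + a) (Nat.le_add_right κ i)
      rw [Nat.add_sub_cancel_left, Nat.add_sub_cancel_left] at h1
      have h2 : ((κ + a).choose (κ + i) : ℤ) * (κ + i).choose κ =
          (κ + a).choose κ * a.choose i := by exact_mod_cast h1
      rw [Nat.add_sub_cancel_left, pow_add, mul_pow]
      linear_combination (-(27 ^ κ * 27 ^ i * (27 * H + 1) ^ κ * H ^ i)) * h2
    · intro n hn
      rw [Nat.choose_eq_zero_of_lt (mem_range.mp hn)]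
      simp
    · intro n _ hn
      rw [Nat.choose_eq_zero_of_lt (by simp at hn; omega)]
      simp
  · rw [Nat.choose_eq_zero_of_lt (by omega), sum_eq_zero]
    · simp
    · intro n _
      by_cases h1 : n ≤ u
      · rw [Nat.choose_eq_zero_of_lt (show n < κ by omega)]
        simp
      · rw [Nat.choose_eq_zero_of_lt (show u < n by omega)]
        simp

theorem young_spread (K : ℕ) (t : Fin K × Fin 5 → ℝ) (c0 g a : ℝ) (ha : 0 < a)
    (h : ∑ p, (t p - c0) ^ 2 ≤ g) (σ σ' : Equiv.Perm (Fin K × Fin 5)) :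
    ∑ p, (((σ p).2 : ℕ) : ℝ) * t p ≤
      ∑ p, (((σ' p).2 : ℕ) : ℝ) * t p + (10 * K * a + g / a) := by
  have := spread (fun r : Fin K × Fin 5 => ((r.2 : ℕ) : ℝ)) t 2 c0 ((10 * K * a + g / a) / 2)
    (fun σ => by
      refine (abs_sum_le_sum_abs _ _).trans ?_
      have h1 : ∀ p, |((((σ p).2 : ℕ) : ℝ) - 2) * (t p - c0)| ≤
          a / 2 * ((((σ p).2 : ℕ) : ℝ) - 2) ^ 2 + (t p - c0) ^ 2 / (2 * a) := by
        intro p
        generalize (((σ p).2 : ℕ) : ℝ) - 2 = x
        generalize t p - c0 = z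
        have h2 : a / 2 * x ^ 2 + z ^ 2 / (2 * a) = ((a * x) ^ 2 + z ^ 2) / (2 * a) := by
          field_simp
        rw [h2, le_div_iff₀ (by positivity), ← abs_of_pos (show 0 < 2 * a by positivity),
          ← abs_mul, abs_le]
        constructor <;> nlinarith [sq_nonneg (a * x + z), sq_nonneg (a * x - z)]
      refine (sum_le_sum fun p _ => h1 p).trans ?_
      rw [sum_add_distrib, ← mul_sum, ← sum_div,
        Equiv.sum_comp σ (fun r : Fin K × Fin 5 => (((r.2 : ℕ) : ℝ) - 2) ^ 2),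
        Fintype.sum_prod_type]
      have h3 : ∑ l : Fin 5, (((l : ℕ) : ℝ) - 2) ^ 2 = 10 := by
        simp [Fin.sum_univ_five]
        norm_num
      simp only [h3, sum_const, card_univ, Fintype.card_fin, nsmul_eq_mul]
      have h4 : (∑ p, (t p - c0) ^ 2) / (2 * a) ≤ g / (2 * a) := by gcongr
      have h5 : g / (2 * a) = g / a / 2 := by field_simp
      linarith) σ σ'
  linarith

theorem sum_box_x2 (R S : ℕ) :
    ∑ b : Fin R × Fin S, (((b.1 : ℕ) : ℝ) - (R - 1) / 2) ^ 2 ≤ S * R * ((R : ℝ) ^ 2 + 2) / 12 := by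
  rw [Fintype.sum_prod_type_right]
  simp only [sum_const, card_univ, Fintype.card_fin, nsmul_eq_mul]
  rw [Fin.sum_univ_eq_sum_range (fun x => ((x : ℝ) - (R - 1) / 2) ^ 2) R, mul_assoc, mul_div_assoc]
  refine mul_le_mul_of_nonneg_left (le_of_eq_of_le ?_
    (sum_sq_le (1 / 2) (by norm_num) (by norm_num) R)) (by positivity)
  exact sum_congr rfl fun j _ => by ring

theorem sum_box_z2 (R S : ℕ) (w0 : ℕ → ℕ) (hw : ∀ x, w0 x < 9) :
    ∑ b : Fin R × Fin S, (((w0 b.1 + 9 * b.2 : ℕ) : ℝ) - 9 * S / 2) ^ 2 ≤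
      81 * R * S * ((S : ℝ) ^ 2 + 2) / 12 := by
  rw [Fintype.sum_prod_type]
  have h : ∀ x : Fin R, ∑ j : Fin S, (((w0 x + 9 * j : ℕ) : ℝ) - 9 * S / 2) ^ 2 ≤
      81 * (S * ((S : ℝ) ^ 2 + 2) / 12) := by
    intro x
    have h1 := sum_sq_le ((w0 x : ℝ) / 9) (by positivity)
      (by rw [div_le_one (by norm_num)]; exact_mod_cast (hw x).le) S
    refine le_of_eq_of_le ?_ (mul_le_mul_of_nonneg_left h1 (by norm_num))
    rw [mul_sum, Fin.sum_univ_eq_sum_range (fun j => (((w0 x + 9 * j : ℕ) : ℝ) - 9 * S / 2) ^ 2) S]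
    refine sum_congr rfl fun j _ => ?_
    push_cast
    ring
  refine (sum_le_sum fun x _ => h x).trans (le_of_eq ?_)
  simp only [sum_const, card_univ, Fintype.card_fin, nsmul_eq_mul]
  ring

theorem sum_fst (K : ℕ) (f : ℕ → ℝ) :
    ∑ r : Fin K × Fin 5, f r.1 = 5 * ∑ k ∈ range K, f k := by
  rw [Fintype.sum_prod_type_right]
  simp only [sum_const, card_univ, Fintype.card_fin, Fin.sum_univ_eq_sum_range f K]
  simp

theorem padic_core (y q k R S K : ℕ) (hy3 : y % 3 = 2) (hodd : Odd q) (hcop : Nat.Coprime 9 q)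
    (hmod : (y : ℤ) ^ q ≡ 2 [ZMOD 3 ^ k]) (hR : R ≤ q) (hK : 1 ≤ K) (hS : 4 ≤ S)
    (hcount : K * 5 ≤ R * (S - 4)) (hU : 2 * (K : ℝ) ≤ q * S / 2) (V a1 a2 : ℝ) (ha1 : 0 < a1)
    (ha2 : 0 < a2)
    (hV : ∀ n : ℝ, 0 ≤ n → n ≤ 5 * K → V ≤ k * (5 * K - n) + 3 * (n * (n - 1) / 2)) :
    (V - 15 * (K * (K - 1) / 2)) * log 3 ≤ 5 * K * log (10 * K) +
      5 * (K ^ 2 / 2 * (log (q * S / 2 / (2 * K)) + 3 / 2)) +
      (10 * K * a1 + S * R * ((R : ℝ) ^ 2 + 2) / 12 / a1) * log y +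
      (10 * K * a2 + 81 * R * S * ((S : ℝ) ^ 2 + 2) / 12 / a2) * log 2 := by
  have hq : 0 < q := hodd.pos
  have hy : 1 ≤ y := by omega
  have hy' : (0 : ℝ) < y := by exact_mod_cast hy
  have hK' : (1 : ℝ) ≤ K := by exact_mod_cast hK
  obtain ⟨u0, w0, hu0, hw0, hbox, -⟩ := exists_box q 9 hq (by norm_num) hcop
  let un : Fin R × Fin S → ℕ := fun b => u0 b.1 + q * b.2
  let zn : Fin R × Fin S → ℕ := fun b => w0 b.1 + 9 * b.2
  have hun : Function.Injective un := box_inj q 9 R S hq hR u0 w0 hbox hu0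
  have hrel : ∀ b, 9 * un b = b.1 + q * zn b := by
    intro b
    simp only [un, zn]
    rw [mul_add, hbox _ (lt_of_lt_of_le b.1.2 hR)]
    ring
  have hlt : ∀ b, un b < q * S := by
    intro b
    have h1 := hu0 b.1
    have h2 : q * ((b.2 : ℕ) + 1) ≤ q * S := Nat.mul_le_mul_left q b.2.2
    simp only [un]
    linarith
  set U : ℝ := q * S / 2 with hUdef
  have hU0 : 0 < U := by linarith
  obtain ⟨cc, hcc, hdet⟩ := exists_cols K 5 q ((-2) ^ 9) (by
      intro l l' h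
      have h1 := congrArg abs h
      simp only [abs_pow, abs_neg, abs_two] at h1
      exact Fin.ext (pow_right_injective₀ (by norm_num) (by norm_num) h1))
    (univ.image fun b : Fin R × Fin (S - 4) => ((b.1, Fin.castLE (by omega) b.2) : Fin R × Fin S))
    (fun b => un b) (fun b => (-y) ^ (b.1 : ℕ) * (-2) ^ zn b)
    (fun b _ b' _ h => hun (Nat.cast_injective h))
    (fun b _ => mul_ne_zero (pow_ne_zero _ (by linarith)) (pow_ne_zero _ (by norm_num))) (by
      rw [card_image_of_injective]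
      · simpa using hcount
      · intro b b' h
        simp only [Prod.mk.injEq, Fin.castLE_inj] at h
        exact Prod.ext h.1 h.2) (by
      intro b hb j hj
      obtain ⟨b0, -, rfl⟩ := mem_image.mp hb
      have h1 := b0.2.2
      refine ⟨(b0.1, ⟨b0.2 + j, by omega⟩), ?_, ?_⟩
      · simp [un]
        ring
      · simp only [zn, Fin.val_castLE, mul_add, pow_add, pow_mul]
        ring)
  obtain ⟨σ1, σ2, σ3, hdvd⟩ := exists_dvd_det
    (fun r p : Fin K × Fin 5 => ((un (cc p)).choose r.1 : ℤ)) (fun r => r.2)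
    (fun p => (cc p).1) (fun p => zn (cc p)) (fun _ => 0) (-y) (-2) 1
  simp only [one_pow, mul_one] at hdvd
  set Δ := (Matrix.of fun r p : Fin K × Fin 5 => ((un (cc p)).choose r.1 : ℤ) *
      ((-y : ℤ) ^ ((cc p).1 : ℕ) * (-2 : ℤ) ^ zn (cc p)) ^ (r.2 : ℕ)).det with hΔ
  set D := (Matrix.of fun r p : Fin K × Fin 5 => (binP r.1).eval (un (cc p) : ℝ) *
    ((-y : ℝ) ^ ((cc p).1 : ℕ) * (-2) ^ zn (cc p)) ^ (r.2 : ℕ)).det with hD
  have hcast : (Δ : ℝ) = D := by
    rw [hΔ, Int.cast_det, hD]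
    congr 1
    ext r p
    simp [binP_eval]
  have h3y : (3 : ℤ) ∣ -y - 1 := by omega
  have h27 : ∀ l : ℕ, ∃ H : ℤ, ((-y : ℤ) ^ 9) ^ l = 27 * H + 1 := by
    intro l
    have h1 := dvd_sub_pow_of_dvd_sub (R := ℤ) (p := 3) (by exact_mod_cast h3y) 2
    obtain ⟨H, hH⟩ := h1.trans (sub_dvd_pow_sub_pow _ _ l)
    refine ⟨H, ?_⟩
    norm_num at hH ⊢
    linarith
  choose H hH using h27
  have hcong : ∀ (p r : Fin K × Fin 5), ∃ e : ℤ,
      ((-y : ℤ) ^ ((cc p).1 : ℕ) * (-2 : ℤ) ^ zn (cc p)) ^ (r.2 : ℕ) =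
        (27 * H r.2 + 1) ^ un (cc p) + 3 ^ k * e := by
    intro p r
    have h1 : (-y : ℤ) ^ q ≡ -2 [ZMOD 3 ^ k] := by
      rw [hodd.neg_pow]
      exact hmod.neg
    have h2 := ((h1.pow (zn (cc p))).mul_left ((-y : ℤ) ^ ((cc p).1 : ℕ))).pow r.2
    rw [← pow_mul, ← pow_add, ← hrel, ← pow_mul, mul_right_comm, pow_mul, pow_mul, hH] at h2
    obtain ⟨e, he⟩ := h2.dvd
    exact ⟨e, by linarith⟩
  choose e he using hcong
  have h3dvd : (3 : ℤ) ^ ⌈V⌉₊ ∣ (∏ r : Fin K × Fin 5, 27 ^ (r.1 : ℕ)) * Δ := by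
    have h1 := padic_dvd k (q * S) (fun (p : Fin K × Fin 5) n => ((un (cc p)).choose n : ℤ))
      (fun n r => (27 * H r.2 + 1) ^ (r.1 : ℕ) * (n.choose r.1 : ℤ) * H r.2 ^ (n - r.1))
      (fun p r => 27 ^ (r.1 : ℕ) * ((un (cc p)).choose r.1 : ℤ) * e p r) V (by
        simpa [mul_comm] using hV)
    rw [hΔ, ← Matrix.det_mul_column, ← Matrix.det_transpose]
    refine h1.trans (dvd_of_eq ?_)
    congr 1
    ext p r
    simp only [Matrix.of_apply, Matrix.transpose_apply]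
    rw [← choose_mul_pow_eq _ _ _ (hlt _), he]
    ring
  have hcop3 : IsCoprime ((3 : ℤ) ^ ⌈V⌉₊) ((-y : ℤ) ^ (∑ p, ((σ1 p).2 : ℕ) * ((cc p).1 : ℕ)) *
      (-2) ^ (∑ p, ((σ2 p).2 : ℕ) * zn (cc p))) := by
    obtain ⟨t, ht⟩ := h3y
    refine IsCoprime.pow_left (IsCoprime.mul_right (IsCoprime.pow_right ⟨-t, 1, ?_⟩)
      (IsCoprime.pow_right ⟨1, 1, by norm_num⟩))
    linarith
  have hΔ0 : Δ ≠ 0 := by
    intro h
    rw [h, Int.cast_zero] at hcast
    exact hdet hcast.symm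
  have hlow := Int.le_of_dvd (abs_pos.mpr (mul_ne_zero (by positivity) hΔ0))
    ((abs_dvd_abs _ _).mpr (hcop3.mul_dvd h3dvd (hdvd.mul_left _)))
  have hlow2 : (3 : ℝ) ^ ⌈V⌉₊ * ((y : ℝ) ^ (∑ p, ((σ1 p).2 : ℕ) * ((cc p).1 : ℕ)) *
      2 ^ (∑ p, ((σ2 p).2 : ℕ) * zn (cc p))) ≤
      27 ^ (∑ r : Fin K × Fin 5, (r.1 : ℕ)) * |D| := by
    rw [← hcast]
    simp only [abs_mul, abs_pow, abs_neg, prod_pow_eq_pow_sum, Nat.abs_cast, abs_two] at hlow
    exact_mod_cast hlow
  have hA : 0 ≤ log (y : ℝ) := log_nonneg (by exact_mod_cast hy)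
  have hl2 : 0 ≤ log 2 := log_nonneg (by norm_num)
  have hup : |D| ≤ (K * 5).factorial * exp (5 * (K * log 2 + K * (K - 1) / 2 * log (U / 2) -
      log (sf K)) + (∑ p, (((σ1 p).2 : ℕ) : ℝ) * ((cc p).1 : ℕ) +
        (10 * K * a1 + S * R * ((R : ℝ) ^ 2 + 2) / 12 / a1)) * log y +
      (∑ p, (((σ2 p).2 : ℕ) : ℝ) * zn (cc p) +
        (10 * K * a2 + 81 * R * S * ((S : ℝ) ^ 2 + 2) / 12 / a2)) * log 2) := by
    obtain ⟨P, hP, hPb⟩ := exists_cheb U hU0
    have h2 := det_rows_eq (fun k : Fin K => binP k)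
      (fun k : Fin K => C (1 / ((k : ℕ).factorial : ℝ)) * taylor (-U) (P k))
      (fun k => binP_deg k)
      (fun k => (natDegree_C_mul_le _ _).trans (by rw [natDegree_taylor]; exact (hP k).1))
      (fun k => by
        obtain ⟨h3, h4⟩ := monic_of_coeff (hP k).1 (hP k).2
        have h5 := coeff_taylor_natDegree (-U) (P k)
        rw [h3, h4.leadingCoeff] at h5
        rw [binP_coeff, coeff_C_mul, h5, mul_one])
      (fun p => (un (cc p) : ℝ))
      (fun (l : Fin 5) p => ((-y : ℝ) ^ ((cc p).1 : ℕ) * (-2) ^ zn (cc p)) ^ (l : ℕ))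
    rw [hD, h2]
    rw [show K * 5 = Fintype.card (Fin K × Fin 5) by simp]
    refine abs_det_le_perm _ _ fun σ => ?_
    let f : ℕ → ℝ := fun κ => log 2 + κ * log (U / 2) - log (κ.factorial : ℝ)
    have h3 : ∀ p, |(Matrix.of fun r p : Fin K × Fin 5 =>
        (C (1 / ((r.1 : ℕ).factorial : ℝ)) * taylor (-U) (P r.1)).eval (un (cc p) : ℝ) *
        ((-y : ℝ) ^ ((cc p).1 : ℕ) * (-2) ^ zn (cc p)) ^ (r.2 : ℕ)) (σ p) p| ≤
        exp (f (σ p).1 + (((σ p).2 : ℕ) : ℝ) * ((cc p).1 : ℕ) * log y +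
          (((σ p).2 : ℕ) : ℝ) * zn (cc p) * log 2) := by
      intro p
      have h4 : |(un (cc p) : ℝ) + -U| ≤ U := by
        have h2 : (un (cc p) : ℝ) ≤ q * S := by exact_mod_cast (hlt _).le
        have h3 : (0 : ℝ) ≤ un (cc p) := by positivity
        rw [abs_le]; constructor <;> linarith
      have h5 := hPb (σ p).1 _ h4
      simp only [Matrix.of_apply, eval_mul, eval_C, taylor_eval, abs_mul, abs_pow, abs_neg,
        Nat.abs_cast, abs_two, f, exp_add, exp_sub, mul_assoc, exp_nat_mul, exp_log hy',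
        exp_log (show (0 : ℝ) < 2 by norm_num), exp_log (show 0 < U / 2 by positivity),
        exp_log (show (0 : ℝ) < ((σ p).1 : ℕ).factorial by positivity), mul_pow]
      rw [abs_of_pos (by positivity), ← mul_assoc, one_div, ← div_eq_inv_mul]
      gcongr
    refine (prod_le_prod (fun p _ => abs_nonneg _) fun p _ => h3 p).trans ?_
    rw [← exp_sum, exp_le_exp, sum_add_distrib, sum_add_distrib, ← sum_mul, ← sum_mul,
      Equiv.sum_comp σ (fun r : Fin K × Fin 5 => f r.1), sum_fst K f]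
    have h4 := young_spread K (fun p => ((cc p).1 : ℕ)) ((R - 1) / 2) _ a1 ha1
      ((sum_inj_le cc hcc (fun b => (((b.1 : ℕ) : ℝ) - (R - 1) / 2) ^ 2)
        fun _ => sq_nonneg _).trans (sum_box_x2 R S)) σ σ1
    have h5 := young_spread K (fun p => zn (cc p)) (9 * S / 2) _ a2 ha2
      ((sum_inj_le cc hcc (fun b => ((zn b : ℝ) - 9 * S / 2) ^ 2)
        fun _ => sq_nonneg _).trans (sum_box_z2 R S w0 hw0)) σ σ2
    have h6 : ∑ κ ∈ range K, f κ = K * log 2 + K * (K - 1) / 2 * log (U / 2) - log (sf K) := by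
      simp only [f]
      rw [sum_sub_distrib, sum_add_distrib, ← sum_mul, sum_range_cast, log_sf_eq]
      simp
    rw [h6]
    gcongr
  have h1 := log_le_log (by positivity)
    (hlow2.trans (mul_le_mul_of_nonneg_left hup (by positivity)))
  rw [log_mul (by positivity) (by positivity), log_mul (by positivity) (by positivity),
    log_mul (by positivity) (by positivity), log_mul (by positivity) (by positivity), log_exp,
    log_pow, log_pow, log_pow, log_pow] at h1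
  push_cast at h1
  rw [sum_fst K (fun k => (k : ℝ)), sum_range_cast, show (27 : ℝ) = 3 ^ 3 by norm_num,
    log_pow] at h1
  have h2 := log_factorial_le_mul (K * 5)
  have h3 := log_cheb_prod_le K hK U hU
  have h4 : log (10 * (K : ℝ)) = log 2 + log (K * 5) := by
    rw [← log_mul (by norm_num) (by positivity)]
    congr 1
    ring
  have h5 := mul_le_mul_of_nonneg_right (Nat.le_ceil V) (log_nonneg (show (1 : ℝ) ≤ 3 by norm_num))
  push_cast at h1 h2
  rw [h4]
  linarith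

end Pool.Agent.Lib.MP_93b520_nt
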