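import Mathlib
import Pool.Agent.Lib.MP_93b520_nt.Padic
import Pool.Agent.Lib.MP_93b520_nt.ArchNum

/-!
Choice of the parameters in the 3-adic estimate, and the two numerical regimes.
-/

set_option autoImplicit false

namespace Pool.Agent.Lib.MP_93b520_nt

open Real

theorem padic_gen (y q k S1 ρ1 : ℕ) (hy3 : y % 3 = 2) (hq : q.Prime) (hq3 : 3 < q)
    (hmod : (y : ℤ) ^ q ≡ 2 [ZMOD 3 ^ k]) (γ η R0 Sm SA α1 α2 H K0 l0 f q0 : ℝ)
    (hρ : 2 ≤ ρ1) (hq0 : q0 ≤ q) (hR0 : R0 * ρ1 ≤ q0) (hR1 : 1 ≤ R0) (hS1 : Sm ≤ S1)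
    (hSm : 1 ≤ Sm) (hS2 : log y ≤ γ * S1) (hS3 : S1 ≤ SA * log y) (hη : 5 + 4 / Sm ≤ η)
    (hα1 : 0 < α1) (hα2 : 0 < α2) (hH : log (ρ1 * η / 4) ≤ H) (hK0 : K0 ≤ R0 * Sm)
    (hK1 : 1 ≤ K0) (hl0 : log (10 * K0) ≤ l0) (hl1 : 1 ≤ l0)
    (hfin : 5 * l0 / K0 + 2.5 * (H + 1.5) + γ * (10 * α1 + η * (1 + 2 / R0 ^ 2) / (12 * α1)) +
      0.6932 / R0 * (10 * α2 * η + 81 * η ^ 2 * (1 + 2 / 81) / (12 * α2)) < 32.54)
    (hf : 13.5 * 1.0987 * (1 / ρ1 + 1 / q0) * SA ≤ f) : k * log 3 ≤ f * (q * log y) := by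
  have hρ' : (2 : ℝ) ≤ ρ1 := by exact_mod_cast hρ
  have hl3 := log_three_lt_d9
  have hl3' := log_three_gt_d9
  have hS : (1 : ℝ) ≤ S1 := hSm.trans hS1
  have hA : 0 ≤ log (y : ℝ) := log_natCast_nonneg y
  have hq0' : 0 < q0 := lt_of_lt_of_le (by positivity) hR0
  have hq' : (0 : ℝ) < q := by linarith
  obtain ⟨R, hRa, hRb, hRq⟩ : ∃ R : ℕ, (q : ℝ) ≤ ρ1 * R ∧ (R : ℝ) ≤ q / ρ1 + 1 ∧ R ≤ q := by
    refine ⟨q / ρ1 + 1, ?_, ?_, Nat.div_lt_self hq.pos hρ⟩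
    · exact_mod_cast (Nat.lt_mul_div_succ q (by omega)).le
    · push_cast
      linarith [Nat.cast_div_le (α := ℝ) (m := q) (n := ρ1)]
  have hRR : R0 ≤ R := by
    refine le_of_mul_le_mul_left ?_ (show (0 : ℝ) < ρ1 by linarith)
    linarith
  have hR : (1 : ℝ) ≤ R := hR1.trans hRR
  have hRq' : (R : ℝ) ≤ q := by exact_mod_cast hRq
  obtain ⟨K, hK⟩ : ∃ K : ℕ, K = R * S1 := ⟨_, rfl⟩
  obtain ⟨S, hSd⟩ : ∃ S : ℕ, S = 5 * S1 + 4 := ⟨_, rfl⟩
  have hK' : (K : ℝ) = R * S1 := by exact_mod_cast hK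
  have hS' : (S : ℝ) = 5 * S1 + 4 := by exact_mod_cast hSd
  have hKK : K0 ≤ K := by
    rw [hK']
    exact hK0.trans (mul_le_mul hRR hS1 (by linarith) (by linarith))
  have hK1' : (1 : ℝ) ≤ K := hK1.trans hKK
  have hSη : (S : ℝ) ≤ η * S1 := by
    have h1 : 4 ≤ 4 / Sm * S1 := by
      rw [div_mul_eq_mul_div, le_div_iff₀ (by linarith)]
      linarith
    have h2 := mul_le_mul_of_nonneg_right hη (show (0 : ℝ) ≤ S1 by linarith)
    linarith
  have hη0 : 0 < η := lt_of_lt_of_le (by positivity) hη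
  have hγ : 0 ≤ γ := nonneg_of_mul_nonneg_left (hA.trans hS2) (by linarith)
  have hk : (k : ℝ) < 13.5 * K := by
    by_contra hk
    rw [not_lt] at hk
    have main := padic_core y q k R S K hy3 (hq.odd_of_ne_two (by omega))
      (Nat.Coprime.pow_left 2 ((Nat.coprime_primes Nat.prime_three hq).mpr (by omega))) hmod hRq
      (by exact_mod_cast hK1') (by omega) (by rw [hK, hSd, Nat.add_sub_cancel]; nlinarith)
      (by rw [hK', hS']; nlinarith) (37.125 * K ^ 2 - 7.5 * K) (R * α1) (S * α2)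
      (by positivity) (by rw [hS']; positivity) (fun n h0 h1 => by
        have := mul_le_mul_of_nonneg_right hk (sub_nonneg.mpr h1)
        nlinarith [sq_nonneg (n - 4.5 * K)])
    have c1 : log (10 * (K : ℝ)) ≤ l0 / K0 * K := by
      have := log_le_mul (10 * K) (10 * K0) l0 (by linarith) (by linarith) hl0 hl1
      refine this.trans (le_of_eq ?_)
      field_simp
    have c2 : log (q * S / 2 / (2 * K)) ≤ H := by
      refine le_trans (log_le_log (by rw [hS']; positivity) ?_) hH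
      rw [div_le_iff₀ (by positivity), hK']
      calc (q : ℝ) * S / 2 ≤ ρ1 * R * (η * S1) / 2 := by gcongr
        _ = _ := by ring
    have c3 : (10 * K * (R * α1) + S * R * ((R : ℝ) ^ 2 + 2) / 12 / (R * α1)) * log y ≤
        γ * (10 * α1 + η * (1 + 2 / R0 ^ 2) / (12 * α1)) * K ^ 2 := by
      have e1 : (R : ℝ) ^ 2 + 2 ≤ R ^ 2 * (1 + 2 / R0 ^ 2) := by
        have : 2 ≤ (R : ℝ) ^ 2 * (2 / R0 ^ 2) := by
          rw [← mul_div_assoc, le_div_iff₀ (by positivity), mul_comm]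
          gcongr
        linarith
      calc _ ≤ (10 * K * (R * α1) + η * S1 * R * ((R : ℝ) ^ 2 * (1 + 2 / R0 ^ 2)) / 12 /
            (R * α1)) * (γ * S1) := by gcongr
        _ = _ := by rw [hK']; field_simp
    have c4 : (10 * K * (S * α2) + 81 * R * S * ((S : ℝ) ^ 2 + 2) / 12 / (S * α2)) * log 2 ≤
        0.6932 / R0 * (10 * α2 * η + 81 * η ^ 2 * (1 + 2 / 81) / (12 * α2)) * K ^ 2 := by
      have e0 : (9 : ℝ) ≤ S := by linarith
      have e1 : (S : ℝ) ^ 2 + 2 ≤ (η * S1) ^ 2 * (1 + 2 / 81) := by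
        have : (9 : ℝ) ^ 2 ≤ S ^ 2 := by gcongr
        have : (S : ℝ) ^ 2 ≤ (η * S1) ^ 2 := by gcongr
        linarith
      have e2 : log 2 ≤ 0.6932 := by linarith [log_two_lt_d9]
      have e3 := log_nonneg (show (1 : ℝ) ≤ 2 by norm_num)
      have e4 : 81 * R * S * ((S : ℝ) ^ 2 + 2) / 12 / (S * α2) =
          81 * R * ((S : ℝ) ^ 2 + 2) / 12 / α2 := by field_simp
      rw [e4]
      calc _ ≤ (10 * K * (η * S1 * α2) + 81 * R * ((η * S1) ^ 2 * (1 + 2 / 81)) / 12 / α2) *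
            0.6932 := by gcongr
        _ = 0.6932 / R * (10 * α2 * η + 81 * η ^ 2 * (1 + 2 / 81) / (12 * α2)) * K ^ 2 := by
            rw [hK']; field_simp
        _ ≤ _ := by gcongr
    have d1 := mul_le_mul_of_nonneg_left c1 (show (0 : ℝ) ≤ K by linarith)
    have d2 := mul_le_mul_of_nonneg_left c2 (sq_nonneg (K : ℝ))
    have d3 := mul_lt_mul_of_pos_left hfin (show (0 : ℝ) < K ^ 2 by positivity)
    have d4 := mul_le_mul_of_nonneg_left hl3'.le (sq_nonneg (K : ℝ))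
    have d5 : (K : ℝ) ^ 2 * (5 * l0 / K0) = 5 * (K * (l0 / K0 * K)) := by ring
    have d6 := sq_nonneg (K : ℝ)
    linarith
  have h1 : (K : ℝ) ≤ (1 / ρ1 + 1 / q0) * q * (SA * log y) := by
    rw [hK']
    refine mul_le_mul (hRb.trans ?_) hS3 (by linarith) (by positivity)
    have : 1 ≤ 1 / q0 * q := by
      rw [div_mul_eq_mul_div, le_div_iff₀ hq0']
      linarith
    have h2 : (1 / ρ1 + 1 / q0) * q = q / ρ1 + 1 / q0 * q := by ring
    linarith
  calc k * log 3 ≤ 13.5 * ((1 / ρ1 + 1 / q0) * q * (SA * log y)) * 1.0987 :=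
        mul_le_mul (by linarith) (by linarith) (by linarith) (by linarith)
    _ = 13.5 * 1.0987 * (1 / ρ1 + 1 / q0) * SA * (q * log y) := by ring
    _ ≤ _ := mul_le_mul_of_nonneg_right hf (by positivity)

end Pool.Agent.Lib.MP_93b520_nt
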