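import Mathlib
import Pool.Agent.Lib.MP_93b520_nt.PadicNum

/-!
The two numerical regimes.
-/

set_option autoImplicit false

namespace Pool.Agent.Lib.MP_93b520_nt

open Real

theorem log_le_of (x : ℝ) (a b c a' b' c' : ℕ) (hx : 0 < x)
    (h : x * (2 ^ a' * 3 ^ b' * 5 ^ c') ≤ 2 ^ a * 3 ^ b * 5 ^ c) :
    log x ≤ a * 0.6931472 + b * 1.0986123 + c * 1.609438 -
      (a' * 0.6931471 + b' * 1.0986122 + c' * 1.6094379) := by
  have h1 := log_le_log (by positivity) h
  repeat rw [log_mul (by positivity) (by positivity)] at h1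
  simp only [log_pow] at h1
  have a1 := mul_le_mul_of_nonneg_left log_two_lt_d9.le (Nat.cast_nonneg (α := ℝ) a)
  have a2 := mul_le_mul_of_nonneg_left log_three_lt_d9.le (Nat.cast_nonneg (α := ℝ) b)
  have a3 := mul_le_mul_of_nonneg_left log_five_lt_d9.le (Nat.cast_nonneg (α := ℝ) c)
  have a4 := mul_le_mul_of_nonneg_left log_two_gt_d9.le (Nat.cast_nonneg (α := ℝ) a')
  have a5 := mul_le_mul_of_nonneg_left log_three_gt_d9.le (Nat.cast_nonneg (α := ℝ) b')
  have a6 := mul_le_mul_of_nonneg_left log_five_gt_d9.le (Nat.cast_nonneg (α := ℝ) c')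
  have b1 := Nat.cast_nonneg (α := ℝ) a
  have b2 := Nat.cast_nonneg (α := ℝ) b
  have b3 := Nat.cast_nonneg (α := ℝ) c
  have b4 := Nat.cast_nonneg (α := ℝ) a'
  have b5 := Nat.cast_nonneg (α := ℝ) b'
  have b6 := Nat.cast_nonneg (α := ℝ) c'
  linarith

theorem le_log_ten : 2.3025 ≤ log 10 := by
  rw [log_ten_eq]
  linarith [log_two_gt_d9, log_five_gt_d9]

theorem le_log_thirty : 3.4011 ≤ log 30 := by
  rw [show (30 : ℝ) = 10 * 3 by norm_num, log_mul (by norm_num) (by norm_num), log_ten_eq]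
  linarith [log_two_gt_d9, log_five_gt_d9, log_three_gt_d9]

theorem exists_S1 (A γ : ℝ) (hγ : 0 < γ) (hA : 30 ≤ A) :
    ∃ S : ℕ, 30 / γ ≤ S ∧ A ≤ γ * S ∧ S ≤ (1 / γ + 1 / 30) * A := by
  have h1 := Nat.le_ceil (A / γ)
  have h2 := Nat.ceil_lt_add_one (show 0 ≤ A / γ by positivity)
  refine ⟨⌈A / γ⌉₊, le_trans (by gcongr) h1, by rwa [div_le_iff₀' hγ] at h1, ?_⟩
  have h3 : (1 / γ + 1 / 30) * A = A / γ + A / 30 := by ring
  linarith

theorem exists_S2 (A : ℝ) (hA : 0.6931 ≤ A) :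
    ∃ S : ℕ, (1 : ℝ) ≤ S ∧ A ≤ 1.3863 * S ∧ S ≤ 1.443 * A := by
  by_cases h : A ≤ 1.3863
  · exact ⟨1, by simp, by simpa using h, by push_cast; linarith⟩
  · have h1 := Nat.le_ceil (A / 1.3863)
    have h2 := Nat.ceil_lt_add_one (show 0 ≤ A / 1.3863 by positivity)
    have h3 : A / 1.3863 = 10000 / 13863 * A := by ring
    rw [not_le] at h
    refine ⟨⌈A / 1.3863⌉₊, ?_, ?_, ?_⟩ <;> linarith

theorem exists_cbrt (q : ℕ) (Z0 : ℝ) (h : Z0 ^ 3 ≤ q) :
    ∃ Z : ℝ, Z ^ 3 = q ∧ Z0 ≤ Z := by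
  have h1 : ((q : ℝ) ^ ((3 : ℕ) : ℝ)⁻¹) ^ 3 = q := rpow_inv_natCast_pow (by positivity) (by norm_num)
  refine ⟨_, h1, ?_⟩
  rw [← h1] at h
  exact le_of_pow_le_pow_left₀ (by norm_num) (by positivity) h

theorem log_two_le (y : ℕ) (hy : 2 ≤ y) : 0.6931 ≤ log (y : ℝ) := by
  have := log_le_log (by norm_num) (show (2 : ℝ) ≤ y by exact_mod_cast hy)
  linarith [log_two_gt_d9]

theorem arch_one (y c m q : ℕ) (hy : 2 ≤ y) (hy3 : Nat.Coprime y 3) (hc1 : 1 ≤ c) (hc2 : c ≤ 2)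
    (hq : q.Prime) (hq0 : 1000 ≤ q) (hA : 30 ≤ log y) (Λ : ℝ)
    (hΛ : Λ = q * log y - m * log 3 - log c) (hΛ0 : 0 ≤ Λ)
    (hsmall : q * (1.443 * log y) * Λ ≤ exp (-(0.85 * (q * log y)))) : False := by
  obtain ⟨Z, hZ, hZ0⟩ := exists_cbrt q 10 (by exact_mod_cast hq0)
  obtain ⟨S, h1, h2, h3⟩ := exists_S1 (log y) 1.8 (by norm_num) hA
  refine arch_gen y c m q hy hy3 hc1 hc2 hq Z hZ S 50 10 2.3025 2.3026 (50 / 3) 0.589 1.8 3 0.6
    0.4798 0.4632 0.0849 (-2.1486) 3.5297 3500 8.19 1.9 0.85 hZ0 le_rfl le_log_ten ?_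
    (by linarith) (by norm_num) h2 (by linarith) (by norm_num) (by norm_num) (by norm_num)
    (by norm_num) (by norm_num) (by norm_num) (by norm_num) (by norm_num) (by norm_num)
    (by norm_num) ?_ ?_ (by norm_num) (by norm_num) ?_ (by norm_num) ?_ (by norm_num)
    (by norm_num) (by norm_num) Λ hΛ hΛ0 (le_trans ?_ hsmall)
  · exact (log_le_of _ 1 0 1 0 0 0 (by norm_num) (by norm_num)).trans (by norm_num)
  · exact (log_le_of _ 0 6 0 1 0 5 (by norm_num) (by norm_num)).trans (by norm_num)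
  · have := log_le_of (0.0849 / (8 * 0.6)) 2 0 0 0 2 2 (by norm_num) (by norm_num)
    push_cast at this
    linarith
  · exact (log_le_of _ 4 2 2 0 0 0 (by norm_num) (by norm_num)).trans (by norm_num)
  · intro x
    nlinarith [sq_nonneg (x - 0.615)]
  · gcongr
    linarith

theorem arch_two (y c m q : ℕ) (hy : 2 ≤ y) (hy3 : Nat.Coprime y 3) (hc1 : 1 ≤ c) (hc2 : c ≤ 2)
    (hq : q.Prime) (hq0 : 27000 ≤ q) (Λ : ℝ)
    (hΛ : Λ = q * log y - m * log 3 - log c) (hΛ0 : 0 ≤ Λ)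
    (hsmall : q * (1.443 * log y) * Λ ≤ exp (-(0.9 * (q * log y)))) : False := by
  obtain ⟨Z, hZ, hZ0⟩ := exists_cbrt q 30 (by exact_mod_cast hq0)
  obtain ⟨S, h1, h2, h3⟩ := exists_S2 (log y) (log_two_le y hy)
  refine arch_gen y c m q hy hy3 hc1 hc2 hq Z hZ S 24 30 3.4011 3.4012 1 1.443 1.3863 1.5 0.75
    0.458 0.4853 0.17775 (-2.1078) 3.0189 1800 7.5 1.7 0.9 hZ0 (by norm_num) le_log_thirty ?_
    h1 le_rfl h2 h3 (by norm_num) (by norm_num) (by norm_num)
    (by norm_num) (by norm_num) (by norm_num) (by norm_num) (by norm_num) (by norm_num)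
    (by norm_num) ?_ ?_ (by norm_num) (by norm_num) ?_ (by norm_num) ?_ (by norm_num)
    (by norm_num) (by norm_num) Λ hΛ hΛ0 (le_trans ?_ hsmall)
  · exact (log_le_of _ 1 1 1 0 0 0 (by norm_num) (by norm_num)).trans (by norm_num)
  · exact (log_le_of _ 0 5 0 4 0 3 (by norm_num) (by norm_num)).trans (by norm_num)
  · have := log_le_of (0.17775 / (8 * 0.75)) 2 0 0 0 3 1 (by norm_num) (by norm_num)
    push_cast at this
    linarith
  · exact (log_le_of _ 3 2 2 0 0 0 (by norm_num) (by norm_num)).trans (by norm_num)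
  · intro x
    nlinarith [sq_nonneg (x - 0.748)]
  · gcongr

theorem padic_one (y q k : ℕ) (hy3 : y % 3 = 2) (hq : q.Prime) (hq0 : 1000 ≤ q) (hA : 30 ≤ log y)
    (hmod : (y : ℤ) ^ q ≡ 2 [ZMOD 3 ^ k]) : k * log 3 ≤ 0.14 * (q * log y) := by
  obtain ⟨S, h1, h2, h3⟩ := exists_S1 (log y) 2.5 (by norm_num) hA
  refine padic_gen y q k S 50 hy3 hq (by omega) hmod 2.5 (16 / 3) 20 12 0.4334 0.2 2 4.2 240 7.79
    0.14 1000 (by norm_num) (by exact_mod_cast hq0) (by norm_num) (by norm_num) (by linarith)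
    (by norm_num) h2 (by linarith) (by norm_num) (by norm_num) (by norm_num) ?_ (by norm_num)
    (by norm_num) ?_ (by norm_num) (by norm_num) (by norm_num)
  · exact (log_le_of _ 3 0 2 0 1 0 (by norm_num) (by norm_num)).trans (by norm_num)
  · exact (log_le_of _ 5 1 2 0 0 0 (by norm_num) (by norm_num)).trans (by norm_num)

theorem padic_two (y q k : ℕ) (hy3 : y % 3 = 2) (hq : q.Prime) (hq0 : 27000 ≤ q)
    (hmod : (y : ℤ) ^ q ≡ 2 [ZMOD 3 ^ k]) : k * log 3 ≤ 0.09 * (q * log y) := by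
  obtain ⟨S, h1, h2, h3⟩ := exists_S2 (log y) (log_two_le y (by omega))
  refine padic_gen y q k S 270 hy3 hq (by omega) hmod 1.3863 9 100 1 1.443 0.25 2.5 6.41 100 6.91
    0.09 27000 (by norm_num) (by exact_mod_cast hq0) (by norm_num) (by norm_num) h1
    (by norm_num) h2 h3 (by norm_num) (by norm_num) (by norm_num) ?_ (by norm_num)
    (by norm_num) ?_ (by norm_num) (by norm_num) (by norm_num)
  · exact (log_le_of _ 0 5 1 1 0 0 (by norm_num) (by norm_num)).trans (by norm_num)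
  · exact (log_le_of _ 3 0 3 0 0 0 (by norm_num) (by norm_num)).trans (by norm_num)

theorem small_le (y c m q D k : ℕ) (hy : 2 ≤ y) (hc : 1 ≤ c) (hq : 1000 ≤ q)
    (hqA : 1200 ≤ q * log y) (heq : y ^ q = c * 3 ^ m + D) (hD : D ≤ 3 ^ (k + 1)) (hkm : k < m)
    (f g : ℝ) (hfg : f + g ≤ 0.99) (hk : k * log 3 ≤ g * (q * log y)) :
    0 ≤ q * log y - m * log 3 - log c ∧
      q * (1.443 * log y) * (q * log y - m * log 3 - log c) ≤ exp (-(f * (q * log y))) := by
  have hy' : (0 : ℝ) < y := by positivity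
  have hc' : (1 : ℝ) ≤ c := by exact_mod_cast hc
  have hq' : (1000 : ℝ) ≤ q := by exact_mod_cast hq
  have hA := log_two_le y hy
  have h1 : (y : ℝ) ^ q = c * 3 ^ m + D := by exact_mod_cast heq
  have h2 : (D : ℝ) ≤ 3 ^ (k + 1) := by exact_mod_cast hD
  have h3 : (3 : ℝ) ^ (k + 1) ≤ c * 3 ^ m :=
    (pow_le_pow_right₀ (by norm_num) hkm).trans (le_mul_of_one_le_left (by positivity) hc')
  have h4 : q * log y - m * log 3 - log c = log (y ^ q / (c * 3 ^ m)) := by
    rw [log_div (by positivity) (by positivity), log_mul (by positivity) (by positivity), log_pow,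
      log_pow]
    ring
  have hD0 : (0 : ℝ) ≤ D := by positivity
  have h5 : log (y ^ q / (c * 3 ^ m)) ≤ 6 * 3 ^ k / y ^ q := by
    refine (log_le_sub_one_of_pos (by positivity)).trans ?_
    rw [div_sub_one (by positivity), div_le_div_iff₀ (by positivity) (by positivity), h1,
      add_sub_cancel_left]
    rw [pow_succ] at h2 h3
    have h6 : (0 : ℝ) ≤ c * 3 ^ m := by positivity
    nlinarith
  rw [h4]
  refine ⟨log_nonneg (by rw [le_div_iff₀ (by positivity)]; linarith), ?_⟩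
  refine (mul_le_mul_of_nonneg_left h5 (by positivity)).trans ?_
  rw [← log_le_iff_le_exp (by positivity), log_mul (by positivity) (by positivity),
    log_mul (by positivity) (by positivity), log_div (by positivity) (by positivity),
    log_mul (by norm_num : (6 : ℝ) ≠ 0) (by positivity), log_pow, log_pow]
  have a1 := log_le_sub_one_of_pos (show 0 < 1.443 * log y by positivity)
  have a2 := log_le_sub_one_of_pos (show 0 < (q : ℝ) / 1000 by positivity)
  rw [log_div (by positivity) (by norm_num)] at a2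
  have a4 : log 1000 ≤ 7 :=
    (log_le_of _ 3 0 3 0 0 0 (by norm_num) (by norm_num)).trans (by norm_num)
  have a3 : log 6 ≤ 1.8 :=
    (log_le_of _ 1 1 0 0 0 0 (by norm_num) (by norm_num)).trans (by norm_num)
  have a5 : q * 0.6931 ≤ q * log y := by gcongr
  have a6 : 1000 * log y ≤ q * log y := by gcongr
  have a7 := mul_le_mul_of_nonneg_right hfg (show 0 ≤ q * log y by positivity)
  linarith

theorem no_sol (y c m q D k : ℕ) (hy : 2 ≤ y) (hy3 : Nat.Coprime y 3) (hc1 : 1 ≤ c) (hc2 : c ≤ 2)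
    (hq : q.Prime) (hq0 : 1000 ≤ q) (hreg : 30 ≤ log y ∨ 27000 ≤ q)
    (heq : y ^ q = c * 3 ^ m + D) (hD : D ≤ 3 ^ (k + 1)) (hkm : k < m)
    (hk : 3 ^ k ≤ y ∨ (y % 3 = 2 ∧ (y : ℤ) ^ q ≡ 2 [ZMOD 3 ^ k])) : False := by
  have hq' : (1000 : ℝ) ≤ q := by exact_mod_cast hq0
  have hA := log_two_le y hy
  have h0 : 3 ^ k ≤ y → k * log 3 ≤ 0.09 * (q * log y) := by
    intro h
    have h1 := log_le_log (by positivity) (show (3 : ℝ) ^ k ≤ y by exact_mod_cast h)
    rw [log_pow] at h1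
    have a6 : 1000 * log y ≤ q * log y := by gcongr
    linarith
  rcases hreg with h | h
  · have h1 : k * log 3 ≤ 0.14 * (q * log y) := by
      rcases hk with hk | hk
      · have : 0 ≤ q * log y := by positivity
        linarith [h0 hk]
      · exact padic_one y q k hk.1 hq hq0 h hk.2
    obtain ⟨h2, h3⟩ := small_le y c m q D k hy hc1 hq0 (by nlinarith) heq hD hkm 0.85 0.14
      (by norm_num) h1
    exact arch_one y c m q hy hy3 hc1 hc2 hq hq0 h _ rfl h2 h3
  · have h1 : k * log 3 ≤ 0.09 * (q * log y) := by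
      rcases hk with hk | hk
      · exact h0 hk
      · exact padic_two y q k hk.1 hq h hk.2
    have h4 : (27000 : ℝ) ≤ q := by exact_mod_cast h
    obtain ⟨h2, h3⟩ := small_le y c m q D k hy hc1 hq0 (by nlinarith) heq hD hkm 0.9 0.09
      (by norm_num) h1
    exact arch_two y c m q hy hy3 hc1 hc2 hq h _ rfl h2 h3

end Pool.Agent.Lib.MP_93b520_nt
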