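import Mathlib
import Pool.Agent.Lib.MP_93b520_nt.Regime
import Pool.Agent.Lib.MP_93b520_nt.Check1
import Pool.Agent.Lib.MP_93b520_nt.Check2
import Pool.Agent.Lib.MP_93b520_nt.Check3
import Pool.Agent.Lib.MP_93b520_nt.Check4

/-!
Perfect powers with at most three nonzero ternary digits.
-/

set_option autoImplicit false

namespace Pool.Agent.Lib.MP_93b520_nt

open Real

/-- The number of nonzero ternary digits. -/
def cnt (N : ℕ) : ℕ := ((Nat.digits 3 N).filter (fun d => d ≠ 0)).length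

theorem cnt_step (N : ℕ) (hN : 0 < N) : cnt N = cnt (N / 3) + if N % 3 = 0 then 0 else 1 := by
  rw [cnt, cnt, Nat.digits_def' (by norm_num) hN, List.filter_cons]
  by_cases h : N % 3 = 0 <;> simp [h]

theorem cnt_decomp (N : ℕ) (hN : 0 < N) :
    ∃ k a N', (a = 1 ∨ a = 2) ∧ N = 3 ^ k * (a + 3 * N') ∧ cnt N = cnt N' + 1 := by
  induction N using Nat.strong_induction_on with
  | _ N ih =>
    have h1 := cnt_step N hN
    by_cases h : N % 3 = 0
    · obtain ⟨k, a, N', ha, h2, h3⟩ := ih (N / 3) (by omega) (by omega)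
      refine ⟨k + 1, a, N', ha, ?_, by simpa [h, h3] using h1⟩
      rw [pow_succ, mul_right_comm, ← h2]
      omega
    · exact ⟨0, N % 3, N / 3, by omega, by omega, by simpa [h] using h1⟩

theorem shape (N : ℕ) (h2 : 2 < N) (h3 : N % 3 ≠ 0) (h : cnt N ≤ 3) :
    ∃ a b c k m, (a = 1 ∨ a = 2) ∧ (c = 1 ∨ c = 2) ∧ k < m ∧ N = c * 3 ^ m + (a + b * 3 ^ k) ∧
      ((b = 0 ∧ k = 0) ∨ ((b = 1 ∨ b = 2) ∧ 0 < k)) := by
  have h1 := cnt_step N (by omega)
  rw [if_neg h3] at h1
  obtain ⟨k, b, N2, hb, h4, h5⟩ := cnt_decomp (N / 3) (by omega)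
  have h6 : N = N % 3 + 3 * (3 ^ k * (b + 3 * N2)) := by omega
  rcases Nat.eq_zero_or_pos N2 with h7 | h7
  · refine ⟨N % 3, 0, b, 0, k + 1, by omega, hb, by omega, ?_, Or.inl ⟨rfl, rfl⟩⟩
    conv_lhs => rw [h6, h7]
    ring
  · obtain ⟨k2, c, N3, hc, h8, h9⟩ := cnt_decomp N2 h7
    have h10 : N3 = 0 := by
      by_contra h0
      obtain ⟨_, _, _, _, _, h11⟩ := cnt_decomp N3 (by omega)
      omega
    refine ⟨N % 3, b, c, k + 1, k + k2 + 2, by omega, hc, by omega, ?_, Or.inr ⟨hb, by omega⟩⟩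
    conv_lhs => rw [h6, h8, h10]
    ring

theorem root_one (y q k : ℕ) (hy : 2 ≤ y) (hy3 : Nat.Coprime y 3) (hq : q.Prime) (hq3 : 3 < q)
    (h : y ^ q ≡ 1 [MOD 3 ^ k]) : 3 ^ k ≤ y := by
  rcases Nat.eq_zero_or_pos k with rfl | hk
  · omega
  have h1 : Nat.Coprime q (3 ^ k).totient := by
    rw [Nat.totient_prime_pow Nat.prime_three hk]
    exact Nat.Coprime.mul_right
      (Nat.Coprime.pow_right _ ((Nat.coprime_primes hq Nat.prime_three).mpr (by omega)))
      ((Nat.coprime_primes hq Nat.prime_two).mpr (by omega))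
  have h2 : 1 < (3 ^ k).totient := by
    rw [Nat.totient_prime_pow Nat.prime_three hk]
    have : 0 < 3 ^ (k - 1) := by positivity
    omega
  obtain ⟨e, -, he⟩ := Nat.exists_mul_mod_eq_one_of_coprime h1 h2
  have h3 := root_eq y q e (3 ^ k) 1 (hy3.pow_right _) he h
  rw [one_pow] at h3
  have h4 := Nat.le_of_dvd (by omega) ((Nat.modEq_iff_dvd' (by omega)).mp h3.symm)
  omega

theorem chk_all (q : ℕ) (hq : q.Prime) (h1 : 1000 ≤ q) (h2 : q < 27000) : chk q = true := by
  by_cases h3 : q < 7500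
  · exact chk_part0 q hq (by omega) h1 h3
  by_cases h4 : q < 14000
  · exact chk_part1 q hq (by omega) (by omega) h4
  by_cases h5 : q < 20500
  · exact chk_part2 q hq (by omega) (by omega) h5
  · exact chk_part3 q hq (by omega) (by omega) h2

theorem main (y q : ℕ) (hy : 2 ≤ y) (hy3 : Nat.Coprime y 3) (hq : q.Prime) (hq0 : 1000 ≤ q) :
    3 < cnt (y ^ q) := by
  by_contra hc
  have hbig : 2 ^ 1000 ≤ y ^ q :=
    (Nat.pow_le_pow_right (by norm_num) hq0).trans (Nat.pow_le_pow_left hy q)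
  have hcop : Nat.Coprime (y ^ q) 3 := hy3.pow_left q
  obtain ⟨a, b, c, k, m, ha, hc', hkm, heq, hb⟩ := shape (y ^ q)
    (lt_of_lt_of_le (by decide +kernel) hbig) (fun h => by
      have := Nat.Coprime.eq_one_of_dvd hcop.symm (Nat.dvd_of_mod_eq_zero h)
      omega) (by omega)
  have hD : a + b * 3 ^ k ≤ 3 ^ (k + 1) := by
    rcases hb with ⟨rfl, rfl⟩ | ⟨hb, hk⟩
    · omega
    · have := Nat.pow_le_pow_right (show 0 < 3 by norm_num) hk
      rw [pow_succ]
      rcases hb with rfl | rfl <;> omega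
  have hmodk : ∀ j ≤ k, y ^ q ≡ a [MOD 3 ^ j] := by
    intro j hj
    rw [heq, add_comm, add_assoc]
    exact ((Nat.modEq_iff_dvd' (by omega)).mpr (by
      rw [Nat.add_sub_cancel_left]
      exact dvd_add (Dvd.dvd.mul_left (pow_dvd_pow _ hj) _)
        (Dvd.dvd.mul_left (pow_dvd_pow _ (by omega)) _))).symm
  refine no_sol y c m q _ k hy hy3 (by omega) (by omega) hq hq0 ?_ heq hD hkm ?_
  · by_cases h27 : 27000 ≤ q
    · exact Or.inr h27
    left
    obtain ⟨c1, c2⟩ := chk_spec y q hy3 (chk_all q hq hq0 (by omega))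
    have hm : 44 ≤ m := by
      by_contra hm
      have h1 := Nat.pow_le_pow_right (show 0 < 3 by norm_num) hkm
      have h2 := Nat.pow_le_pow_right (show 0 < 3 by norm_num) (show m ≤ 44 by omega)
      have h3 : 3 * 3 ^ 44 < 2 ^ 1000 := by decide +kernel
      rw [Nat.succ_eq_add_one] at h1
      generalize 2 ^ 1000 = X at *
      rcases hc' with rfl | rfl <;> omega
    have hmod : y ^ q ≡ a + b * 3 ^ k [MOD 3 ^ 44] := by
      rw [heq]
      exact ((Nat.modEq_iff_dvd' (by omega)).mpr (by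
        rw [Nat.add_sub_cancel]
        exact Dvd.dvd.mul_left (pow_dvd_pow _ hm) _)).symm
    have h28 : 3 ^ 28 ≤ y := by
      have h0 : y ^ q ≡ a [MOD 3 ^ 44] → 3 ^ 28 ≤ y := by
        intro h
        rcases ha with rfl | rfl
        · exact le_trans (by norm_num) (root_one y q 44 hy hy3 hq (by omega) h)
        · exact c1 h
      rcases hb with ⟨rfl, rfl⟩ | ⟨hb, hk⟩
      · exact h0 (by simpa using hmod)
      · by_cases h44 : k < 44
        · exact c2 a b k ha hb hk h44 hmod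
        · exact h0 (hmodk 44 (by omega))
    have h1 := log_le_log (by positivity) (show (3 : ℝ) ^ 28 ≤ y by exact_mod_cast h28)
    rw [log_pow] at h1
    push_cast at h1
    linarith [log_three_gt_d9]
  · rcases ha with rfl | rfl
    · exact Or.inl (root_one y q k hy hy3 hq (by omega) (hmodk k le_rfl))
    · rcases Nat.eq_zero_or_pos k with rfl | hk
      · left; omega
      · right
        refine ⟨?_, by exact_mod_cast (Int.natCast_modEq_iff.mpr (hmodk k le_rfl))⟩
        have h1 := hmodk 1 hk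
        have h2 : y % 3 ≠ 0 := fun h => by
          have := Nat.Coprime.eq_one_of_dvd hy3.symm (Nat.dvd_of_mod_eq_zero h)
          omega
        by_contra h3
        have h4 : y ≡ 1 [MOD 3] := by unfold Nat.ModEq; omega
        have h5 := (h4.pow q).symm.trans h1
        simp [Nat.ModEq] at h5

end Pool.Agent.Lib.MP_93b520_nt
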